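import Mathlib

/-!
A linear-algebra version of Haxell's theorem: vectors `f e` indexed by a finite set `E` with a
conflict relation `D`; if every partial solution leaves room, there is a conflict-free spanning set.
-/

namespace Pool.Agent.H718C

open Finset Module

variable {K M E : Type*} [Field K] [AddCommGroup M] [Module K M] [FiniteDimensional K M]
variable [DecidableEq E]

/-- the span of the vectors indexed by `I` -/
def Sp (K : Type*) {M E : Type*} [Field K] [AddCommGroup M] [Module K M] (f : E → M)
    (I : Finset E) : Submodule K M := Submodule.span K (f '' (I : Set E))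

omit [FiniteDimensional K M] [DecidableEq E] in
theorem Sp_mono {f : E → M} {I J : Finset E} (h : I ⊆ J) : Sp K f I ≤ Sp K f J :=
  Submodule.span_mono (Set.image_mono (by exact_mod_cast h))

omit [FiniteDimensional K M] [DecidableEq E] in
theorem mem_Sp {f : E → M} {I : Finset E} {e : E} (h : e ∈ I) : f e ∈ Sp K f I :=
  Submodule.subset_span ⟨e, by exact_mod_cast h, rfl⟩

omit [FiniteDimensional K M] [DecidableEq E] in
theorem Sp_le {f : E → M} {I : Finset E} {U : Submodule K M} (h : ∀ e ∈ I, f e ∈ U) :
    Sp K f I ≤ U := by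
  rw [Sp, Submodule.span_le]
  rintro _ ⟨e, he, rfl⟩
  exact h e (by exact_mod_cast he)

omit [FiniteDimensional K M] in
theorem Sp_exch {f : E → M} {R : Finset E} {v w : E} (h1 : f v ∈ Sp K f (insert w R))
    (h2 : f v ∉ Sp K f R) : f w ∈ Sp K f (insert v R) := by
  rw [Sp, coe_insert, Set.image_insert_eq] at h1 ⊢
  exact mem_span_insert_exchange h1 h2

theorem finrank_Sp_le (f : E → M) (I : Finset E) : finrank K (Sp K f I) ≤ I.card := by
  classical
  have h : Sp K f I = Submodule.span K ((I.image f : Finset M) : Set M) := by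
    rw [Sp, coe_image]
  rw [h]
  exact (finrank_span_finset_le_card _).trans card_image_le

/-- union of the second components -/
def bigU (L : List (E × Finset E)) : Finset E := L.foldr (fun p s => p.2 ∪ s) ∅

omit [FiniteDimensional K M] in
theorem mem_bigU {L : List (E × Finset E)} {a : E} : a ∈ bigU L ↔ ∃ p ∈ L, a ∈ p.2 := by
  induction L with
  | nil => simp [bigU]
  | cons p L ih =>
    have : bigU (p :: L) = p.2 ∪ bigU L := rfl
    rw [this, mem_union, ih]
    simp

/-- `e` is neither dominated by a first component nor by an element of a second component -/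
def undom (D : E → E → Prop) (L : List (E × Finset E)) (e : E) : Prop :=
  ∀ p ∈ L, ¬ D p.1 e ∧ ∀ a ∈ p.2, ¬ D a e

/-- `I` is compatible with the list `L` -/
def P (K : Type*) {M E : Type*} [Field K] [AddCommGroup M] [Module K M] [DecidableEq E]
    (f : E → M) (D : E → E → Prop) : List (E × Finset E) → Finset E → Prop
  | [], _ => True
  | p :: L, I => P K f D L I ∧ (∀ a, a ∈ p.2 ↔ a ∈ I ∧ D p.1 a) ∧ f p.1 ∉ Sp K f (I \ bigU L)

/-- maximum size independent conflict-free sets -/
def Fam (K : Type*) {M E : Type*} [Field K] [AddCommGroup M] [Module K M] [DecidableEq E]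
    (f : E → M) (D : E → E → Prop) (s : ℕ) (I : Finset E) : Prop :=
  (∀ a ∈ I, ∀ b ∈ I, ¬ D a b) ∧ finrank K (Sp K f I) = I.card ∧ I.card = s

/-- the list was built by minimal choices -/
def Good (K : Type*) {M E : Type*} [Field K] [AddCommGroup M] [Module K M] [DecidableEq E]
    (f : E → M) (D : E → E → Prop) (s : ℕ) : List (E × Finset E) → Prop
  | [] => True
  | p :: L => Good K f D s L ∧ p.2.Nonempty ∧ undom D L p.1 ∧
      ∀ I, Fam K f D s I → P K f D L I → ∀ v, f v ∉ Sp K f (I \ bigU L) → undom D L v →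
        ∀ B : Finset E, (∀ a, a ∈ B ↔ a ∈ I ∧ D v a) → p.2.card ≤ B.card

omit [FiniteDimensional K M] in
theorem P_sub {f : E → M} {D : E → E → Prop} {L : List (E × Finset E)} {I : Finset E}
    (h : P K f D L I) : ∀ p ∈ L, ∀ a, a ∈ p.2 ↔ a ∈ I ∧ D p.1 a := by
  induction L with
  | nil => intro p hp; simp at hp
  | cons q L ih =>
    intro p hp
    rcases List.mem_cons.1 hp with rfl | hp
    · exact h.2.1
    · exact ih h.1 p hp

omit [FiniteDimensional K M] in
theorem bigU_sub {f : E → M} {D : E → E → Prop} {L : List (E × Finset E)} {I : Finset E}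
    (h : P K f D L I) : bigU L ⊆ I := by
  intro a ha
  obtain ⟨p, hp, hap⟩ := mem_bigU.1 ha
  exact ((P_sub h p hp a).1 hap).1

omit [FiniteDimensional K M] in
/-- the second components are disjoint -/
theorem card_bigU {f : E → M} {D : E → E → Prop} (hs : ∀ a b, D a b → D b a) {s : ℕ}
    {L : List (E × Finset E)} {I : Finset E}
    (h : P K f D L I) (hg : Good K f D s L) :
    (bigU L).card = (L.map (fun p => p.2.card)).sum ∧ L.length ≤ (bigU L).card := by
  induction L with
  | nil => simp [bigU]
  | cons p L ih =>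
    obtain ⟨ih1, ih2⟩ := ih h.1 hg.1
    have hU : bigU (p :: L) = p.2 ∪ bigU L := rfl
    have hd : Disjoint p.2 (bigU L) := by
      rw [disjoint_left]
      intro a ha hb
      obtain ⟨q, hq, haq⟩ := mem_bigU.1 hb
      exact (hg.2.2.1 q hq).2 a haq (hs _ _ ((h.2.1 a).1 ha).2)
    have h1 : 1 ≤ p.2.card := card_pos.2 hg.2.1
    rw [hU, card_union_of_disjoint hd, List.map_cons, List.sum_cons, List.length_cons]
    omega

omit [FiniteDimensional K M] in
/-- exchanging keeps compatibility -/
theorem P_swap {f : E → M} {D : E → E → Prop} {v w : E} {I : Finset E} (hv : v ∉ I)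
    {L : List (E × Finset E)} (hP : P K f D L I) (hu : undom D L v) (hw : w ∉ bigU L)
    (hsp : f v ∈ Sp K f (I \ bigU L)) : P K f D L (insert v (I.erase w)) := by
  induction L with
  | nil => trivial
  | cons p L ih =>
    have hU : bigU (p :: L) = p.2 ∪ bigU L := rfl
    rw [hU] at hw hsp
    rw [mem_union, not_or] at hw
    have hsp' : f v ∈ Sp K f (I \ bigU L) :=
      Sp_mono (sdiff_subset_sdiff (Subset.refl _) subset_union_right) hsp
    refine ⟨ih hP.1 (fun q hq => hu q (List.mem_cons_of_mem _ hq)) hw.2 hsp', ?_, ?_⟩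
    · intro a
      have hup := hu p List.mem_cons_self
      rw [hP.2.1 a, mem_insert, mem_erase]
      constructor
      · rintro ⟨h1, h2⟩
        refine ⟨Or.inr ⟨?_, h1⟩, h2⟩
        rintro rfl
        exact hw.1 ((hP.2.1 a).2 ⟨h1, h2⟩)
      · rintro ⟨h1 | h1, h2⟩
        · subst h1; exact absurd h2 hup.1
        · exact ⟨h1.2, h2⟩
    · intro hc
      apply hP.2.2
      refine (Sp_le ?_ : Sp K f _ ≤ Sp K f (I \ bigU L)) hc
      intro e he
      rw [mem_sdiff, mem_insert, mem_erase] at he
      rcases he.1 with rfl | h1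
      · exact hsp'
      · exact mem_Sp (mem_sdiff.2 ⟨h1.2, he.2⟩)

/-- exchanging keeps the family -/
theorem Fam_swap {f : E → M} {D : E → E → Prop} (hs : ∀ a b, D a b → D b a)
    (hirr : ∀ a, ¬ D a a) {s : ℕ} {v w : E} {I : Finset E} (hI : Fam K f D s I) (hv : v ∉ I)
    (hw : w ∈ I) (hN : ∀ a ∈ I, ¬ D v a) {R : Finset E} (hR : R ⊆ I.erase w)
    (hsp : f w ∈ Sp K f (insert v R)) : Fam K f D s (insert v (I.erase w)) := by
  have hcard : (insert v (I.erase w)).card = I.card := by
    rw [card_insert_of_notMem (fun h => hv (mem_of_mem_erase h)), card_erase_of_mem hw]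
    have := card_pos.2 ⟨w, hw⟩
    omega
  refine ⟨?_, ?_, ?_⟩
  · intro a ha b hb
    rw [mem_insert, mem_erase] at ha hb
    rcases ha with rfl | ha <;> rcases hb with rfl | hb
    · exact hirr _
    · exact hN b hb.2
    · exact fun h => hN a ha.2 (hs _ _ h)
    · exact hI.1 a ha.2 b hb.2
  · apply le_antisymm (finrank_Sp_le _ _)
    rw [hcard, ← hI.2.1]
    apply Submodule.finrank_mono
    apply Sp_le
    intro e he
    by_cases hew : e = w
    · subst hew
      exact Sp_mono (insert_subset_insert _ hR) hsp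
    · exact mem_Sp (mem_insert_of_mem (mem_erase.2 ⟨hew, he⟩))
  · rw [hcard]; exact hI.2.2

omit [FiniteDimensional K M] in
/-- removing a set which destroys membership: one of its elements can be exchanged -/
theorem exists_exch {f : E → M} {v : E} {J : Finset E} (U : Finset E)
    (h1 : f v ∈ Sp K f J) (h2 : f v ∉ Sp K f (J \ U)) :
    ∃ w ∈ U, w ∈ J ∧ ∃ R ⊆ J.erase w, f w ∈ Sp K f (insert v R) := by
  induction U using Finset.induction with
  | empty => simp at h2; exact absurd h1 h2
  | insert w U hw ih =>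
    by_cases h : f v ∈ Sp K f (J \ U)
    · by_cases hwJ : w ∈ J
      · refine ⟨w, mem_insert_self _ _, hwJ, (J \ U).erase w, ?_, ?_⟩
        · exact erase_subset_erase _ sdiff_subset
        · apply Sp_exch
          · rw [insert_erase (mem_sdiff.2 ⟨hwJ, hw⟩)]; exact h
          · rw [← sdiff_insert]; exact h2
      · exfalso
        apply h2
        have : J \ insert w U = J \ U := by
          rw [sdiff_insert, erase_eq_of_notMem]
          exact fun h => hwJ (mem_sdiff.1 h).1
        rw [this]; exact h
    · obtain ⟨w', h3, h4, h5⟩ := ih h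
      exact ⟨w', mem_insert_of_mem h3, h4, h5⟩

theorem contra {f : E → M} {D : E → E → Prop} (hs : ∀ a b, D a b → D b a)
    (hirr : ∀ a, ¬ D a a) {s : ℕ} {v : E} {I : Finset E} (hI : Fam K f D s I) (hv : v ∉ I)
    (hN : ∀ a ∈ I, ¬ D v a) (hcl : f v ∈ Sp K f I) {L : List (E × Finset E)}
    (hg : Good K f D s L) (hP : P K f D L I) (hu : undom D L v)
    (hsp : f v ∉ Sp K f (I \ bigU L)) : False := by
  induction L with
  | nil =>
    apply hsp
    have : bigU ([] : List (E × Finset E)) = ∅ := rfl
    rw [this, sdiff_empty]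
    exact hcl
  | cons p L ih =>
    have huL : undom D L v := fun q hq => hu q (List.mem_cons_of_mem _ hq)
    by_cases h : f v ∈ Sp K f (I \ bigU L)
    · have hU : bigU (p :: L) = p.2 ∪ bigU L := rfl
      have h' : f v ∉ Sp K f ((I \ bigU L) \ p.2) := by
        rw [sdiff_sdiff_left, sup_eq_union, union_comm, ← hU]; exact hsp
      obtain ⟨w, hwp, hwJ, R, hR, hwR⟩ := exists_exch p.2 h h'
      obtain ⟨hwI, hwL⟩ := mem_sdiff.1 hwJ
      have hI' := Fam_swap hs hirr hI hv hwI hN
        (hR.trans (erase_subset_erase _ sdiff_subset)) hwR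
      have hP' := P_swap hv hP.1 huL hwL h
      have hf : f p.1 ∉ Sp K f (insert v (I.erase w) \ bigU L) := by
        intro hc
        apply hP.2.2
        refine (Sp_le ?_ : Sp K f _ ≤ Sp K f (I \ bigU L)) hc
        intro e he
        rw [mem_sdiff, mem_insert, mem_erase] at he
        rcases he.1 with rfl | h1
        · exact h
        · exact mem_Sp (mem_sdiff.2 ⟨h1.2, he.2⟩)
      have := hg.2.2.2 _ hI' hP' p.1 hf hg.2.2.1 (p.2.erase w) (by
        intro a
        rw [mem_erase, hP.2.1 a, mem_insert, mem_erase]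
        constructor
        · rintro ⟨h1, h2, h3⟩
          exact ⟨Or.inr ⟨h1, h2⟩, h3⟩
        · rintro ⟨h1 | h1, h2⟩
          · subst h1; exact absurd h2 (hu p List.mem_cons_self).1
          · exact ⟨h1.1, h1.2, h2⟩)
      rw [card_erase_of_mem hwp] at this
      have := card_pos.2 ⟨w, hwp⟩
      omega
    · exact ih hg.1 hP.1 huL h

/-- **Haxell's theorem for vectors.** -/
theorem haxell [Fintype E] (f : E → M) (D : E → E → Prop) (hs : ∀ a b, D a b → D b a)
    (hirr : ∀ a, ¬ D a a)
    (star : ∀ (I : Finset E) (L : List (E × Finset E)), (∀ a ∈ I, ∀ b ∈ I, ¬ D a b) →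
      finrank K (Sp K f I) = I.card → Sp K f I ≠ Sp K f univ →
      (∀ p ∈ L, p.2.Nonempty ∧ p.2 ⊆ I ∧ ∀ a ∈ p.2, D p.1 a) →
      (bigU L).card = (L.map (fun p => p.2.card)).sum →
      bigU L ⊆ I →
      ∃ e, f e ∉ Sp K f (I \ bigU L) ∧ undom D L e) :
    ∃ I : Finset E, (∀ a ∈ I, ∀ b ∈ I, ¬ D a b) ∧ Sp K f I = Sp K f univ ∧
      finrank K (Sp K f I) = I.card := by
  classical
  by_contra hcon'
  have hcon : ∀ I : Finset E, (∀ a ∈ I, ∀ b ∈ I, ¬ D a b) → finrank K (Sp K f I) = I.card →
      Sp K f I ≠ Sp K f univ := fun I h1 h2 h3 => hcon' ⟨I, h1, h3, h2⟩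
  -- maximum size
  let T : Finset (Finset E) := univ.filter (fun I => (∀ a ∈ I, ∀ b ∈ I, ¬ D a b) ∧
    finrank K (Sp K f I) = I.card)
  have hT : T.Nonempty := ⟨∅, by
    simp only [T, mem_filter, mem_univ, true_and]
    refine ⟨by simp, ?_⟩
    rw [Sp, coe_empty, Set.image_empty, Submodule.span_empty, finrank_bot, card_empty]⟩
  obtain ⟨I0, hI0, hmax⟩ := exists_max_image T (fun I => I.card) hT
  have hI0' := (mem_filter.1 hI0).2
  set s := I0.card with hsdef
  have hmax' : ∀ I : Finset E, (∀ a ∈ I, ∀ b ∈ I, ¬ D a b) → finrank K (Sp K f I) = I.card →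
      I.card ≤ s := fun I h1 h2 => hmax I (mem_filter.2 ⟨mem_univ _, h1, h2⟩)
  have main : ∀ k : ℕ, ∃ L : List (E × Finset E), L.length = k ∧ Good K f D s L ∧
      ∃ I, Fam K f D s I ∧ P K f D L I := by
    intro k
    induction k with
    | zero => exact ⟨[], rfl, trivial, I0, ⟨hI0'.1, hI0'.2, rfl⟩, trivial⟩
    | succ k ih =>
      obtain ⟨L, hlen, hg, I1, hI1, hP1⟩ := ih
      -- all candidate pairs
      let C : Finset (Finset E × E) := univ.filter (fun q => Fam K f D s q.1 ∧ P K f D L q.1 ∧
        f q.2 ∉ Sp K f (q.1 \ bigU L) ∧ undom D L q.2)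
      have hC : C.Nonempty := by
        obtain ⟨e, he1, he2⟩ := star I1 L hI1.1 hI1.2.1 (hcon I1 hI1.1 hI1.2.1)
          (fun p hp => ⟨by
            clear hP1
            induction L generalizing k with
            | nil => simp at hp
            | cons q L ih =>
              rcases List.mem_cons.1 hp with rfl | hp
              · exact hg.2.1
              · exact ih L.length rfl hg.1 hp,
            fun a ha => ((P_sub hP1 p hp a).1 ha).1, fun a ha => ((P_sub hP1 p hp a).1 ha).2⟩)
          (card_bigU hs hP1 hg).1 (bigU_sub hP1)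
        exact ⟨(I1, e), mem_filter.2 ⟨mem_univ _, hI1, hP1, he1, he2⟩⟩
      obtain ⟨⟨I, v⟩, hIv, hmin⟩ := exists_min_image C
        (fun q => (q.1.filter (fun a => D q.2 a)).card) hC
      obtain ⟨-, hI, hP, hsp, hu⟩ := mem_filter.1 hIv
      simp only at hI hP hsp hu
      refine ⟨(v, I.filter (fun a => D v a)) :: L, by rw [List.length_cons, hlen],
        ⟨hg, ?_, hu, ?_⟩, I, hI, hP, ?_, hsp⟩
      · -- nonempty
        rw [nonempty_iff_ne_empty]
        intro hemp
        simp only at hemp
        have hN : ∀ a ∈ I, ¬ D v a := by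
          intro a ha hD
          have : a ∈ I.filter (fun a => D v a) := mem_filter.2 ⟨ha, hD⟩
          rw [hemp] at this
          simp at this
        have hvI : v ∉ I := by
          intro hvI
          by_cases hvU : v ∈ bigU L
          · obtain ⟨p, hp, hvp⟩ := mem_bigU.1 hvU
            exact (hu p hp).1 ((P_sub hP p hp v).1 hvp).2
          · exact hsp (mem_Sp (mem_sdiff.2 ⟨hvI, hvU⟩))
        by_cases hcl : f v ∈ Sp K f I
        · exact contra hs hirr hI hvI hN hcl hg hP hu hsp
        · have hlt : Sp K f I < Sp K f (insert v I) := by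
            refine lt_of_le_of_ne (Sp_mono (subset_insert _ _)) ?_
            intro heq
            exact hcl (heq ▸ mem_Sp (mem_insert_self _ _))
          have h1 := Submodule.finrank_lt_finrank_of_lt hlt
          have h2 := finrank_Sp_le (K := K) f (insert v I)
          have h3 : (insert v I).card = I.card + 1 := card_insert_of_notMem hvI
          have h4 := hI.2.1
          have h5 := hmax' (insert v I) (by
            intro a ha b hb
            rw [mem_insert] at ha hb
            rcases ha with rfl | ha <;> rcases hb with rfl | hb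
            · exact hirr _
            · exact hN b hb
            · exact fun h => hN a ha (hs _ _ h)
            · exact hI.1 a ha b hb) (by omega)
          have h6 := hI.2.2
          omega
      · intro I' hI' hP' v' hv' hu' B hB
        have h1 := hmin (I', v') (mem_filter.2 ⟨mem_univ _, hI', hP', hv', hu'⟩)
        have : B = I'.filter (fun a => D v' a) := by
          ext a; rw [hB a, mem_filter]
        rw [this]
        exact h1
      · intro a; rw [mem_filter]
  obtain ⟨L, hlen, hg, I, hI, hP⟩ := main (s + 1)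
  have h1 := (card_bigU hs hP hg).2
  have h2 := card_le_card (bigU_sub hP)
  have h3 := hI.2.2
  omega

theorem ne_zero_of_indep {f : E → M} {I : Finset E} (h : finrank K (Sp K f I) = I.card) {e : E}
    (he : e ∈ I) : f e ≠ 0 := by
  intro h0
  have h1 : Sp K f I ≤ Sp K f (I.erase e) := by
    apply Sp_le
    intro e' he'
    by_cases h2 : e' = e
    · rw [h2, h0]; exact Submodule.zero_mem _
    · exact mem_Sp (mem_erase.2 ⟨h2, he'⟩)
  have h2 := Submodule.finrank_mono h1
  have h3 := finrank_Sp_le (K := K) f (I.erase e)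
  rw [card_erase_of_mem he] at h3
  have := card_pos.2 ⟨e, he⟩
  omega

end Pool.Agent.H718C
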