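import Pool.Agent.Helper718_cayley.A

/-!
Two edge-disjoint connected spanning sets of links with pairwise disjoint supports, hence a
connected even set of links with pairwise disjoint supports.
-/

namespace Pool.Agent.H718C

open Finset Module

variable {X V Q Z : Type*} [DecidableEq X] [Fintype V] [DecidableEq V] [Fintype Q]
  [DecidableEq Q] [Fintype Z] [DecidableEq Z]

/-- the vector of a link with ends `s q`, `t q` -/
def vec (s t : Q → V) (q : Q) : V → ZMod 2 := Pi.single (s q) 1 + Pi.single (t q) 1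

/-- the copies of a link in the two coordinates -/
def vec2 (s t : Q → V) (e : Q × Bool) : (V → ZMod 2) × (V → ZMod 2) :=
  if e.2 then (0, vec s t e.1) else (vec s t e.1, 0)

/-- the part of `I` in coordinate `b` -/
def part (I : Finset (Q × Bool)) (b : Bool) : Finset Q := univ.filter (fun q => (q, b) ∈ I)

omit [Fintype V] [DecidableEq V] [DecidableEq Q] in
theorem mem_part {I : Finset (Q × Bool)} {b : Bool} {q : Q} [DecidableEq Q] :
    q ∈ part I b ↔ (q, b) ∈ I := by simp [part]

theorem card_part (I : Finset (Q × Bool)) : (part I false).card + (part I true).card = I.card := by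
  have h1 : ((part I false).map ⟨fun q => (q, false), fun a b h => (Prod.ext_iff.1 h).1⟩) ∪
      ((part I true).map ⟨fun q => (q, true), fun a b h => (Prod.ext_iff.1 h).1⟩) = I := by
    ext ⟨q, b⟩
    cases b <;> simp [part]
  have h2 : Disjoint ((part I false).map ⟨fun q => (q, false), fun a b h => (Prod.ext_iff.1 h).1⟩)
      ((part I true).map ⟨fun q => (q, true), fun a b h => (Prod.ext_iff.1 h).1⟩) := by
    rw [disjoint_left]
    intro a ha hb
    simp only [mem_map, Function.Embedding.coeFn_mk] at ha hb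
    obtain ⟨x, -, rfl⟩ := ha
    obtain ⟨y, -, hy⟩ := hb
    simp at hy
  conv_rhs => rw [← h1, card_union_of_disjoint h2, card_map, card_map]

theorem Sp_le_prod (s t : Q → V) (I : Finset (Q × Bool)) :
    Sp (ZMod 2) (vec2 s t) I ≤
      (Sp (ZMod 2) (vec s t) (part I false)).prod (Sp (ZMod 2) (vec s t) (part I true)) := by
  apply Sp_le
  rintro ⟨q, b⟩ he
  cases b
  · refine ⟨mem_Sp (mem_part.2 he), Submodule.zero_mem _⟩
  · refine ⟨Submodule.zero_mem _, mem_Sp (mem_part.2 he)⟩

/-- over the field with two elements, vectors of the span are subset sums -/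
theorem exists_subset_sum (f : Q → V → ZMod 2) (I : Finset Q) (x : V → ZMod 2)
    (h : x ∈ Sp (ZMod 2) f I) : ∃ T ⊆ I, ∑ q ∈ T, f q = x := by
  rw [Sp, Submodule.mem_span_image_finset_iff_exists_fun'] at h
  obtain ⟨c, hc⟩ := h
  refine ⟨I.filter (fun q => c q ≠ 0), filter_subset _ _, ?_⟩
  rw [← hc, sum_filter]
  apply sum_congr rfl
  intro q _
  have h2 : ∀ a : ZMod 2, a = 0 ∨ a = 1 := by decide
  rcases h2 (c q) with h | h <;> simp [h]

theorem two_trees (s t : Q → V) (z : Q → Z) (S : Z → Finset X) (κ : ℕ) (hκ : 0 < κ)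
    (hS : ∀ a, (S a).Nonempty)
    (cut : ∀ U : Submodule (ZMod 2) (V → ZMod 2), U ≤ Sp (ZMod 2) (vec s t) univ →
      2 * κ * finrank (ZMod 2) (Sp (ZMod 2) (vec s t) univ) ≤
        Set.ncard {a : Z | ∃ q, z q = a ∧ vec s t q ∉ U} + 2 * κ * finrank (ZMod 2) U)
    (blk : ∀ (z0 : Z) (B : Finset Z), B.Nonempty → (∀ b ∈ B, ¬ Disjoint (S z0) (S b)) →
      (∀ b ∈ B, ∀ b' ∈ B, b ≠ b' → Disjoint (S b) (S b')) →
      Set.ncard {a : Z | ¬ Disjoint (S a) (S z0 ∪ B.biUnion S)} ≤ κ * B.card) :
    ∃ F : Finset Q, (∀ q ∈ F, ∀ q' ∈ F, q ≠ q' → Disjoint (S (z q)) (S (z q'))) ∧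
      ∑ q ∈ F, vec s t q = 0 ∧ (∀ q, vec s t q ∈ Sp (ZMod 2) (vec s t) F) ∧
      ∀ q ∈ F, vec s t q ≠ 0 := by
  classical
  set W0 := Sp (ZMod 2) (vec s t) univ with hW0
  let D : Q × Bool → Q × Bool → Prop := fun a b => a ≠ b ∧ ¬ Disjoint (S (z a.1)) (S (z b.1))
  have hs : ∀ a b, D a b → D b a := fun a b h => ⟨h.1.symm, fun h' => h.2 h'.symm⟩
  have hirr : ∀ a, ¬ D a a := fun a h => h.1 rfl
  obtain ⟨I, hI1, hI2, hI3⟩ := haxell (K := ZMod 2) (vec2 s t) D hs hirr (by
    intro I L hfree hind hne hL hsum hsub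
    by_contra hcon
    push Not at hcon
    set J := I \ bigU L with hJ
    set U0 := Sp (ZMod 2) (vec s t) (part J false) with hU0
    set U1 := Sp (ZMod 2) (vec s t) (part J true) with hU1
    have hU0W : U0 ≤ W0 := Sp_mono (subset_univ _)
    have hU1W : U1 ≤ W0 := Sp_mono (subset_univ _)
    have c0 := cut U0 hU0W
    have c1 := cut U1 hU1W
    -- blocked indices
    have hblk : ∀ (L' : List ((Q × Bool) × Finset (Q × Bool))), (∀ p ∈ L', p ∈ L) →
        Set.ncard {a : Z | ∃ p ∈ L', ∃ e : Q × Bool, (e = p.1 ∨ e ∈ p.2) ∧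
          ¬ Disjoint (S a) (S (z e.1))} ≤ κ * (L'.map (fun p => p.2.card)).sum := by
      intro L' hL'
      induction L' with
      | nil => simp
      | cons p L' ih =>
        have ih' := ih (fun q hq => hL' q (List.mem_cons_of_mem _ hq))
        obtain ⟨h1, h2, h3⟩ := hL p (hL' p List.mem_cons_self)
        have hb := blk (z p.1.1) (p.2.image (fun e => z e.1)) (h1.image _) (by
          intro b hb
          obtain ⟨e, he, rfl⟩ := mem_image.1 hb
          exact (h3 e he).2) (by
          intro b hb b' hb' hne'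
          obtain ⟨e, he, rfl⟩ := mem_image.1 hb
          obtain ⟨e', he', rfl⟩ := mem_image.1 hb'
          by_contra hd
          exact hfree e (h2 he) e' (h2 he') ⟨fun h => hne' (by rw [h]), hd⟩)
        have hc : (p.2.image (fun e => z e.1)).card ≤ p.2.card := card_image_le
        have hsub' : {a : Z | ∃ p' ∈ p :: L', ∃ e : Q × Bool, (e = p'.1 ∨ e ∈ p'.2) ∧
            ¬ Disjoint (S a) (S (z e.1))} ⊆
            {a : Z | ¬ Disjoint (S a) (S (z p.1.1) ∪ (p.2.image (fun e => z e.1)).biUnion S)} ∪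
            {a : Z | ∃ p ∈ L', ∃ e : Q × Bool, (e = p.1 ∨ e ∈ p.2) ∧
              ¬ Disjoint (S a) (S (z e.1))} := by
          rintro a ⟨p', hp', e, he, hd⟩
          rcases List.mem_cons.1 hp' with rfl | hp'
          · left
            intro hdis
            apply hd
            refine hdis.mono_right ?_
            rcases he with rfl | he
            · exact subset_union_left
            · refine Subset.trans ?_ subset_union_right
              exact subset_biUnion_of_mem S (mem_image_of_mem (fun e => z e.1) he)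
          · exact Or.inr ⟨p', hp', e, he, hd⟩
        calc _ ≤ _ := Set.ncard_le_ncard hsub' (Set.toFinite _)
          _ ≤ _ := Set.ncard_union_le _ _
          _ ≤ κ * (p.2.image (fun e => z e.1)).card + κ * (L'.map (fun p => p.2.card)).sum :=
              Nat.add_le_add hb ih'
          _ ≤ κ * ((p :: L').map (fun p => p.2.card)).sum := by
              rw [List.map_cons, List.sum_cons, mul_add]
              exact Nat.add_le_add_right (Nat.mul_le_mul_left _ hc) _
    have hB := hblk L (fun p hp => hp)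
    rw [← hsum] at hB
    have hbad : ∀ b : Bool, {a : Z | ∃ q, z q = a ∧ vec s t q ∉
        Sp (ZMod 2) (vec s t) (part J b)} ⊆ {a : Z | ∃ p ∈ L, ∃ e : Q × Bool,
          (e = p.1 ∨ e ∈ p.2) ∧ ¬ Disjoint (S a) (S (z e.1))} := by
      rintro b a ⟨q, rfl, hq⟩
      have h1 : vec2 s t (q, b) ∉ Sp (ZMod 2) (vec2 s t) J := by
        intro h
        have h2 := Sp_le_prod s t J h
        apply hq
        cases b
        · exact h2.1
        · exact h2.2
      have h2 := hcon (q, b) h1
      by_contra h3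
      apply h2
      intro p hp
      refine ⟨fun hD => h3 ⟨p, hp, p.1, Or.inl rfl, fun h => hD.2 h.symm⟩,
        fun a ha hD => h3 ⟨p, hp, a, Or.inr ha, fun h => hD.2 h.symm⟩⟩
    have b0 : Set.ncard {a : Z | ∃ q, z q = a ∧ vec s t q ∉ U0} ≤ κ * (bigU L).card :=
      (Set.ncard_le_ncard (hbad false) (Set.toFinite _)).trans hB
    have b1 : Set.ncard {a : Z | ∃ q, z q = a ∧ vec s t q ∉ U1} ≤ κ * (bigU L).card :=
      (Set.ncard_le_ncard (hbad true) (Set.toFinite _)).trans hB
    have f0 : finrank (ZMod 2) U0 ≤ (part J false).card := finrank_Sp_le _ _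
    have f1 : finrank (ZMod 2) U1 ≤ (part J true).card := finrank_Sp_le _ _
    have f2 := card_part J
    have f3 : J.card = I.card - (bigU L).card := card_sdiff_of_subset hsub
    have f4 := card_le_card hsub
    -- dimension of the whole
    have f5 : finrank (ZMod 2) (Sp (ZMod 2) (vec2 s t) I) <
        finrank (ZMod 2) (Sp (ZMod 2) (vec2 s t) univ) :=
      Submodule.finrank_lt_finrank_of_lt (lt_of_le_of_ne (Sp_mono (subset_univ _)) hne)
    have f6 : finrank (ZMod 2) (Sp (ZMod 2) (vec2 s t) univ) ≤ 2 * finrank (ZMod 2) W0 := by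
      have h1 : Sp (ZMod 2) (vec2 s t) univ ≤
          W0.map (LinearMap.inl (ZMod 2) (V → ZMod 2) (V → ZMod 2)) ⊔
          W0.map (LinearMap.inr (ZMod 2) (V → ZMod 2) (V → ZMod 2)) := by
        apply Sp_le
        rintro ⟨q, b⟩ -
        cases b
        · exact Submodule.mem_sup_left ⟨vec s t q, mem_Sp (mem_univ _), rfl⟩
        · exact Submodule.mem_sup_right ⟨vec s t q, mem_Sp (mem_univ _), rfl⟩
      have h2 := Submodule.finrank_mono h1
      have h3 := Submodule.finrank_add_le_finrank_add_finrank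
        (W0.map (LinearMap.inl (ZMod 2) (V → ZMod 2) (V → ZMod 2)))
        (W0.map (LinearMap.inr (ZMod 2) (V → ZMod 2) (V → ZMod 2)))
      have h4 := Submodule.finrank_map_le (LinearMap.inl (ZMod 2) (V → ZMod 2) (V → ZMod 2)) W0
      have h5 := Submodule.finrank_map_le (LinearMap.inr (ZMod 2) (V → ZMod 2) (V → ZMod 2)) W0
      omega
    rw [hind] at f5
    have g1 : 2 * κ * finrank (ZMod 2) W0 + 2 * κ * finrank (ZMod 2) W0 ≤
        κ * (bigU L).card + κ * (bigU L).card +
          2 * κ * (finrank (ZMod 2) U0 + finrank (ZMod 2) U1) := by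
      rw [mul_add]; omega
    have g2 : finrank (ZMod 2) U0 + finrank (ZMod 2) U1 + (bigU L).card ≤ I.card := by omega
    have g3 : I.card + 1 ≤ 2 * finrank (ZMod 2) W0 := by omega
    have g4 : 2 * κ * (finrank (ZMod 2) U0 + finrank (ZMod 2) U1 + (bigU L).card) ≤
        2 * κ * I.card := Nat.mul_le_mul_left _ g2
    have g5 : 2 * κ * (I.card + 1) ≤ 2 * κ * (2 * finrank (ZMod 2) W0) :=
      Nat.mul_le_mul_left _ g3
    nlinarith)
  -- assemble
  have hall : ∀ q b, vec2 s t (q, b) ∈ Sp (ZMod 2) (vec2 s t) I := by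
    intro q b
    rw [hI2]
    exact mem_Sp (mem_univ _)
  have h0 : ∀ q, vec s t q ∈ Sp (ZMod 2) (vec s t) (part I false) := fun q =>
    (Sp_le_prod s t I (hall q false)).1
  have h1 : ∀ q, vec s t q ∈ Sp (ZMod 2) (vec s t) (part I true) := fun q =>
    (Sp_le_prod s t I (hall q true)).2
  obtain ⟨T, hT, hTs⟩ := exists_subset_sum (vec s t) (part I true)
    (∑ q ∈ part I false, vec s t q) (Submodule.sum_mem _ fun q _ => h1 q)
  have key : ∀ q ∈ part I false, ∀ q' ∈ T, Disjoint (S (z q)) (S (z q')) := by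
    intro q hq q' hq'
    by_contra hd
    exact hI1 (q, false) (mem_part.1 hq) (q', true) (mem_part.1 (hT hq'))
      ⟨by simp, hd⟩
  have hdis : Disjoint (part I false) T := by
    rw [disjoint_left]
    intro q hq hq'
    have := key q hq q hq'
    rw [disjoint_self_iff_empty] at this
    exact (hS (z q)).ne_empty this
  refine ⟨part I false ∪ T, ?_, ?_, ?_, ?_⟩
  · intro q hq q' hq' hne
    rw [mem_union] at hq hq'
    rcases hq with hq | hq <;> rcases hq' with hq' | hq'
    · by_contra hd
      exact hI1 (q, false) (mem_part.1 hq) (q', false) (mem_part.1 hq')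
        ⟨fun h => hne (Prod.ext_iff.1 h).1, hd⟩
    · exact key q hq q' hq'
    · exact (key q' hq' q hq).symm
    · by_contra hd
      exact hI1 (q, true) (mem_part.1 (hT hq)) (q', true) (mem_part.1 (hT hq'))
        ⟨fun h => hne (Prod.ext_iff.1 h).1, hd⟩
  · rw [sum_union hdis, hTs]
    ext v
    have h2 : ∀ a : ZMod 2, a + a = 0 := by decide
    exact h2 _
  · intro q
    exact Sp_mono subset_union_left (h0 q)
  · intro q hq hz
    rw [mem_union] at hq
    rcases hq with hq | hq
    · apply ne_zero_of_indep hI3 (mem_part.1 hq)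
      change (vec s t q, (0 : V → ZMod 2)) = 0
      rw [hz]; rfl
    · apply ne_zero_of_indep hI3 (mem_part.1 (hT hq))
      change ((0 : V → ZMod 2), vec s t q) = 0
      rw [hz]; rfl

end Pool.Agent.H718C
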