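import Pool.Agent.Helper718_cayley.B

/-!
Two fixed-point-free involutions are 2-colourable; pairings of the half-edges at every vertex of an
even multigraph; merging the cycles of a permutation inside cliques.
-/

namespace Pool.Agent.H718C

open Finset

/-- the product of two fixed-point-free involutions does not move a point to its partner -/
theorem not_sameCycle {Y : Type*} (τ ε : Equiv.Perm Y) (hτ : τ * τ = 1) (hε : ε * ε = 1)
    (hτ' : ∀ y, τ y ≠ y) (hε' : ∀ y, ε y ≠ y) (y : Y) : ¬ (τ * ε).SameCycle y (ε y) := by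
  rintro ⟨k, hk⟩
  have hεinv : ε⁻¹ = ε := inv_eq_of_mul_eq_one_left hε
  have hτinv : τ⁻¹ = τ := inv_eq_of_mul_eq_one_left hτ
  have hconj : ε * (τ * ε) * ε⁻¹ = (τ * ε)⁻¹ := by
    rw [mul_inv_rev, hεinv, hτinv, mul_assoc, mul_assoc, hε, mul_one]
  have hcz : ∀ j : ℤ, ∀ x, ε (((τ * ε) ^ j) x) = ((τ * ε) ^ (-j)) (ε x) := by
    intro j x
    have h1 : ε * (τ * ε) ^ j * ε⁻¹ = (τ * ε) ^ (-j) := by
      rw [← conj_zpow, hconj, inv_zpow, zpow_neg]
    rw [← h1, Equiv.Perm.mul_apply, Equiv.Perm.mul_apply, hεinv, ← Equiv.Perm.mul_apply ε ε, hε,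
      Equiv.Perm.one_apply]
  rcases Int.even_or_odd' k with ⟨j, rfl | rfl⟩
  · apply hε' (((τ * ε) ^ j) y)
    rw [hcz, ← hk, ← Equiv.Perm.mul_apply, ← zpow_add]
    congr 2
    ring
  · apply hτ' (((τ * ε) ^ (j + 1)) y)
    have h1 : ∀ x, τ x = (τ * ε) (ε x) := by
      intro x
      rw [← Equiv.Perm.mul_apply, mul_assoc, hε, mul_one]
    rw [h1, hcz, ← hk, ← Equiv.Perm.mul_apply, ← Equiv.Perm.mul_apply, ← zpow_one_add, ← zpow_add]
    congr 2
    ring

theorem two_colour {Y : Type*} (τ ε : Equiv.Perm Y) (hτ : τ * τ = 1) (hε : ε * ε = 1)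
    (hτ' : ∀ y, τ y ≠ y) (hε' : ∀ y, ε y ≠ y) :
    ∃ c : Y → Bool, (∀ y, c (τ y) = !c y) ∧ (∀ y, c (ε y) = !c y) := by
  classical
  let st : Setoid Y := Equiv.Perm.SameCycle.setoid (τ * ε)
  let r : Quotient st → Quotient st → Prop := WellOrderingRel
  have hne : ∀ y, (⟦y⟧ : Quotient st) ≠ ⟦ε y⟧ := by
    intro y h
    exact not_sameCycle τ ε hτ hε hτ' hε' y (Quotient.exact h)
  have hεε : ∀ y, ε (ε y) = y := fun y => by
    rw [← Equiv.Perm.mul_apply, hε, Equiv.Perm.one_apply]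
  have hττ : ∀ y, τ (τ y) = y := fun y => by
    rw [← Equiv.Perm.mul_apply, hτ, Equiv.Perm.one_apply]
  have h1 : ∀ y, (⟦τ y⟧ : Quotient st) = ⟦ε y⟧ := by
    intro y
    apply Quotient.sound
    refine ⟨-1, ?_⟩
    rw [zpow_neg_one, Equiv.Perm.inv_eq_iff_eq, Equiv.Perm.mul_apply, hεε]
  have h2 : ∀ y, (⟦ε (τ y)⟧ : Quotient st) = ⟦y⟧ := by
    intro y
    apply Quotient.sound
    refine ⟨1, ?_⟩
    rw [zpow_one, Equiv.Perm.mul_apply, hεε, hττ]
  have hflip : ∀ a b : Quotient st, a ≠ b → (decide (r b a) = !decide (r a b)) := by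
    intro a b hab
    rcases trichotomous_of (r := (WellOrderingRel : Quotient st → Quotient st → Prop)) a b
      with h | h | h
    · have h' : ¬ r b a := fun h' => asymm h h'
      have h'' : r a b := h
      simp [h', h'']
    · exact absurd h hab
    · have h' : ¬ r a b := fun h' => asymm h h'
      have h'' : r b a := h
      simp [h', h'']
  refine ⟨fun y => decide (r ⟦y⟧ ⟦ε y⟧), ?_, ?_⟩
  · intro y
    change decide (r ⟦τ y⟧ ⟦ε (τ y)⟧) = _
    rw [h1, h2]
    exact hflip _ _ (hne y)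
  · intro y
    change decide (r ⟦ε y⟧ ⟦ε (ε y)⟧) = _
    rw [hεε]
    exact hflip _ _ (hne y)

theorem exists_invol {Y : Type*} [Fintype Y] (h : Even (Fintype.card Y)) :
    ∃ τ : Equiv.Perm Y, τ * τ = 1 ∧ ∀ y, τ y ≠ y := by
  obtain ⟨k, hk⟩ := h
  have e : Y ≃ Fin k × Bool := Fintype.equivOfCardEq (by
    rw [hk, Fintype.card_prod, Fintype.card_fin, Fintype.card_bool, mul_two])
  let ρ : Equiv.Perm (Fin k × Bool) := Equiv.prodCongr (Equiv.refl _) Equiv.boolNot
  have hρ : ∀ x, ρ (ρ x) = x := by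
    rintro ⟨i, b⟩
    simp [ρ]
  have hρ' : ∀ x, ρ x ≠ x := by
    rintro ⟨i, b⟩
    simp [ρ]
  refine ⟨(e.trans ρ).trans e.symm, ?_, ?_⟩
  · ext y
    simp [hρ]
  · intro y h
    apply hρ' (e y)
    have := congrArg e h
    simpa using this

theorem exists_pairing {Y V : Type*} [Fintype Y] [DecidableEq V] (at' : Y → V)
    (h : ∀ v, Even (univ.filter (fun y => at' y = v)).card) :
    ∃ τ : Equiv.Perm Y, τ * τ = 1 ∧ (∀ y, τ y ≠ y) ∧ ∀ y, at' (τ y) = at' y := by
  have h' : ∀ v, ∃ τ : Equiv.Perm {y // at' y = v}, τ * τ = 1 ∧ ∀ y, τ y ≠ y := by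
    intro v
    apply exists_invol
    rw [Fintype.card_subtype]
    exact h v
  choose τv h1 h2 using h'
  let f : Y → Y := fun y => (τv (at' y) ⟨y, rfl⟩).1
  have hf : ∀ y, at' (f y) = at' y := fun y => (τv (at' y) ⟨y, rfl⟩).2
  have hfe : ∀ v y (hy : at' y = v), f y = (τv v ⟨y, hy⟩).1 := by
    intro v y hy
    subst hy
    rfl
  have hff : Function.Involutive f := by
    intro y
    rw [hfe (at' y) (f y) (hf y)]
    have : (⟨f y, hf y⟩ : {y' // at' y' = at' y}) = τv (at' y) ⟨y, rfl⟩ := rfl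
    rw [this, ← Equiv.Perm.mul_apply, h1, Equiv.Perm.one_apply]
  refine ⟨hff.toPerm f, ?_, ?_, ?_⟩
  · ext y
    exact hff y
  · intro y hy
    apply h2 (at' y) ⟨y, rfl⟩
    exact Subtype.ext hy
  · exact hf

/-- invariants of the permutations used in the merging argument: `κ x = inl v` says that the step
`x → σ x` is made inside the clique `v`, `κ x = inr x` that it is a link -/
structure Inv {X V : Type*} (R : X → X → Prop) (inC : X → V → Prop) (κ : X → V ⊕ X)
    (σ : Equiv.Perm X) : Prop where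
  cl : ∀ x v, κ x = Sum.inl v → inC x v ∧ inC (σ x) v
  lk : ∀ x y, κ x = Sum.inr y → x = y ∧ R x (σ x)
  con : ∀ P : Set X, (∀ x ∈ P, σ x ∈ P) → (∀ x y, κ x = κ y → x ∈ P → y ∈ P) → P.Nonempty →
    P = Set.univ

theorem perm_closed {X : Type*} [Finite X] (σ : Equiv.Perm X) (P : Set X)
    (h : ∀ x ∈ P, σ x ∈ P) {x y : X} (hxy : σ.SameCycle x y) (hx : x ∈ P) : y ∈ P := by
  classical
  have : Fintype X := Fintype.ofFinite X
  obtain ⟨n, -, -, hn⟩ := hxy.exists_pow_eq σ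
  rw [← hn]
  clear hn
  induction n with
  | zero => exact hx
  | succ n ih => rw [pow_succ', Equiv.Perm.mul_apply]; exact h _ ih

/-- merging all cycles -/
theorem merge_cycles {X V : Type*} [Fintype X] {R : X → X → Prop} {inC : X → V → Prop}
    {κ : X → V ⊕ X} {σ : Equiv.Perm X} (h : Inv R inC κ σ) (x0 : X) :
    ∃ σ' : Equiv.Perm X, Inv R inC κ σ' ∧ ∀ x, σ'.SameCycle x0 x := by
  classical
  let T : Finset (Equiv.Perm X) := univ.filter (fun σ => Inv R inC κ σ)
  obtain ⟨σ1, hσ1, hmax⟩ := exists_max_image T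
    (fun σ => (univ.filter (fun x => σ.SameCycle x0 x)).card) ⟨σ, mem_filter.2 ⟨mem_univ _, h⟩⟩
  have h1 := (mem_filter.1 hσ1).2
  refine ⟨σ1, h1, ?_⟩
  by_contra hcon
  push Not at hcon
  obtain ⟨x1, hx1⟩ := hcon
  have h2 : ¬ ∀ x y, κ x = κ y → x ∈ {x | σ1.SameCycle x0 x} → y ∈ {x | σ1.SameCycle x0 x} := by
    intro h2
    have h3 := h1.con {x | σ1.SameCycle x0 x} (fun x hx => hx.trans ⟨1, by simp⟩) h2
      ⟨x0, Equiv.Perm.SameCycle.refl _ _⟩
    have h4 : x1 ∈ {x | σ1.SameCycle x0 x} := by rw [h3]; trivial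
    exact hx1 h4
  push Not at h2
  obtain ⟨g, g', hκ, hg, hg'⟩ := h2
  have hgg : g ≠ g' := by
    rintro rfl
    exact hg' hg
  simp only [Set.mem_ofPred_eq] at hg hg'
  -- the clique
  obtain ⟨v, hv⟩ : ∃ v, κ g = Sum.inl v := by
    rcases hk : κ g with v | y
    · exact ⟨v, rfl⟩
    · exfalso
      have a1 := (h1.lk g y hk).1
      have a2 := (h1.lk g' y (by rw [← hκ, hk])).1
      exact hgg (a1.trans a2.symm)
  have hv' : κ g' = Sum.inl v := by rw [← hκ, hv]
  let σ2 : Equiv.Perm X := σ1 * Equiv.swap g g'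
  have s1 : σ2 g = σ1 g' := by simp [σ2]
  have s2 : σ2 g' = σ1 g := by simp [σ2]
  have s3 : ∀ x, x ≠ g → x ≠ g' → σ2 x = σ1 x := by
    intro x hx hx'
    simp [σ2, Equiv.swap_apply_of_ne_of_ne hx hx']
  have hclosed : ∀ P : Set X, (∀ x ∈ P, σ2 x ∈ P) → (g ∈ P ↔ g' ∈ P) → ∀ x ∈ P, σ1 x ∈ P := by
    intro P hP hgP x hx
    by_cases hxg : x = g
    · subst hxg
      rw [← s2]; exact hP _ (hgP.1 hx)
    · by_cases hxg' : x = g'
      · subst hxg'
        rw [← s1]; exact hP _ (hgP.2 hx)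
      · rw [← s3 x hxg hxg']; exact hP _ hx
  have hinv : Inv R inC κ σ2 := by
    refine ⟨?_, ?_, ?_⟩
    · intro x w hx
      by_cases hxg : x = g
      · subst hxg
        rw [hv] at hx
        obtain rfl := Sum.inl.inj hx
        rw [s1]
        exact ⟨(h1.cl _ _ hv).1, (h1.cl _ _ hv').2⟩
      · by_cases hxg' : x = g'
        · subst hxg'
          rw [hv'] at hx
          obtain rfl := Sum.inl.inj hx
          rw [s2]
          exact ⟨(h1.cl _ _ hv').1, (h1.cl _ _ hv).2⟩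
        · rw [s3 x hxg hxg']
          exact h1.cl x w hx
    · intro x y hx
      have hxg : x ≠ g := by rintro rfl; rw [hv] at hx; exact absurd hx (by simp)
      have hxg' : x ≠ g' := by rintro rfl; rw [hv'] at hx; exact absurd hx (by simp)
      rw [s3 x hxg hxg']
      exact h1.lk x y hx
    · intro P hP hκP hne
      exact h1.con P (hclosed P hP ⟨hκP g g' hκ, hκP g' g hκ.symm⟩) hκP hne
  -- the new orbit is larger
  have hQ : ∀ x, σ1.SameCycle x0 x → σ2.SameCycle x0 x ∧ σ2.SameCycle x0 g' := by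
    -- the orbit of `g` under `σ2`
    set Qs : Set X := {x | σ2.SameCycle g x} with hQs
    have q1 : ∀ x ∈ Qs, σ2 x ∈ Qs := fun x hx => hx.trans ⟨1, by simp⟩
    have q0 : g ∈ Qs := Equiv.Perm.SameCycle.refl _ _
    have q2 : g' ∈ Qs := by
      by_contra hn
      have q3 : ∀ x ∈ Qs ∩ {x | σ1.SameCycle g' x}, σ1 x ∈ Qs ∩ {x | σ1.SameCycle g' x} := by
        rintro x ⟨hx1, hx2⟩
        have hxg : x ≠ g := by
          rintro rfl
          exact hg' (hg.trans hx2.symm)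
        have hxg' : x ≠ g' := by rintro rfl; exact hn hx1
        refine ⟨?_, hx2.trans ⟨1, by simp⟩⟩
        rw [← s3 x hxg hxg']; exact q1 x hx1
      have q4 : σ1 g' ∈ Qs ∩ {x | σ1.SameCycle g' x} := by
        refine ⟨?_, ⟨1, by simp⟩⟩
        rw [← s1]; exact q1 g q0
      have q5 := perm_closed σ1 _ q3 (x := σ1 g') (y := g')
        (Equiv.Perm.SameCycle.symm ⟨1, by simp⟩) q4
      exact hn q5.1
    have q6 : ∀ x ∈ Qs, σ1 x ∈ Qs := hclosed Qs q1 ⟨fun _ => q2, fun _ => q0⟩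
    have q7 : x0 ∈ Qs := perm_closed σ1 Qs q6 hg.symm q0
    intro x hx
    have q8 : x ∈ Qs := perm_closed σ1 Qs q6 hx q7
    have q7' : σ2.SameCycle g x0 := q7
    have q8' : σ2.SameCycle g x := q8
    have q2' : σ2.SameCycle g g' := q2
    exact ⟨q7'.symm.trans q8', q7'.symm.trans q2'⟩
  have hlt : (univ.filter (fun x => σ1.SameCycle x0 x)).card <
      (univ.filter (fun x => σ2.SameCycle x0 x)).card := by
    apply card_lt_card
    rw [ssubset_iff_of_subset]
    · refine ⟨g', mem_filter.2 ⟨mem_univ _, (hQ g hg).2⟩, ?_⟩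
      intro hm
      exact hg' (mem_filter.1 hm).2
    · intro x hx
      exact mem_filter.2 ⟨mem_univ _, (hQ x (mem_filter.1 hx).2).1⟩
  have := hmax σ2 (mem_filter.2 ⟨mem_univ _, hinv⟩)
  omega

end Pool.Agent.H718C
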