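import Pool.Agent.Helper718_cayley.C

/-!
From a connected even set of links with pairwise disjoint supports to a cyclic permutation of all
elements.
-/

namespace Pool.Agent.H718C

open Finset

/-- the number of half-edges at a vertex is even -/
theorem even_half {V Q : Type*} [DecidableEq V] (s t : Q → V) (F : Finset Q)
    (heven : ∑ q ∈ F, vec s t q = 0) (v : V) :
    Even (univ.filter (fun y : F × Bool => (if y.2 then t y.1 else s y.1) = v)).card := by
  have h1 := congrFun heven v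
  rw [Finset.sum_apply] at h1
  have h2 : (((univ.filter (fun y : F × Bool => (if y.2 then t y.1 else s y.1) = v)).card : ℕ) :
      ZMod 2) = 0 := by
    rw [card_filter, Nat.cast_sum, Fintype.sum_prod_type]
    simp only [Fintype.sum_bool, Pi.zero_apply] at h1 ⊢
    rw [← h1, ← Finset.sum_coe_sort F]
    apply sum_congr rfl
    intro q _
    simp only [vec, Pi.add_apply, Pi.single_apply, if_true, Bool.false_eq_true, if_false,
      Nat.cast_ite, Nat.cast_one, Nat.cast_zero]
    rw [add_comm]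
    congr 1 <;> simp [eq_comm]
  rw [ZMod.natCast_eq_zero_iff] at h2
  exact even_iff_two_dvd.2 h2

theorem euler_perm {X V Q : Type*} [Fintype X] [DecidableEq V]
    (R : X → X → Prop) (hR : ∀ x y, R x y → R y x) (inC : X → V → Prop) (κ0 : X → V)
    (hκ0 : ∀ x, inC x (κ0 x)) (s t : Q → V) (a b : Q → X) (ha : ∀ q, inC (a q) (s q))
    (hb : ∀ q, inC (b q) (t q)) (hab : ∀ q, a q = b q ∨ R (a q) (b q)) (F : Finset Q)
    (hdisj : ∀ q ∈ F, ∀ q' ∈ F, q ≠ q' → a q ≠ a q' ∧ a q ≠ b q' ∧ b q ≠ a q' ∧ b q ≠ b q')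
    (heven : ∑ q ∈ F, vec s t q = 0)
    (hconn : ∀ P : Set V, (∀ q ∈ F, s q ∈ P ↔ t q ∈ P) → P.Nonempty → P = Set.univ) :
    ∃ κ σ, Inv R inC κ σ := by
  classical
  let at' : F × Bool → V := fun y => if y.2 then t y.1 else s y.1
  let el : F × Bool → X := fun y => if y.2 then b y.1 else a y.1
  have hel : ∀ y, inC (el y) (at' y) := by
    rintro ⟨q, β⟩
    cases β
    · exact ha _
    · exact hb _
  have helne : ∀ y y' : F × Bool, y.1 ≠ y'.1 → el y ≠ el y' := by
    rintro ⟨q, β⟩ ⟨q', β'⟩ hne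
    have h := hdisj q q.2 q' q'.2 (fun h => hne (Subtype.ext h))
    cases β <;> cases β'
    · exact h.1
    · exact h.2.1
    · exact h.2.2.1
    · exact h.2.2.2
  obtain ⟨τ, hτ1, hτ2, hτ3⟩ := exists_pairing at' (fun v => even_half s t F heven v)
  let ε : Equiv.Perm (F × Bool) := Equiv.prodCongr (Equiv.refl _) Equiv.boolNot
  have hε0 : ∀ q β, ε (q, β) = (q, !β) := fun q β => rfl
  have hε1 : ε * ε = 1 := by
    ext ⟨q, β⟩ <;> simp [ε]
  have hε2 : ∀ y, ε y ≠ y := by
    rintro ⟨q, β⟩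
    simp [ε]
  obtain ⟨c, hc1, hc2⟩ := two_colour τ ε hτ1 hε1 hτ2 hε2
  let dep : F → Bool := fun q => c (q, true)
  have hdep : ∀ q, c (q, dep q) = true := by
    intro q
    cases h : c (q, true)
    · have h1 : dep q = false := h
      rw [h1]
      have := hc2 (q, true)
      rw [hε0, h] at this
      simpa using this
    · have h1 : dep q = true := h
      rw [h1, h]
  have harr : ∀ q, c (q, !dep q) = false := by
    intro q
    have := hc2 (q, dep q)
    rw [hε0, hdep] at this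
    simpa using this
  have huniq : ∀ q β, c (q, β) = true → β = dep q := by
    intro q β h
    by_contra hne
    have hb : ∀ x y : Bool, x ≠ y → x = !y := by decide
    have : β = !dep q := hb _ _ hne
    rw [this, harr] at h
    exact absurd h (by simp)
  let fs : F → X := fun q => el (q, dep q)
  let ls : F → X := fun q => el (q, !dep q)
  let nxt : F → F := fun q => (τ (q, !dep q)).1
  have hnxt : ∀ q, τ (q, !dep q) = (nxt q, dep (nxt q)) := by
    intro q
    refine Prod.ext rfl ?_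
    apply huniq
    change c (τ (q, !dep q)) = true
    rw [hc1, harr]
    rfl
  have hnxtinj : Function.Injective nxt := by
    intro q q' h
    have h1 : τ (q, !dep q) = τ (q', !dep q') := by rw [hnxt, hnxt, h]
    exact (Prod.ext_iff.1 (τ.injective h1)).1
  let N : Equiv.Perm F := Equiv.ofBijective nxt (Finite.injective_iff_bijective.1 hnxtinj)
  have hN : ∀ q, N q = nxt q := fun q => rfl
  have hat : ∀ q, at' (nxt q, dep (nxt q)) = at' (q, !dep q) := by
    intro q
    rw [← hnxt, hτ3]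
  have hfs : ∀ q q', q ≠ q' → fs q ≠ fs q' := fun q q' h => helne _ _ h
  have hls : ∀ q q', q ≠ q' → ls q ≠ ls q' := fun q q' h => helne _ _ h
  have hfl : ∀ q q', q ≠ q' → fs q ≠ ls q' := fun q q' h => helne _ _ h
  have hfsinj : Function.Injective fs := by
    intro q q' h
    by_contra hne
    exact hfs q q' hne h
  let β : Equiv.Perm X := N.viaFintypeEmbedding ⟨fs, hfsinj⟩
  have hβ1 : ∀ q, β (fs q) = fs (nxt q) := by
    intro q
    exact Equiv.Perm.viaFintypeEmbedding_apply_image N ⟨fs, hfsinj⟩ q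
  have hβ2 : ∀ x, (∀ q, x ≠ fs q) → β x = x := by
    intro x hx
    apply Equiv.Perm.viaFintypeEmbedding_apply_notMem_range
    rintro ⟨q, hq⟩
    exact hx q hq.symm
  let g : X → X := fun x => if h : ∃ q : F, x = fs q then ls h.choose
    else if h : ∃ q : F, x = ls q then fs h.choose else x
  have hg1 : ∀ q, g (fs q) = ls q := by
    intro q
    have h : ∃ q' : F, fs q = fs q' := ⟨q, rfl⟩
    have h1 : g (fs q) = ls h.choose := dif_pos h
    have h2 : h.choose = q := by
      by_contra hne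
      exact hfs q h.choose (fun h' => hne h'.symm) h.choose_spec
    rw [h1, h2]
  have hg2 : ∀ q, g (ls q) = fs q := by
    intro q
    by_cases h : ∃ q' : F, ls q = fs q'
    · obtain ⟨q', hq'⟩ := h
      have h1 : q' = q := by
        by_contra hne
        exact hfl q' q hne hq'.symm
      subst h1
      rw [hq', hg1, hq']
    · have h' : ∃ q' : F, ls q = ls q' := ⟨q, rfl⟩
      have h1 : g (ls q) = fs h'.choose := by
        change (if h : ∃ q' : F, ls q = fs q' then _ else _) = _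
        rw [dif_neg h, dif_pos h']
      have h2 : h'.choose = q := by
        by_contra hne
        exact hls q h'.choose (fun h => hne h.symm) h'.choose_spec
      rw [h1, h2]
  have hg3 : ∀ x, (∀ q, x ≠ fs q) → (∀ q, x ≠ ls q) → g x = x := by
    intro x h1 h2
    change (if h : ∃ q' : F, x = fs q' then _ else _) = _
    rw [dif_neg (by rintro ⟨q, hq⟩; exact h1 q hq), dif_neg (by rintro ⟨q, hq⟩; exact h2 q hq)]
  have hgi : Function.Involutive g := by
    intro x
    by_cases h1 : ∃ q, x = fs q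
    · obtain ⟨q, rfl⟩ := h1
      rw [hg1, hg2]
    · by_cases h2 : ∃ q, x = ls q
      · obtain ⟨q, rfl⟩ := h2
        rw [hg2, hg1]
      · push Not at h1 h2
        rw [hg3 x h1 h2, hg3 x h1 h2]
  let γ : Equiv.Perm X := hgi.toPerm g
  have hγ : ∀ x, γ x = g x := fun x => rfl
  let σ : Equiv.Perm X := β * γ
  have hσ : ∀ x, σ x = β (g x) := fun x => rfl
  have σ1 : ∀ q, σ (ls q) = fs (nxt q) := by
    intro q
    rw [hσ, hg2, hβ1]
  have σ2 : ∀ q, fs q ≠ ls q → σ (fs q) = ls q := by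
    intro q hne
    rw [hσ, hg1, hβ2]
    intro q' h
    by_cases hq : q' = q
    · subst hq; exact hne h.symm
    · exact hfl q' q hq h.symm
  have σ3 : ∀ x, (∀ q, x ≠ fs q) → (∀ q, x ≠ ls q) → σ x = x := by
    intro x h1 h2
    rw [hσ, hg3 x h1 h2, hβ2 x h1]
  let κ : X → V ⊕ X := fun x => if h : ∃ q : F, x = ls q then
      Sum.inl (at' (h.choose, !dep h.choose))
    else if ∃ q : F, x = fs q then Sum.inr x else Sum.inl (κ0 x)
  have κ1 : ∀ q, κ (ls q) = Sum.inl (at' (q, !dep q)) := by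
    intro q
    have h : ∃ q' : F, ls q = ls q' := ⟨q, rfl⟩
    have h1 : κ (ls q) = Sum.inl (at' (h.choose, !dep h.choose)) := dif_pos h
    have h2 : h.choose = q := by
      by_contra hne
      exact hls q h.choose (fun h' => hne h'.symm) h.choose_spec
    rw [h1, h2]
  have κ2 : ∀ q, fs q ≠ ls q → κ (fs q) = Sum.inr (fs q) := by
    intro q hne
    have h1 : ¬ ∃ q' : F, fs q = ls q' := by
      rintro ⟨q', hq'⟩
      by_cases hq : q = q'
      · subst hq; exact hne hq'
      · exact hfl q q' hq hq'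
    have h2 : ∃ q' : F, fs q = fs q' := ⟨q, rfl⟩
    change (if h : ∃ q' : F, fs q = ls q' then _ else _) = _
    rw [dif_neg h1, if_pos h2]
  have κ3 : ∀ x, (∀ q, x ≠ fs q) → (∀ q, x ≠ ls q) → κ x = Sum.inl (κ0 x) := by
    intro x h1 h2
    change (if h : ∃ q' : F, x = ls q' then _ else _) = _
    rw [dif_neg (by rintro ⟨q, hq⟩; exact h2 q hq), if_neg (by rintro ⟨q, hq⟩; exact h1 q hq)]
  -- case distinction
  have hcases : ∀ x, (∃ q, x = ls q) ∨ (∃ q, x = fs q ∧ fs q ≠ ls q) ∨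
      ((∀ q, x ≠ fs q) ∧ ∀ q, x ≠ ls q) := by
    intro x
    by_cases h2 : ∃ q, x = ls q
    · exact Or.inl h2
    · by_cases h1 : ∃ q, x = fs q
      · obtain ⟨q, rfl⟩ := h1
        exact Or.inr (Or.inl ⟨q, rfl, fun h => h2 ⟨q, h⟩⟩)
      · push Not at h1 h2
        exact Or.inr (Or.inr ⟨h1, h2⟩)
  have hRfl : ∀ q, fs q ≠ ls q → R (fs q) (ls q) := by
    intro q hne
    cases hd : dep q
    · have e1 : fs q = a q := by simp [fs, el, hd]
      have e2 : ls q = b q := by simp [ls, el, hd]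
      rw [e1, e2] at hne ⊢
      exact (hab q).resolve_left hne
    · have e1 : fs q = b q := by simp [fs, el, hd]
      have e2 : ls q = a q := by simp [ls, el, hd]
      rw [e1, e2] at hne ⊢
      exact hR _ _ ((hab q).resolve_left hne.symm)
  refine ⟨κ, σ, ?_, ?_, ?_⟩
  · intro x v hx
    rcases hcases x with ⟨q, rfl⟩ | ⟨q, rfl, hne⟩ | ⟨h1, h2⟩
    · rw [κ1] at hx
      obtain rfl := Sum.inl.inj hx
      refine ⟨hel _, ?_⟩
      rw [σ1, ← hat]
      exact hel _
    · rw [κ2 q hne] at hx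
      exact absurd hx (by simp)
    · rw [κ3 x h1 h2] at hx
      obtain rfl := Sum.inl.inj hx
      rw [σ3 x h1 h2]
      exact ⟨hκ0 x, hκ0 x⟩
  · intro x y hx
    rcases hcases x with ⟨q, rfl⟩ | ⟨q, rfl, hne⟩ | ⟨h1, h2⟩
    · rw [κ1] at hx; exact absurd hx (by simp)
    · rw [κ2 q hne] at hx
      refine ⟨Sum.inr.inj hx, ?_⟩
      rw [σ2 q hne]
      exact hRfl q hne
    · rw [κ3 x h1 h2] at hx; exact absurd hx (by simp)
  · intro P hP hκP hPne
    have hPσ : ∀ x, σ x ∈ P ↔ x ∈ P := by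
      intro x
      refine ⟨fun h => ?_, hP x⟩
      exact perm_closed σ P hP (Equiv.Perm.SameCycle.symm ⟨1, by simp⟩) h
    have hflP : ∀ q, fs q ∈ P ↔ ls q ∈ P := by
      intro q
      by_cases hne : fs q = ls q
      · rw [hne]
      · rw [← σ2 q hne, hPσ]
    let PV : Set V := {v | ∃ x ∈ P, κ x = Sum.inl v}
    have c1 : ∀ x v, κ x = Sum.inl v → (v ∈ PV ↔ x ∈ P) := by
      intro x v hx
      constructor
      · rintro ⟨x', hx', hκ'⟩
        exact hκP x' x (by rw [hκ', hx]) hx'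
      · intro h
        exact ⟨x, h, hx⟩
    have c2 : ∀ q, at' (q, !dep q) ∈ PV ↔ ls q ∈ P := fun q => c1 _ _ (κ1 q)
    have c3 : ∀ q, at' (q, dep q) ∈ PV ↔ fs q ∈ P := by
      intro q
      obtain ⟨q', hq'⟩ := N.surjective q
      rw [hN] at hq'
      rw [← hq', hat, c2, ← σ1, hPσ]
    have c4 : ∀ q ∈ F, s q ∈ PV ↔ t q ∈ PV := by
      intro q hq
      have h2 := c2 ⟨q, hq⟩
      have h3 := c3 ⟨q, hq⟩
      have h4 := hflP ⟨q, hq⟩
      cases hd : dep ⟨q, hq⟩
      · rw [hd] at h2 h3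
        have e1 : at' (⟨q, hq⟩, false) = s q := rfl
        have e2 : at' (⟨q, hq⟩, !false) = t q := rfl
        rw [e2] at h2; rw [e1] at h3
        rw [h2, h3, h4]
      · rw [hd] at h2 h3
        have e1 : at' (⟨q, hq⟩, true) = t q := rfl
        have e2 : at' (⟨q, hq⟩, !true) = s q := rfl
        rw [e2] at h2; rw [e1] at h3
        rw [h2, h3, h4]
    have c5 : PV.Nonempty := by
      obtain ⟨x, hx⟩ := hPne
      rcases hcases x with ⟨q, rfl⟩ | ⟨q, rfl, hne⟩ | ⟨h1, h2⟩
      · exact ⟨_, _, hx, κ1 q⟩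
      · exact ⟨_, _, (hflP q).1 hx, κ1 q⟩
      · exact ⟨_, _, hx, κ3 x h1 h2⟩
    have c6 := hconn PV c4 c5
    have c7 : ∀ v, v ∈ PV := fun v => by rw [c6]; trivial
    ext x
    simp only [Set.mem_univ, iff_true]
    rcases hcases x with ⟨q, rfl⟩ | ⟨q, rfl, hne⟩ | ⟨h1, h2⟩
    · exact (c1 _ _ (κ1 q)).1 (c7 _)
    · exact (hflP q).2 ((c1 _ _ (κ1 q)).1 (c7 _))
    · exact (c1 _ _ (κ3 x h1 h2)).1 (c7 _)

/-- **From links to a cyclic permutation.** -/
theorem cyclic_perm {X V Q : Type*} [Fintype X] [DecidableEq V]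
    (R : X → X → Prop) (hR : ∀ x y, R x y → R y x) (inC : X → V → Prop)
    (hclq : ∀ v x y, inC x v → inC y v → x ≠ y → R x y) (κ0 : X → V)
    (hκ0 : ∀ x, inC x (κ0 x)) (s t : Q → V) (a b : Q → X) (ha : ∀ q, inC (a q) (s q))
    (hb : ∀ q, inC (b q) (t q)) (hab : ∀ q, a q = b q ∨ R (a q) (b q)) (F : Finset Q)
    (hdisj : ∀ q ∈ F, ∀ q' ∈ F, q ≠ q' → a q ≠ a q' ∧ a q ≠ b q' ∧ b q ≠ a q' ∧ b q ≠ b q')
    (heven : ∑ q ∈ F, vec s t q = 0)
    (hconn : ∀ P : Set V, (∀ q ∈ F, s q ∈ P ↔ t q ∈ P) → P.Nonempty → P = Set.univ)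
    (h2 : 2 ≤ Fintype.card X) :
    ∃ σ : Equiv.Perm X, (∀ x, R x (σ x)) ∧ ∀ x y, σ.SameCycle x y := by
  classical
  obtain ⟨κ, σ0, h0⟩ := euler_perm R hR inC κ0 hκ0 s t a b ha hb hab F hdisj heven hconn
  obtain ⟨x0, x1, h01⟩ := Fintype.exists_pair_of_one_lt_card (show 1 < Fintype.card X by omega)
  obtain ⟨σ, hσ, hcyc⟩ := merge_cycles h0 x0
  have hall : ∀ x y, σ.SameCycle x y := fun x y => (hcyc x).symm.trans (hcyc y)
  refine ⟨σ, ?_, hall⟩
  intro x
  have hne : σ x ≠ x := by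
    intro h
    have h3 : ∀ y, σ.SameCycle x y → y = x := by
      rintro y ⟨k, hk⟩
      rw [← hk]
      exact Equiv.Perm.zpow_apply_eq_self_of_apply_eq_self h k
    exact h01 ((h3 x0 (hall x x0)).trans (h3 x1 (hall x x1)).symm)
  rcases hk : κ x with v | y
  · obtain ⟨h3, h4⟩ := hσ.cl x v hk
    exact hclq v x (σ x) h3 h4 hne.symm
  · exact (hσ.lk x y hk).2

end Pool.Agent.H718C
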