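import Pool.Agent.Helper718_cayley.B

/-!
The cut inequality for the links `gH — gcH`: submodularity and invariance under left translations.
-/

namespace Pool.Agent.H718C

open Finset Module

variable {G : Type*} [Group G] [Fintype G] [DecidableEq G] (H : Subgroup G) (C : Finset G)
variable [Fintype (G ⧸ H)] [DecidableEq (G ⧸ H)]

/-- first end of the link `(x, c)` -/
def sv (q : G × C) : G ⧸ H := (q.1 : G ⧸ H)

/-- second end of the link `(x, c)` -/
def tv (q : G × C) : G ⧸ H := ((q.1 * (q.2 : G) : G) : G ⧸ H)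

/-- the unit vector of a coset -/
def uv (x : G) : G ⧸ H → ZMod 2 := Pi.single (x : G ⧸ H) 1

/-- left translation -/
def rho (g : G) : (G ⧸ H → ZMod 2) ≃ₗ[ZMod 2] (G ⧸ H → ZMod 2) :=
  LinearEquiv.funCongrLeft (ZMod 2) (ZMod 2) (MulAction.toPerm g⁻¹)

omit [Fintype G] [DecidableEq G] [Fintype (G ⧸ H)] in
theorem rho_uv (g x : G) : rho H g (uv H x) = uv H (g * x) := by
  ext v
  change (Pi.single (x : G ⧸ H) (1 : ZMod 2) : G ⧸ H → ZMod 2) (g⁻¹ • v) =
    (Pi.single ((g * x : G) : G ⧸ H) 1 : G ⧸ H → ZMod 2) v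
  rw [Pi.single_apply, Pi.single_apply]
  have : (g⁻¹ • v = (x : G ⧸ H)) ↔ v = ((g * x : G) : G ⧸ H) := by
    rw [inv_smul_eq_iff]
    rfl
  simp only [this]

omit [Fintype G] [DecidableEq G] [Fintype (G ⧸ H)] in
theorem uv_add_self (x : G) : uv H x + uv H x = 0 := by
  ext v
  have h2 : ∀ a : ZMod 2, a + a = 0 := by decide
  exact h2 _

omit [Fintype G] [DecidableEq G] [Fintype (G ⧸ H)] in
theorem uv_neg (x : G) : -uv H x = uv H x := by
  rw [neg_eq_iff_add_eq_zero]; exact uv_add_self H x

omit [Fintype G] [DecidableEq G] [Fintype (G ⧸ H)] in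
theorem vec_eq (q : G × C) : vec (sv H C) (tv H C) q = uv H q.1 + uv H (q.1 * q.2) := rfl

/-- the whole cut space -/
def W0 : Submodule (ZMod 2) (G ⧸ H → ZMod 2) := Sp (ZMod 2) (vec (sv H C) (tv H C)) univ

theorem finrank_W0 : finrank (ZMod 2) (W0 H C) + 1 ≤ Fintype.card (G ⧸ H) := by
  have hne : W0 H C < ⊤ := by
    rw [lt_top_iff_ne_top]
    intro h
    let ψ : (G ⧸ H → ZMod 2) →ₗ[ZMod 2] ZMod 2 := ∑ v, LinearMap.proj v
    have hψ : ∀ x, ψ x = ∑ v, x v := by
      intro x
      simp [ψ]
    have h1 : W0 H C ≤ LinearMap.ker ψ := by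
      apply Sp_le
      intro q _
      rw [LinearMap.mem_ker, hψ, vec_eq]
      simp only [uv, Pi.add_apply, sum_add_distrib, sum_pi_single', mem_univ, if_true]
      decide
    have h2 : uv H 1 ∈ LinearMap.ker ψ := h1 (h ▸ Submodule.mem_top)
    rw [LinearMap.mem_ker, hψ] at h2
    simp only [uv, sum_pi_single', mem_univ, if_true] at h2
    exact absurd h2 (by decide)
  have h3 := Submodule.finrank_lt_finrank_of_lt hne
  rw [finrank_top, Module.finrank_fintype_fun_eq_card] at h3
  omega

/-- number of elements of `C` outside `S` -/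
noncomputable def outs (S : Subgroup G) : ℕ := Set.ncard {c : G | c ∈ C ∧ c ∉ S}

/-- number of links whose vector is not in `U` -/
noncomputable def bad (U : Submodule (ZMod 2) (G ⧸ H → ZMod 2)) : ℕ :=
  Set.ncard {q : G × C | vec (sv H C) (tv H C) q ∉ U}

/-- the submodular function -/
noncomputable def phi (M : ℕ) (U : Submodule (ZMod 2) (G ⧸ H → ZMod 2)) : ℕ :=
  bad H C U + M * finrank (ZMod 2) U

omit [DecidableEq G] in
theorem phi_submod (M : ℕ) (U U' : Submodule (ZMod 2) (G ⧸ H → ZMod 2)) :
    phi H C M (U ⊓ U') + phi H C M (U ⊔ U') ≤ phi H C M U + phi H C M U' := by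
  have h1 := Submodule.finrank_sup_add_finrank_inf_eq U U'
  have h2 : bad H C (U ⊓ U') + bad H C (U ⊔ U') ≤ bad H C U + bad H C U' := by
    have e1 : {q : G × C | vec (sv H C) (tv H C) q ∉ U ⊓ U'} =
        {q : G × C | vec (sv H C) (tv H C) q ∉ U} ∪ {q : G × C | vec (sv H C) (tv H C) q ∉ U'} := by
      ext q
      simp only [Set.mem_ofPred_eq, Submodule.mem_inf, Set.mem_union]
      tauto
    have e2 : {q : G × C | vec (sv H C) (tv H C) q ∉ U ⊔ U'} ⊆
        {q : G × C | vec (sv H C) (tv H C) q ∉ U} ∩ {q : G × C | vec (sv H C) (tv H C) q ∉ U'} := by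
      intro q hq
      exact ⟨fun h => hq (Submodule.mem_sup_left h), fun h => hq (Submodule.mem_sup_right h)⟩
    have e3 := Set.ncard_union_add_ncard_inter {q : G × C | vec (sv H C) (tv H C) q ∉ U}
      {q : G × C | vec (sv H C) (tv H C) q ∉ U'}
    have e4 := Set.ncard_le_ncard e2 (Set.toFinite _)
    rw [bad, bad, bad, bad, e1]
    omega
  unfold phi
  have h3 : M * finrank (ZMod 2) ↥(U ⊓ U') + M * finrank (ZMod 2) ↥(U ⊔ U') =
      M * finrank (ZMod 2) U + M * finrank (ZMod 2) U' := by
    rw [← mul_add, ← mul_add, ← h1]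
    ring
  omega

omit [Fintype G] [DecidableEq G] [Fintype (G ⧸ H)] in
theorem rho_vec (g : G) (q : G × C) :
    rho H g (vec (sv H C) (tv H C) q) = vec (sv H C) (tv H C) (g * q.1, q.2) := by
  rw [vec_eq, vec_eq, map_add, rho_uv, rho_uv]
  simp only [mul_assoc]

omit [Fintype (G ⧸ H)] [DecidableEq G] in
theorem W0_map (g : G) : (W0 H C).map (rho H g).toLinearMap ≤ W0 H C := by
  rw [W0, Sp, Submodule.map_span, Submodule.span_le]
  rintro _ ⟨_, ⟨q, -, rfl⟩, rfl⟩
  change rho H g (vec (sv H C) (tv H C) q) ∈ _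
  rw [rho_vec]
  exact mem_Sp (mem_univ _)

omit [DecidableEq G] in
theorem bad_map (g : G) (U : Submodule (ZMod 2) (G ⧸ H → ZMod 2)) :
    bad H C (U.map (rho H g).toLinearMap) ≤ bad H C U := by
  unfold bad
  apply Set.ncard_le_ncard_of_injOn (fun q => (g⁻¹ * q.1, q.2))
  · intro q hq hU
    apply hq
    refine ⟨_, hU, ?_⟩
    change rho H g (vec (sv H C) (tv H C) (g⁻¹ * q.1, q.2)) = _
    rw [rho_vec]
    simp
  · rintro ⟨x, c⟩ - ⟨y, d⟩ - h
    simp only [Prod.mk.injEq, mul_right_inj] at h
    exact Prod.ext h.1 h.2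

omit [DecidableEq G] in
theorem phi_map (M : ℕ) (g : G) (U : Submodule (ZMod 2) (G ⧸ H → ZMod 2)) :
    phi H C M (U.map (rho H g).toLinearMap) ≤ phi H C M U := by
  unfold phi
  have h1 := bad_map H C g U
  have h2 := Submodule.finrank_map_le (rho H g).toLinearMap U
  exact Nat.add_le_add h1 (Nat.mul_le_mul_left _ h2)

/-- the largest minimiser is invariant -/
theorem exists_inv_min (M : ℕ) : ∃ U ≤ W0 H C, (∀ U' ≤ W0 H C, phi H C M U ≤ phi H C M U') ∧
    ∀ g : G, ∀ x ∈ U, rho H g x ∈ U := by
  let T : Set (Submodule (ZMod 2) (G ⧸ H → ZMod 2)) :=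
    {U | U ≤ W0 H C ∧ ∀ U' ≤ W0 H C, phi H C M U ≤ phi H C M U'}
  have hT : T.Nonempty := by
    obtain ⟨U, hU, hmin⟩ := (measure (phi H C M)).wf.has_min {U | U ≤ W0 H C}
      ⟨W0 H C, le_refl (W0 H C)⟩
    exact ⟨U, hU, fun U' hU' => not_lt.1 (hmin U' hU')⟩
  obtain ⟨U, hU, hmax⟩ := (wellFounded_gt : WellFounded (fun a b :
    Submodule (ZMod 2) (G ⧸ H → ZMod 2) => a > b)).has_min T hT
  refine ⟨U, hU.1, hU.2, ?_⟩
  intro g x hx
  have h1 : U.map (rho H g).toLinearMap ≤ W0 H C := (Submodule.map_mono hU.1).trans (W0_map H C g)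
  have h2 := phi_map H C M g U
  have h3 := phi_submod H C M U (U.map (rho H g).toLinearMap)
  have h4 := hU.2 (U ⊓ U.map (rho H g).toLinearMap) (inf_le_left.trans hU.1)
  have h5 : phi H C M (U ⊔ U.map (rho H g).toLinearMap) ≤ phi H C M U := by omega
  have h6 : U ⊔ U.map (rho H g).toLinearMap ∈ T :=
    ⟨sup_le hU.1 h1, fun U' hU' => h5.trans (hU.2 U' hU')⟩
  have h7 : ¬ U < U ⊔ U.map (rho H g).toLinearMap := hmax _ h6
  have h8 : U ⊔ U.map (rho H g).toLinearMap = U := by
    by_contra hne
    exact h7 (lt_of_le_of_ne le_sup_left (Ne.symm hne))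
  rw [← h8]
  exact Submodule.mem_sup_right ⟨x, hx, rfl⟩

/-- **The cut inequality.** -/
theorem cut_ineq (M : ℕ) (hM : ∀ S : Subgroup G, H ≤ S → S ≠ ⊤ →
      M ≤ Nat.card S * outs C S)
    (U' : Submodule (ZMod 2) (G ⧸ H → ZMod 2)) (hU' : U' ≤ W0 H C) :
    M * finrank (ZMod 2) (W0 H C) ≤ bad H C U' + M * finrank (ZMod 2) U' := by
  obtain ⟨U, hU, hmin, hinv⟩ := exists_inv_min H C M
  refine le_trans ?_ (hmin U' hU')
  -- the subgroup
  let S : Subgroup G :=
    { carrier := {g | uv H 1 + uv H g ∈ U}
      mul_mem' := by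
        intro a b ha hb
        have h1 := hinv a _ hb
        rw [map_add, rho_uv, rho_uv, mul_one] at h1
        have h2 := U.add_mem ha h1
        have h3 : uv H 1 + uv H a + (uv H a + uv H (a * b)) = uv H 1 + uv H (a * b) := by
          rw [add_assoc, ← add_assoc (uv H a) (uv H a), uv_add_self, zero_add]
        rw [h3] at h2
        exact h2
      one_mem' := by
        change uv H 1 + uv H 1 ∈ U
        rw [uv_add_self]; exact U.zero_mem
      inv_mem' := by
        intro a ha
        have h1 := hinv a⁻¹ _ ha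
        rw [map_add, rho_uv, rho_uv, mul_one, inv_mul_cancel, add_comm] at h1
        exact h1 }
  have hSmem : ∀ g, g ∈ S ↔ uv H 1 + uv H g ∈ U := fun g => Iff.rfl
  have hHS : H ≤ S := by
    intro h hh
    rw [hSmem]
    have : uv H h = uv H 1 := by
      unfold uv
      congr 1
      exact QuotientGroup.eq.2 (by simpa using H.inv_mem hh)
    rw [this, uv_add_self]
    exact U.zero_mem
  have hvec : ∀ x g : G, uv H x + uv H (x * g) ∈ U ↔ g ∈ S := by
    intro x g
    rw [hSmem]
    constructor
    · intro h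
      have := hinv x⁻¹ _ h
      rwa [map_add, rho_uv, rho_uv, inv_mul_cancel, inv_mul_cancel_left] at this
    · intro h
      have := hinv x _ h
      rwa [map_add, rho_uv, rho_uv, mul_one] at this
  have hbad : bad H C U = Nat.card G * outs C S := by
    unfold bad outs
    have h1 : {q : G × C | vec (sv H C) (tv H C) q ∉ U} =
        Set.univ ×ˢ {c : C | (c : G) ∉ S} := by
      ext ⟨x, c⟩
      simp only [Set.mem_ofPred_eq, Set.mem_prod, Set.mem_univ, true_and]
      rw [vec_eq, hvec]
    rw [h1, Set.ncard_prod, Set.ncard_univ]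
    congr 1
    rw [← Set.ncard_image_of_injective _ Subtype.val_injective]
    congr 1
    ext c
    simp only [Set.mem_image, Set.mem_ofPred_eq, Subtype.exists, exists_and_right,
      exists_eq_right]
    constructor
    · rintro ⟨a, b⟩; exact ⟨a, b⟩
    · rintro ⟨a, b⟩; exact ⟨a, b⟩
  -- dimension bound
  have hdim : Fintype.card (G ⧸ H) ≤ finrank (ZMod 2) U + Nat.card (G ⧸ S) := by
    have h1 := Submodule.finrank_quotient_add_finrank U
    rw [Module.finrank_fintype_fun_eq_card] at h1
    let f : G ⧸ S → (G ⧸ H → ZMod 2) ⧸ U := fun v => U.mkQ (uv H v.out)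
    have hf : ∀ x : G, U.mkQ (uv H x) = f (x : G ⧸ S) := by
      intro x
      have h2 : x⁻¹ * (x : G ⧸ S).out ∈ S := by
        rw [← QuotientGroup.eq, QuotientGroup.out_eq']
      have h3 := (hvec x _).2 h2
      rw [mul_inv_cancel_left] at h3
      simp only [f, Submodule.mkQ_apply]
      rw [Submodule.Quotient.eq, sub_eq_add_neg, uv_neg]
      exact h3
    have h4 : Submodule.span (ZMod 2) (Set.range f) = ⊤ := by
      rw [eq_top_iff]
      rintro y -
      obtain ⟨x, rfl⟩ := U.mkQ_surjective y
      have h5 : x = ∑ v, x v • (Pi.single v 1 : G ⧸ H → ZMod 2) := by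
        ext w
        simp [Finset.sum_apply, Pi.single_apply]
      rw [h5, map_sum]
      apply Submodule.sum_mem
      intro v _
      rw [map_smul]
      apply Submodule.smul_mem
      obtain ⟨g, rfl⟩ := QuotientGroup.mk_surjective v
      have h6 : U.mkQ (Pi.single (g : G ⧸ H) 1) = f (g : G ⧸ S) := hf g
      rw [h6]
      exact Submodule.subset_span ⟨_, rfl⟩
    have h7 : finrank (ZMod 2) ((G ⧸ H → ZMod 2) ⧸ U) ≤ Nat.card (G ⧸ S) := by
      have : Fintype (G ⧸ S) := Fintype.ofFinite _
      rw [Nat.card_eq_fintype_card, ← finrank_top (R := ZMod 2), ← h4]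
      exact finrank_range_le_card f
    omega
  have hW0 := finrank_W0 H C
  unfold phi
  rw [hbad]
  by_cases hS : S = ⊤
  · have h1 : Nat.card (G ⧸ S) = 1 := by
      rw [hS]
      exact Subgroup.index_top
    have h2 : finrank (ZMod 2) (W0 H C) ≤ finrank (ZMod 2) U := by omega
    exact (Nat.mul_le_mul_left _ h2).trans (Nat.le_add_left _ _)
  · have h1 := hM S hHS hS
    have h2 : Nat.card G = Nat.card (G ⧸ S) * Nat.card S := Subgroup.card_eq_card_quotient_mul_card_subgroup S
    have h3 : finrank (ZMod 2) (W0 H C) ≤ finrank (ZMod 2) U + Nat.card (G ⧸ S) := by omega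
    calc M * finrank (ZMod 2) (W0 H C) ≤ M * (finrank (ZMod 2) U + Nat.card (G ⧸ S)) :=
          Nat.mul_le_mul_left _ h3
      _ = Nat.card (G ⧸ S) * M + M * finrank (ZMod 2) U := by ring
      _ ≤ Nat.card (G ⧸ S) * (Nat.card S * outs C S) +
          M * finrank (ZMod 2) U := Nat.add_le_add_right (Nat.mul_le_mul_left _ h1) _
      _ = Nat.card G * outs C S + M * finrank (ZMod 2) U := by
          rw [h2]; ring

omit [Fintype (G ⧸ H)] [DecidableEq (G ⧸ H)] in
/-- irredundant generating sets -/
theorem exists_irred (A : Set G) (hgen : Subgroup.closure A = ⊤) :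
    ∃ C : Finset G, (C : Set G) ⊆ A ∧ Subgroup.closure ((H : Set G) ∪ (C : Set G)) = ⊤ ∧
      (∀ c ∈ C, c ∉ H) ∧ ∀ S : Subgroup G, H ≤ S → S ≠ ⊤ →
        C.card * Nat.card H ≤ Nat.card S * outs C S := by
  classical
  let T : Finset (Finset G) := univ.filter (fun C => (C : Set G) ⊆ A ∧
    Subgroup.closure ((H : Set G) ∪ (C : Set G)) = ⊤)
  have hT : T.Nonempty := by
    refine ⟨A.toFinset, mem_filter.2 ⟨mem_univ _, by simp, ?_⟩⟩
    rw [eq_top_iff, ← hgen]
    apply Subgroup.closure_mono
    simp
  obtain ⟨C, hC, hmin⟩ := exists_min_image T (fun C => C.card) hT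
  obtain ⟨-, hCA, hCgen⟩ := mem_filter.1 hC
  have hirr : ∀ D : Finset G, D ⊆ C → Nat.card H * 2 ^ D.card ≤
      Nat.card (Subgroup.closure ((H : Set G) ∪ (D : Set G))) := by
    intro D
    induction D using Finset.induction with
    | empty =>
      intro _
      simp
    | insert c D hc ih =>
      intro hD
      have hD' : D ⊆ C := (subset_insert _ _).trans hD
      have hcC : c ∈ C := hD (mem_insert_self _ _)
      have ih' := ih hD'
      have hnot : c ∉ Subgroup.closure ((H : Set G) ∪ (D : Set G)) := by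
        intro hmem
        have h1 : Subgroup.closure ((H : Set G) ∪ ((C.erase c : Finset G) : Set G)) = ⊤ := by
          rw [eq_top_iff, ← hCgen, Subgroup.closure_le]
          have hDe : (D : Set G) ⊆ ((C.erase c : Finset G) : Set G) := by
            intro d hd
            rw [mem_coe, mem_erase]
            have hd' : d ∈ D := by exact_mod_cast hd
            refine ⟨?_, hD' hd'⟩
            rintro rfl
            exact hc hd'
          rintro y (hy | hy)
          · exact Subgroup.subset_closure (Or.inl hy)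
          · by_cases hyc : y = c
            · subst hyc
              exact Subgroup.closure_mono (Set.union_subset_union_right _ hDe) hmem
            · exact Subgroup.subset_closure (Or.inr (by
                rw [mem_coe, mem_erase]; exact ⟨hyc, by exact_mod_cast hy⟩))
        have h2 := hmin (C.erase c) (mem_filter.2 ⟨mem_univ _,
          (by
            intro y hy
            exact hCA (by
              have : y ∈ C.erase c := by exact_mod_cast hy
              exact_mod_cast mem_of_mem_erase this)), h1⟩)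
        have h3 := card_erase_lt_of_mem hcC
        omega
      have hle : Subgroup.closure ((H : Set G) ∪ (D : Set G)) ≤
          Subgroup.closure ((H : Set G) ∪ ((insert c D : Finset G) : Set G)) := by
        apply Subgroup.closure_mono
        apply Set.union_subset_union_right
        rw [coe_insert]
        exact Set.subset_insert _ _
      have hmem : c ∈ Subgroup.closure ((H : Set G) ∪ ((insert c D : Finset G) : Set G)) :=
        Subgroup.subset_closure (Or.inr (by simp))
      obtain ⟨m, hm⟩ := Subgroup.card_dvd_of_le hle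
      have hpos : 0 < Nat.card (Subgroup.closure ((H : Set G) ∪ (D : Set G))) := Nat.card_pos
      have hpos' : 0 < Nat.card (Subgroup.closure ((H : Set G) ∪ ((insert c D : Finset G) : Set G))) :=
        Nat.card_pos
      have hm2 : 2 ≤ m := by
        rcases Nat.lt_or_ge m 2 with h | h
        · exfalso
          interval_cases m
          · omega
          · rw [mul_one] at hm
            apply hnot
            have := Subgroup.eq_of_le_of_card_ge hle (le_of_eq hm)
            rw [this]; exact hmem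
        · exact h
      rw [card_insert_of_notMem hc, pow_succ, hm]
      calc Nat.card H * (2 ^ D.card * 2) = (Nat.card H * 2 ^ D.card) * 2 := by ring
        _ ≤ Nat.card (Subgroup.closure ((H : Set G) ∪ (D : Set G))) * m :=
          Nat.mul_le_mul ih' hm2
  refine ⟨C, hCA, hCgen, ?_, ?_⟩
  · intro c hc hcH
    have h1 := hirr {c} (singleton_subset_iff.2 hc)
    have h2 : Subgroup.closure ((H : Set G) ∪ (({c} : Finset G) : Set G)) ≤ H := by
      rw [Subgroup.closure_le]
      rintro y (hy | hy)
      · exact hy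
      · rw [coe_singleton, Set.mem_singleton_iff] at hy
        rw [hy]; exact hcH
    have h3 := Nat.le_of_dvd Nat.card_pos (Subgroup.card_dvd_of_le h2)
    rw [card_singleton, pow_one] at h1
    have h4 : 0 < Nat.card H := Nat.card_pos
    omega
  intro S hHS hS
  set D := C.filter (fun c => c ∈ S) with hDdef
  have h1 := hirr D (filter_subset _ _)
  have h2 : Subgroup.closure ((H : Set G) ∪ (D : Set G)) ≤ S := by
    rw [Subgroup.closure_le]
    rintro y (hy | hy)
    · exact hHS hy
    · have : y ∈ D := by exact_mod_cast hy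
      exact (mem_filter.1 this).2
  have h3 : Nat.card H * 2 ^ D.card ≤ Nat.card S :=
    h1.trans (Nat.le_of_dvd Nat.card_pos (Subgroup.card_dvd_of_le h2))
  have h4' : outs C S = (C.filter (fun c => c ∉ S)).card := by
    unfold outs
    rw [← Set.ncard_coe_finset]
    congr 1
    ext c
    simp
  have h4 : D.card + outs C S = C.card := by
    rw [h4']
    exact card_filter_add_card_filter_not (fun c => c ∈ S)
  have h5 : 0 < outs C S := by
    rw [h4', card_pos]
    by_contra hemp
    rw [not_nonempty_iff_eq_empty, filter_eq_empty_iff] at hemp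
    apply hS
    rw [eq_top_iff, ← hCgen, Subgroup.closure_le]
    rintro y (hy | hy)
    · exact hHS hy
    · have := hemp (show y ∈ C by exact_mod_cast hy)
      simpa using this
  set k := outs C S with hk
  have h6 : D.card + 1 ≤ 2 ^ D.card := Nat.lt_two_pow_self
  have h7 : C.card ≤ 2 ^ D.card * k := by
    calc C.card = D.card + k := h4.symm
      _ ≤ (D.card + 1) * k := by nlinarith
      _ ≤ 2 ^ D.card * k := Nat.mul_le_mul_right _ h6
  calc C.card * Nat.card H ≤ (2 ^ D.card * k) * Nat.card H := Nat.mul_le_mul_right _ h7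
    _ = (Nat.card H * 2 ^ D.card) * k := by ring
    _ ≤ Nat.card S * k := Nat.mul_le_mul_right _ h3

end Pool.Agent.H718C
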