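import Pool.Agent.Helper718_cayley.E

/-!
Links with pairwise disjoint supports for Cayley graphs: a connected even set.
-/

namespace Pool.Agent.H718C

open Finset Module

theorem cut_of_span {V Q : Type*} [Fintype V] [DecidableEq V] (s t : Q → V) (F : Finset Q)
    (h : ∀ q, vec s t q ∈ Sp (ZMod 2) (vec s t) F) (P : Set V)
    (hP : ∀ q ∈ F, s q ∈ P ↔ t q ∈ P) (q : Q) : s q ∈ P ↔ t q ∈ P := by
  classical
  let ψ : (V → ZMod 2) →ₗ[ZMod 2] ZMod 2 := ∑ v ∈ univ.filter (· ∈ P), LinearMap.proj v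
  have hψ : ∀ q, ψ (vec s t q) = (if s q ∈ P then 1 else 0) + (if t q ∈ P then 1 else 0) := by
    intro q
    have h1 : ∀ x, ψ x = ∑ v ∈ univ.filter (· ∈ P), x v := by
      intro x
      simp only [ψ, LinearMap.sum_apply, LinearMap.proj_apply]
    rw [h1]
    simp only [vec, Pi.add_apply, sum_add_distrib, sum_pi_single', mem_filter, mem_univ, true_and]
  have h0 : ∀ q, ψ (vec s t q) = 0 ↔ (s q ∈ P ↔ t q ∈ P) := by
    intro q
    rw [hψ]
    by_cases h1 : s q ∈ P <;> by_cases h2 : t q ∈ P <;> simp [h1, h2]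
    decide
  have h1 : Sp (ZMod 2) (vec s t) F ≤ LinearMap.ker ψ := by
    apply Sp_le
    intro e he
    rw [LinearMap.mem_ker, h0]
    exact hP e he
  rw [← h0]
  exact h1 (h q)

variable {G : Type*} [Group G] [Fintype G] [DecidableEq G]

theorem conn_of_gen (H : Subgroup G) (C : Finset G)
    (hgen : Subgroup.closure ((H : Set G) ∪ (C : Set G)) = ⊤) (P : Set (G ⧸ H))
    (hP : ∀ q : G × C, sv H C q ∈ P ↔ tv H C q ∈ P) (hne : P.Nonempty) : P = Set.univ := by
  let S : Subgroup G :=
    { carrier := {u | ∀ g : G, ((g : G ⧸ H) ∈ P ↔ ((g * u : G) : G ⧸ H) ∈ P)}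
      mul_mem' := by
        intro a b ha hb g
        rw [ha g, hb (g * a), mul_assoc]
      one_mem' := by intro g; rw [mul_one]
      inv_mem' := by
        intro a ha g
        rw [ha (g * a⁻¹), inv_mul_cancel_right] }
  have hS : S = ⊤ := by
    rw [eq_top_iff, ← hgen, Subgroup.closure_le]
    rintro y (hy | hy)
    · intro g
      have : ((g * y : G) : G ⧸ H) = (g : G ⧸ H) := QuotientGroup.mk_mul_of_mem g hy
      rw [this]
    · intro g
      exact hP (g, ⟨y, by exact_mod_cast hy⟩)
  obtain ⟨v, hv⟩ := hne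
  obtain ⟨x, rfl⟩ := QuotientGroup.mk_surjective v
  ext w
  simp only [Set.mem_univ, iff_true]
  obtain ⟨y, rfl⟩ := QuotientGroup.mk_surjective w
  have h1 : x⁻¹ * y ∈ S := by rw [hS]; trivial
  have h2 := (h1 x).1 hv
  rwa [mul_inv_cancel_left] at h2

/-- counting the links through a set of elements -/
theorem ncard_meet (C : Finset G) (U : Finset G) :
    Set.ncard {a : G × C | ¬ Disjoint ({a.1, a.1 * a.2} : Finset G) U} ≤ 2 * C.card * U.card := by
  classical
  have h1 : {a : G × C | ¬ Disjoint ({a.1, a.1 * a.2} : Finset G) U} ⊆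
      (((U ×ˢ (univ : Finset C)).image (fun p => (p.1, p.2)) ∪
      (U ×ˢ (univ : Finset C)).image (fun p => (p.1 * (p.2 : G)⁻¹, p.2)) : Finset (G × C)) :
        Set (G × C)) := by
    rintro ⟨x, c⟩ h
    simp only [Set.mem_ofPred_eq, disjoint_insert_left, disjoint_singleton_left, not_and_or,
      not_not] at h
    rw [mem_coe, mem_union, mem_image, mem_image]
    rcases h with h | h
    · exact Or.inl ⟨(x, c), mem_product.2 ⟨h, mem_univ _⟩, rfl⟩
    · refine Or.inr ⟨(x * c, c), mem_product.2 ⟨h, mem_univ _⟩, ?_⟩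
      simp
  refine (Set.ncard_le_ncard h1 (Set.toFinite _)).trans ?_
  rw [Set.ncard_coe_finset]
  refine (card_union_le _ _).trans ?_
  refine (Nat.add_le_add card_image_le card_image_le).trans ?_
  rw [card_product, card_univ, Fintype.card_coe]
  apply le_of_eq
  ring

omit [Fintype G] in
theorem card_union3 {Z : Type*} (S : Z → Finset G) (hS : ∀ z, (S z).card ≤ 2) (z0 : Z)
    (B : Finset Z) (hB : B.Nonempty) (h : ∀ b ∈ B, ¬ Disjoint (S z0) (S b)) :
    (S z0 ∪ B.biUnion S).card ≤ 3 * B.card := by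
  classical
  have h1 : S z0 ∪ B.biUnion S = S z0 ∪ B.biUnion (fun b => S b \ S z0) := by
    ext x
    simp only [mem_union, mem_biUnion, mem_sdiff]
    constructor
    · rintro (h | ⟨b, hb, hx⟩)
      · exact Or.inl h
      · by_cases h0 : x ∈ S z0
        · exact Or.inl h0
        · exact Or.inr ⟨b, hb, hx, h0⟩
    · rintro (h | ⟨b, hb, hx, -⟩)
      · exact Or.inl h
      · exact Or.inr ⟨b, hb, hx⟩
  have h2 : (B.biUnion (fun b => S b \ S z0)).card ≤ B.card * 1 := by
    apply card_biUnion_le_card_mul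
    intro b hb
    have h3 := h b hb
    rw [not_disjoint_iff] at h3
    obtain ⟨x, hx0, hxb⟩ := h3
    have h4 : (S b \ S z0).card < (S b).card :=
      card_lt_card ⟨sdiff_subset, fun h => (mem_sdiff.1 (h hxb)).2 hx0⟩
    have := hS b
    omega
  have h5 := card_pos.2 hB
  rw [h1]
  refine (card_union_le _ _).trans ?_
  have := hS z0
  omega

/-- the set of links: subgroups of order at least twelve -/
theorem exists_links (A : Set G) (hgen : Subgroup.closure A = ⊤) (H : Subgroup G)
    [Fintype (G ⧸ H)] [DecidableEq (G ⧸ H)] (h12 : 12 ≤ Nat.card H) :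
    ∃ (C : Finset G), (C : Set G) ⊆ A ∧ ∃ (F : Finset (G × C)),
      (∀ q ∈ F, ∀ q' ∈ F, q ≠ q' →
        Disjoint ({q.1, q.1 * q.2} : Finset G) {q'.1, q'.1 * q'.2}) ∧
      ∑ q ∈ F, vec (sv H C) (tv H C) q = 0 ∧
      ∀ P : Set (G ⧸ H), (∀ q ∈ F, sv H C q ∈ P ↔ tv H C q ∈ P) → P.Nonempty → P = Set.univ := by
  classical
  obtain ⟨C, hCA, hCgen, -, hC⟩ := exists_irred H A hgen
  refine ⟨C, hCA, ?_⟩
  rcases Nat.eq_zero_or_pos C.card with h0 | h0
  · refine ⟨∅, by simp, by simp, fun P _ hne => conn_of_gen H C hCgen P ?_ hne⟩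
    rintro ⟨x, c, hc⟩
    rw [card_eq_zero] at h0
    rw [h0] at hc
    simp at hc
  · obtain ⟨F, hF1, hF2, hF3, -⟩ := two_trees (sv H C) (tv H C) (fun q : G × C => q)
      (fun q => ({q.1, q.1 * q.2} : Finset G)) (6 * C.card) (by omega)
      (fun a => ⟨a.1, by simp⟩) (by
        intro U hU
        have h1 := cut_ineq H C (12 * C.card) (by
          intro S hHS hS
          refine le_trans ?_ (hC S hHS hS)
          rw [mul_comm]
          exact Nat.mul_le_mul_left _ h12) U hU
        have h2 : {a : G × C | ∃ q, q = a ∧ vec (sv H C) (tv H C) q ∉ U} =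
            {q : G × C | vec (sv H C) (tv H C) q ∉ U} := by
          ext a
          simp
        rw [h2, show 2 * (6 * C.card) = 12 * C.card by ring]
        exact h1) (by
        intro z0 B hB hmeet _
        have h1 := card_union3 (fun q : G × C => ({q.1, q.1 * q.2} : Finset G))
          (fun z => card_le_two) z0 B hB hmeet
        refine (ncard_meet C _).trans ?_
        calc 2 * C.card * _ ≤ 2 * C.card * (3 * B.card) := Nat.mul_le_mul_left _ h1
          _ = 6 * C.card * B.card := by ring)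
    refine ⟨F, hF1, hF2, fun P hP hne => conn_of_gen H C hCgen P ?_ hne⟩
    exact cut_of_span _ _ F hF3 P hP

end Pool.Agent.H718C
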