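import Pool.Agent.Helper718_cayley.C

/-!
Permutations as oriented 2-factors: orientation of a pairing of half-edges, reversal of a cycle,
switching two edges of different cycles; phases along the cycles of a permutation.
-/

namespace Pool.Agent.H718C

open Finset

/-- the step of `σ` between `x` and `y`, in one of the two directions -/
def Und {X : Type*} (σ : Equiv.Perm X) (x y : X) : Prop := σ x = y ∨ σ y = x

theorem Und.sameCycle {X : Type*} {σ : Equiv.Perm X} {x y : X} (h : Und σ x y) :
    σ.SameCycle x y := by
  rcases h with h | h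
  · exact ⟨1, by simpa using h⟩
  · exact Equiv.Perm.SameCycle.symm ⟨1, by simpa using h⟩

theorem Und.symm {X : Type*} {σ : Equiv.Perm X} {x y : X} (h : Und σ x y) : Und σ y x := Or.symm h

/-- orienting a 2-factor given by a pairing of half-edges -/
theorem perm_of_invol {X : Type*} [Finite X] (ε : Equiv.Perm (X × Bool)) (h1 : ε * ε = 1)
    (h2 : ∀ y, ε y ≠ y) :
    ∃ σ : Equiv.Perm X, (∀ x β, Und σ x (ε (x, β)).1) ∧ ∀ x, ∃ β, σ x = (ε (x, β)).1 := by
  classical
  let τ : Equiv.Perm (X × Bool) := Equiv.prodCongr (Equiv.refl _) Equiv.boolNot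
  have hτ0 : ∀ q β, τ (q, β) = (q, !β) := fun q β => rfl
  have hτ1 : τ * τ = 1 := by
    ext ⟨q, β⟩ <;> simp [τ]
  have hτ2 : ∀ y, τ y ≠ y := by
    rintro ⟨q, β⟩
    simp [τ]
  have hεε : ∀ y, ε (ε y) = y := fun y => by
    rw [← Equiv.Perm.mul_apply, h1, Equiv.Perm.one_apply]
  obtain ⟨c, hc1, hc2⟩ := two_colour τ ε hτ1 h1 hτ2 h2
  let out : X → Bool := fun q => c (q, true)
  have hout : ∀ q, c (q, out q) = true := by
    intro q
    cases h : c (q, true)
    · have h3 : out q = false := h
      rw [h3]
      have := hc1 (q, true)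
      rw [hτ0, h] at this
      simpa using this
    · have h3 : out q = true := h
      rw [h3, h]
  have hin : ∀ q, c (q, !out q) = false := by
    intro q
    have := hc1 (q, out q)
    rw [hτ0, hout] at this
    simpa using this
  have hb : ∀ x y : Bool, x ≠ y → x = !y := by decide
  have huniq : ∀ q β, c (q, β) = true → β = out q := by
    intro q β h
    by_contra hne
    rw [hb _ _ hne, hin] at h
    exact absurd h (by simp)
  have huniq' : ∀ q β, c (q, β) = false → β = !out q := by
    intro q β h
    by_contra hne
    have h3 := hb _ _ hne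
    rw [Bool.not_not] at h3
    rw [h3, hout] at h
    exact absurd h (by simp)
  let f : X → X := fun x => (ε (x, out x)).1
  have hf : ∀ x, ε (x, out x) = (f x, !out (f x)) := by
    intro x
    refine Prod.ext rfl ?_
    apply huniq'
    change c (ε (x, out x)) = false
    rw [hc2, hout]
    rfl
  have hinj : Function.Injective f := by
    intro x x' h
    have h3 : ε (x, out x) = ε (x', out x') := by rw [hf, hf, h]
    exact (Prod.ext_iff.1 (ε.injective h3)).1
  let σ : Equiv.Perm X := Equiv.ofBijective f (Finite.injective_iff_bijective.1 hinj)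
  have hσ : ∀ x, σ x = f x := fun x => rfl
  refine ⟨σ, ?_, fun x => ⟨out x, rfl⟩⟩
  intro x β
  by_cases h : β = out x
  · left
    rw [h]
    rfl
  · right
    have h3 := hb _ _ h
    have h4 : c (ε (x, β)) = true := by
      rw [hc2, h3, hin]
      rfl
    have h5 : ε (x, β) = ((ε (x, β)).1, out (ε (x, β)).1) := by
      refine Prod.ext rfl ?_
      exact huniq _ _ h4
    rw [hσ]
    change (ε ((ε (x, β)).1, out (ε (x, β)).1)).1 = x
    rw [← h5, hεε]

/-- if each step of `σ` stays in a cycle of `τ`, then the cycles of `σ` do -/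
theorem mono_of_step {X : Type*} [Finite X] {σ τ : Equiv.Perm X}
    (h : ∀ x, τ.SameCycle x (σ x)) {x y : X} (hxy : σ.SameCycle x y) : τ.SameCycle x y :=
  perm_closed σ {y | τ.SameCycle x y} (fun z (hz : τ.SameCycle x z) => hz.trans (h z)) hxy
    (Equiv.Perm.SameCycle.refl _ _)

/-- reversing the cycle of `z` -/
theorem exists_reverse {X : Type*} [Finite X] (σ : Equiv.Perm X) (z : X) :
    ∃ σ' : Equiv.Perm X, (∀ x y, Und σ' x y ↔ Und σ x y) ∧
      (∀ x y, σ'.SameCycle x y ↔ σ.SameCycle x y) ∧
      (∀ x, σ.SameCycle z x → σ' x = σ⁻¹ x) ∧ ∀ x, ¬ σ.SameCycle z x → σ' x = σ x := by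
  classical
  have c1 : ∀ x, σ.SameCycle z x → σ.SameCycle z (σ⁻¹ x) := fun x h =>
    h.trans (Equiv.Perm.SameCycle.symm ⟨1, by simp⟩)
  have c2 : ∀ x, σ.SameCycle z x → σ.SameCycle z (σ x) := fun x h => h.trans ⟨1, by simp⟩
  have c3 : ∀ x, σ.SameCycle z (σ x) → σ.SameCycle z x := fun x h => by
    have := c1 _ h
    simpa using this
  have c4 : ∀ x, σ.SameCycle z (σ⁻¹ x) → σ.SameCycle z x := fun x h => by
    have := c2 _ h
    simpa using this
  let σ' : Equiv.Perm X :=
    { toFun := fun x => if σ.SameCycle z x then σ⁻¹ x else σ x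
      invFun := fun x => if σ.SameCycle z x then σ x else σ⁻¹ x
      left_inv := by
        intro x
        by_cases h : σ.SameCycle z x
        · simp [h, c1 x h]
        · simp only [h, if_false]
          rw [if_neg (fun h' => h (c3 x h'))]
          simp
      right_inv := by
        intro x
        by_cases h : σ.SameCycle z x
        · simp [h, c2 x h]
        · simp only [h, if_false]
          rw [if_neg (fun h' => h (c4 x h'))]
          simp }
  have e1 : ∀ x, σ.SameCycle z x → σ' x = σ⁻¹ x := fun x h => if_pos h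
  have e2 : ∀ x, ¬ σ.SameCycle z x → σ' x = σ x := fun x h => if_neg h
  have hU : ∀ x y, Und σ' x y ↔ Und σ x y := by
    have key : ∀ x y, σ' x = y → Und σ x y := by
      intro x y h
      by_cases hz : σ.SameCycle z x
      · rw [e1 x hz] at h
        right
        rw [← h]; simp
      · rw [e2 x hz] at h
        exact Or.inl h
    have key' : ∀ x y, σ x = y → Und σ' x y := by
      intro x y h
      by_cases hz : σ.SameCycle z x
      · right
        rw [← h, e1 _ (c2 x hz)]
        simp
      · left
        rw [e2 x hz]; exact h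
    intro x y
    constructor
    · rintro (h | h)
      · exact key x y h
      · exact (key y x h).symm
    · rintro (h | h)
      · exact key' x y h
      · exact (key' y x h).symm
  refine ⟨σ', hU, ?_, e1, e2⟩
  intro x y
  constructor
  · exact mono_of_step (fun x => ((hU x (σ' x)).1 (Or.inl rfl)).sameCycle)
  · exact mono_of_step (fun x => ((hU x (σ x)).2 (Or.inl rfl)).sameCycle)

/-- merging two cycles of a permutation -/
theorem merge_two {X : Type*} [Finite X] [DecidableEq X] (σ : Equiv.Perm X) (g g' : X)
    (h : ¬ σ.SameCycle g g') :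
    (σ * Equiv.swap g g').SameCycle g g' ∧
      ∀ x y, σ.SameCycle x y → (σ * Equiv.swap g g').SameCycle x y := by
  set σ2 := σ * Equiv.swap g g' with hσ2
  have s1 : σ2 g = σ g' := by simp [σ2]
  have s2 : σ2 g' = σ g := by simp [σ2]
  have s3 : ∀ x, x ≠ g → x ≠ g' → σ2 x = σ x := by
    intro x hx hx'
    simp [σ2, Equiv.swap_apply_of_ne_of_ne hx hx']
  have main : σ2.SameCycle g g' := by
    by_contra hn
    have q3 : ∀ x ∈ {x | σ2.SameCycle g x} ∩ {x | σ.SameCycle g' x},
        σ x ∈ {x | σ2.SameCycle g x} ∩ {x | σ.SameCycle g' x} := by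
      rintro x ⟨hx1, hx2⟩
      have hxg : x ≠ g := by
        rintro rfl
        exact h (Equiv.Perm.SameCycle.symm hx2)
      have hxg' : x ≠ g' := by
        rintro rfl
        exact hn hx1
      refine ⟨?_, Equiv.Perm.SameCycle.trans hx2 ⟨1, by simp⟩⟩
      rw [← s3 x hxg hxg']
      exact Equiv.Perm.SameCycle.trans hx1 ⟨1, by simp⟩
    have q4 : σ g' ∈ {x | σ2.SameCycle g x} ∩ {x | σ.SameCycle g' x} := by
      refine ⟨?_, ⟨1, by simp⟩⟩
      rw [← s1]
      exact ⟨1, by simp⟩
    have q5 := perm_closed σ _ q3 (x := σ g') (y := g')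
      (Equiv.Perm.SameCycle.symm ⟨1, by simp⟩) q4
    exact hn q5.1
  refine ⟨main, fun x y hxy => mono_of_step ?_ hxy⟩
  intro x
  by_cases hxg : x = g
  · subst hxg
    rw [← s2]
    exact main.trans ⟨1, by simp⟩
  · by_cases hxg' : x = g'
    · subst hxg'
      rw [← s1]
      exact main.symm.trans ⟨1, by simp⟩
    · rw [← s3 x hxg hxg']
      exact ⟨1, by simp⟩

/-- switching two edges of different cycles -/
theorem exists_switch {X : Type*} [Finite X] (σ : Equiv.Perm X) {p q p' q' : X}
    (h1 : Und σ p q) (h2 : Und σ p' q') (h : ¬ σ.SameCycle p p') :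
    ∃ σ' : Equiv.Perm X,
      (∀ x y, Und σ' x y → Und σ x y ∨ (x = p ∧ y = p') ∨ (x = p' ∧ y = p) ∨ (x = q ∧ y = q') ∨
        (x = q' ∧ y = q)) ∧
      (∀ x y, Und σ x y → ¬ (x = p ∧ y = q) → ¬ (x = q ∧ y = p) → ¬ (x = p' ∧ y = q') →
        ¬ (x = q' ∧ y = p') → Und σ' x y) ∧
      (∀ x y, σ.SameCycle x y → σ'.SameCycle x y) ∧ σ'.SameCycle p p' := by
  classical
  -- orient
  obtain ⟨σ1, a1, a2, a3⟩ : ∃ σ1 : Equiv.Perm X, (∀ x y, Und σ1 x y ↔ Und σ x y) ∧
      (∀ x y, σ1.SameCycle x y ↔ σ.SameCycle x y) ∧ σ1 p = q := by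
    rcases h1 with h1 | h1
    · exact ⟨σ, fun x y => Iff.rfl, fun x y => Iff.rfl, h1⟩
    · obtain ⟨σ', b1, b2, b3, b4⟩ := exists_reverse σ p
      refine ⟨σ', b1, b2, ?_⟩
      rw [b3 p (Equiv.Perm.SameCycle.refl _ _), Equiv.Perm.inv_eq_iff_eq]
      exact h1.symm
  obtain ⟨σ2, c1, c2, c3, c4⟩ : ∃ σ2 : Equiv.Perm X, (∀ x y, Und σ2 x y ↔ Und σ x y) ∧
      (∀ x y, σ2.SameCycle x y ↔ σ.SameCycle x y) ∧ σ2 p = q ∧ σ2 q' = p' := by
    rcases (a1 p' q').2 h2 with h2 | h2
    · obtain ⟨σ', b1, b2, b3, b4⟩ := exists_reverse σ1 p'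
      refine ⟨σ', fun x y => (b1 x y).trans (a1 x y), fun x y => (b2 x y).trans (a2 x y), ?_, ?_⟩
      · rw [b4 p, a3]
        intro hs
        exact h ((a2 _ _).1 hs.symm)
      · rw [b3 q', Equiv.Perm.inv_eq_iff_eq]
        · exact h2.symm
        · exact ⟨1, by simpa using h2⟩
    · exact ⟨σ1, a1, a2, a3, h2⟩
  have hpq' : ¬ σ2.SameCycle p q' := by
    intro hs
    apply h
    rw [← c2]
    exact hs.trans ⟨1, by simpa using c4⟩
  obtain ⟨m1, m2⟩ := merge_two σ2 p q' hpq'
  have hne : p ≠ q' := by
    rintro rfl
    exact hpq' (Equiv.Perm.SameCycle.refl _ _)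
  set σ3 := σ2 * Equiv.swap p q' with hσ3
  have s1 : σ3 p = p' := by simp [σ3, c4]
  have s2 : σ3 q' = q := by simp [σ3, c3]
  have s3 : ∀ x, x ≠ p → x ≠ q' → σ3 x = σ2 x := by
    intro x hx hx'
    simp [σ3, Equiv.swap_apply_of_ne_of_ne hx hx']
  refine ⟨σ3, ?_, ?_, fun x y hxy => m2 x y ((c2 x y).2 hxy), ⟨1, by simpa using s1⟩⟩
  · have key : ∀ x y, σ3 x = y → Und σ x y ∨ (x = p ∧ y = p') ∨ (x = q' ∧ y = q) := by
      intro x y hxy
      by_cases hxp : x = p
      · subst hxp
        exact Or.inr (Or.inl ⟨rfl, by rw [← hxy, s1]⟩)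
      · by_cases hxq : x = q'
        · subst hxq
          exact Or.inr (Or.inr ⟨rfl, by rw [← hxy, s2]⟩)
        · left
          rw [s3 x hxp hxq] at hxy
          exact (c1 x y).1 (Or.inl hxy)
    rintro x y (hxy | hxy)
    · rcases key x y hxy with h | h | h
      · exact Or.inl h
      · exact Or.inr (Or.inl h)
      · exact Or.inr (Or.inr (Or.inr (Or.inr h)))
    · rcases key y x hxy with h | h | h
      · exact Or.inl h.symm
      · exact Or.inr (Or.inr (Or.inl ⟨h.2, h.1⟩))
      · exact Or.inr (Or.inr (Or.inr (Or.inl ⟨h.2, h.1⟩)))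
  · have key : ∀ x y, σ2 x = y → ¬ (x = p ∧ y = q) → ¬ (x = q' ∧ y = p') → Und σ3 x y := by
      intro x y hxy n1 n2
      have hxp : x ≠ p := by
        rintro rfl
        exact n1 ⟨rfl, by rw [← hxy, c3]⟩
      have hxq : x ≠ q' := by
        rintro rfl
        exact n2 ⟨rfl, by rw [← hxy, c4]⟩
      left
      rw [s3 x hxp hxq]; exact hxy
    intro x y hxy n1 n2 n3 n4
    rcases (c1 x y).2 hxy with hxy | hxy
    · exact key x y hxy n1 n4
    · exact (key y x hxy (fun h => n2 ⟨h.2, h.1⟩) (fun h => n3 ⟨h.2, h.1⟩)).symm

/-- phases along the cycles: the phase changes exactly at the points of `T` -/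
theorem exists_phase {X : Type*} [Fintype X] [DecidableEq X] (π : Equiv.Perm X) (T : Finset X)
    (hT : ∀ x, Even (Set.ncard {t | t ∈ T ∧ π.SameCycle x t})) :
    ∃ D : X → Bool, (∀ x, D (π x) ≠ D x ↔ π x ∈ T) ∧
      ∀ x, (∀ t ∈ T, ¬ π.SameCycle x t) → D x = false := by
  classical
  induction hn : T.card using Nat.strong_induction_on generalizing T with
  | _ n ih =>
    rcases T.eq_empty_or_nonempty with rfl | ⟨t, ht⟩
    · exact ⟨fun _ => false, by simp, fun _ _ => rfl⟩
    · -- a second point in the cycle
      have h1 := hT t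
      obtain ⟨t', ht', hne, hcyc⟩ : ∃ t' ∈ T, t' ≠ t ∧ π.SameCycle t t' := by
        by_contra hcon
        push Not at hcon
        have : {t' | t' ∈ T ∧ π.SameCycle t t'} = {t} := by
          ext t'
          simp only [Set.mem_ofPred_eq, Set.mem_singleton_iff]
          constructor
          · rintro ⟨a, b⟩
            by_contra hne
            exact hcon t' a hne b
          · rintro rfl
            exact ⟨ht, Equiv.Perm.SameCycle.refl _ _⟩
        rw [this, Set.ncard_singleton] at h1
        exact absurd h1 (by decide)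
      set T' := (T.erase t).erase t' with hT'
      have hmem : ∀ z, z ∈ T' ↔ z ∈ T ∧ z ≠ t ∧ z ≠ t' := by
        intro z
        simp only [T', mem_erase]
        tauto
      have hcard : T'.card < n := by
        rw [← hn]
        exact (card_erase_le).trans_lt (card_erase_lt_of_mem ht)
      obtain ⟨D0, hD1, hD2⟩ := ih T'.card hcard T' (by
        intro x
        by_cases hx : π.SameCycle x t
        · have e1 : {z | z ∈ T ∧ π.SameCycle x z} =
              insert t (insert t' {z | z ∈ T' ∧ π.SameCycle x z}) := by
            ext z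
            simp only [Set.mem_ofPred_eq, Set.mem_insert_iff, hmem]
            constructor
            · rintro ⟨a, b⟩
              by_cases z1 : z = t
              · exact Or.inl z1
              · by_cases z2 : z = t'
                · exact Or.inr (Or.inl z2)
                · exact Or.inr (Or.inr ⟨⟨a, z1, z2⟩, b⟩)
            · rintro (rfl | rfl | ⟨a, b⟩)
              · exact ⟨ht, hx⟩
              · exact ⟨ht', hx.trans hcyc⟩
              · exact ⟨a.1, b⟩
          have e2 := hT x
          rw [e1, Set.ncard_insert_of_notMem, Set.ncard_insert_of_notMem] at e2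
          · rw [add_assoc] at e2
            exact (Nat.even_add.1 e2).2 (by decide)
          · intro h
            exact ((hmem t').1 h.1).2.2 rfl
          · rintro (h | h)
            · exact hne h.symm
            · exact ((hmem t).1 h.1).2.1 rfl
        · have e1 : {z | z ∈ T' ∧ π.SameCycle x z} = {z | z ∈ T ∧ π.SameCycle x z} := by
            ext z
            simp only [Set.mem_ofPred_eq, hmem]
            constructor
            · rintro ⟨a, b⟩
              exact ⟨a.1, b⟩
            · rintro ⟨a, b⟩
              refine ⟨⟨a, ?_, ?_⟩, b⟩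
              · rintro rfl; exact hx b
              · rintro rfl; exact hx (b.trans hcyc.symm)
          rw [e1]
          exact hT x) rfl
      -- the arc from `t` to `t'`
      have hex : ∃ m : ℕ, (π ^ m) t = t' := by
        obtain ⟨m, -, hm⟩ := hcyc.exists_pow_eq'
        exact ⟨m, hm⟩
      set m := Nat.find hex with hm
      have hm1 : (π ^ m) t = t' := Nat.find_spec hex
      have hm2 : ∀ j < m, (π ^ j) t ≠ t' := fun j hj => Nat.find_min hex hj
      let arc : Set X := {x | ∃ j < m, (π ^ j) t = x}
      have hm0 : 0 < m := by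
        rw [Nat.pos_iff_ne_zero]
        intro h0
        rw [h0, pow_zero, Equiv.Perm.one_apply] at hm1
        exact hne hm1.symm
      have ht'arc : t' ∉ arc := by
        rintro ⟨j, hj, h⟩
        exact hm2 j hj h
      have htarc : t ∈ arc := ⟨0, hm0, by simp⟩
      -- how membership changes
      have a1 : ∀ x, x ∈ arc → (π x ∈ arc ↔ π x ≠ t') := by
        rintro x ⟨j, hj, rfl⟩
        constructor
        · rintro h h'
          rw [h'] at h
          exact ht'arc h
        · intro h
          refine ⟨j + 1, ?_, by rw [pow_succ', Equiv.Perm.mul_apply]⟩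
          by_contra hge
          have : j + 1 = m := by omega
          apply h
          rw [← hm1, ← this, pow_succ', Equiv.Perm.mul_apply]
      have a2 : ∀ x, x ∉ arc → (π x ∈ arc ↔ π x = t) := by
        intro x hx
        constructor
        · rintro ⟨j, hj, h⟩
          rcases Nat.eq_zero_or_pos j with h0 | h0
          · rw [h0, pow_zero, Equiv.Perm.one_apply] at h
            exact h.symm
          · exfalso
            apply hx
            refine ⟨j - 1, by omega, ?_⟩
            apply π.injective
            rw [← h, ← Equiv.Perm.mul_apply, ← pow_succ']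
            congr 2
            omega
        · intro h
          rw [h]; exact htarc
      have a3 : ∀ x, x ∈ arc → π x ≠ t' → π x ≠ t := by
        rintro x ⟨j, hj, rfl⟩ h1 h2
        -- then the cycle of t has length j+1 < m+1, and t' is not in it
        have h3 : (π ^ (j + 1)) t = t := by rw [pow_succ', Equiv.Perm.mul_apply]; exact h2
        have h4 : (π ^ (m % (j + 1))) t = t' := by
          rw [← hm1]
          conv_rhs => rw [← Nat.div_add_mod m (j + 1), add_comm, pow_add, pow_mul,
            Equiv.Perm.mul_apply]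
          congr 1
          exact (Equiv.Perm.pow_apply_eq_self_of_apply_eq_self h3 _).symm
        have h5 : m % (j + 1) < j + 1 := Nat.mod_lt _ (by omega)
        exact hm2 _ (by omega) h4
      refine ⟨fun x => if x ∈ arc then !D0 x else D0 x, ?_, ?_⟩
      · intro x
        have hd := hD1 x
        rw [hmem] at hd
        by_cases hx : x ∈ arc
        · by_cases hx' : π x = t'
          · have h3 : π x ∉ arc := by rw [hx']; exact ht'arc
            simp only [hx, h3, if_true, if_false]
            have h4 : ¬ (D0 (π x) ≠ D0 x) := fun h => (hd.1 h).2.2 hx'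
            constructor
            · intro _
              rw [hx']; exact ht'
            · intro _
              rw [not_not] at h4
              rw [h4]
              cases D0 x <;> simp
          · have h3 : π x ∈ arc := (a1 x hx).2 hx'
            have h4 := a3 x hx hx'
            simp only [hx, h3, if_true]
            rw [show (!D0 (π x)) ≠ (!D0 x) ↔ D0 (π x) ≠ D0 x by
              cases D0 (π x) <;> cases D0 x <;> simp, hd]
            tauto
        · by_cases hx' : π x = t
          · have h3 : π x ∈ arc := by rw [hx']; exact htarc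
            simp only [hx, h3, if_true, if_false]
            have h4 : ¬ (D0 (π x) ≠ D0 x) := fun h => (hd.1 h).2.1 hx'
            constructor
            · intro _
              rw [hx']; exact ht
            · intro _
              rw [not_not] at h4
              rw [h4]
              cases D0 x <;> simp
          · have h3 : π x ∉ arc := fun h => hx' ((a2 x hx).1 h)
            simp only [hx, h3, if_false]
            rw [hd]
            have h4 : π x ≠ t' := by
              intro h
              -- the predecessor of t' is in the arc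
              apply hx
              refine ⟨m - 1, by omega, ?_⟩
              apply π.injective
              rw [h, ← hm1, ← Equiv.Perm.mul_apply, ← pow_succ']
              congr 2
              omega
            tauto
      · intro x hx
        have h3 : x ∉ arc := by
          rintro ⟨j, hj, h⟩
          exact hx t ht (Equiv.Perm.SameCycle.symm ⟨j, by simpa using h⟩)
        simp only [h3, if_false]
        exact hD2 x (fun z hz => hx z ((hmem z).1 hz).1)

end Pool.Agent.H718C
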