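import Pool.Agent.Helper718_cayley.F

/-!
Links with pairwise separated ends: the ends of different links are neither equal nor neighbours
with respect to a given permutation.
-/

namespace Pool.Agent.H718C

open Finset Module

variable {G : Type*} [Group G] [Fintype G] [DecidableEq G]

/-- the ends of a link and their successors -/
def Sp2 (π : Equiv.Perm G) {C : Finset G} (q : G × C) : Finset G :=
  {q.1, π q.1, q.1 * q.2, π (q.1 * q.2)}

/-- the elements whose successor interval meets that of the link -/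
def Mp2 (π : Equiv.Perm G) {C : Finset G} (q : G × C) : Finset G :=
  {π.symm q.1, q.1, π q.1, π.symm (q.1 * q.2), q.1 * q.2, π (q.1 * q.2)}

theorem card_Mp2 (π : Equiv.Perm G) {C : Finset G} (q : G × C) : (Mp2 π q).card ≤ 6 := card_le_six

theorem card_Mp2_sdiff (π : Equiv.Perm G) (hπ : ∀ x, π x ≠ x) {C : Finset G} (q b : G × C)
    (h : ¬ Disjoint (Sp2 π q) (Sp2 π b)) : (Mp2 π b \ Mp2 π q).card ≤ 4 := by
  -- an end `u` of `b` and an end `w` of `q` whose intervals meet
  have h1 : ∃ u, (u = b.1 ∨ u = b.1 * b.2) ∧ ∃ w, (w = q.1 ∨ w = q.1 * q.2) ∧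
      (u = w ∨ u = π w ∨ π u = w) := by
    rw [not_disjoint_iff] at h
    obtain ⟨z, hz1, hz2⟩ := h
    have e1 : ∃ w, (w = q.1 ∨ w = q.1 * q.2) ∧ (z = w ∨ z = π w) := by
      simp only [Sp2, mem_insert, mem_singleton] at hz1
      rcases hz1 with h | h | h | h
      · exact ⟨_, Or.inl rfl, Or.inl h⟩
      · exact ⟨_, Or.inl rfl, Or.inr h⟩
      · exact ⟨_, Or.inr rfl, Or.inl h⟩
      · exact ⟨_, Or.inr rfl, Or.inr h⟩
    have e2 : ∃ u, (u = b.1 ∨ u = b.1 * b.2) ∧ (z = u ∨ z = π u) := by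
      simp only [Sp2, mem_insert, mem_singleton] at hz2
      rcases hz2 with h | h | h | h
      · exact ⟨_, Or.inl rfl, Or.inl h⟩
      · exact ⟨_, Or.inl rfl, Or.inr h⟩
      · exact ⟨_, Or.inr rfl, Or.inl h⟩
      · exact ⟨_, Or.inr rfl, Or.inr h⟩
    obtain ⟨w, hw1, hw2⟩ := e1
    obtain ⟨u, hu1, hu2⟩ := e2
    refine ⟨u, hu1, w, hw1, ?_⟩
    rcases hw2 with h | h <;> rcases hu2 with h' | h'
    · exact Or.inl (h'.symm.trans h)
    · exact Or.inr (Or.inr (h'.symm.trans h))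
    · exact Or.inr (Or.inl (h'.symm.trans h))
    · exact Or.inl (π.injective (h'.symm.trans h))
  obtain ⟨u, hu, w, hw, huw⟩ := h1
  have mu : ∀ z, (z = u ∨ z = π u ∨ z = π.symm u) → z ∈ Mp2 π b := by
    intro z hz
    simp only [Mp2, mem_insert, mem_singleton]
    rcases hu with rfl | rfl <;> tauto
  have mw : ∀ z, (z = w ∨ z = π w ∨ z = π.symm w) → z ∈ Mp2 π q := by
    intro z hz
    simp only [Mp2, mem_insert, mem_singleton]
    rcases hw with rfl | rfl <;> tauto
  -- two common elements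
  obtain ⟨z1, z2, hne, m1, m2, n1, n2⟩ : ∃ z1 z2, z1 ≠ z2 ∧ z1 ∈ Mp2 π b ∧ z2 ∈ Mp2 π b ∧
      z1 ∈ Mp2 π q ∧ z2 ∈ Mp2 π q := by
    rcases huw with rfl | rfl | rfl
    · exact ⟨u, π u, (hπ u).symm, mu _ (Or.inl rfl), mu _ (Or.inr (Or.inl rfl)),
        mw _ (Or.inl rfl), mw _ (Or.inr (Or.inl rfl))⟩
    · exact ⟨π w, w, hπ w, mu _ (Or.inl rfl), mu _ (Or.inr (Or.inr (by simp))),
        mw _ (Or.inr (Or.inl rfl)), mw _ (Or.inl rfl)⟩
    · exact ⟨π u, u, hπ u, mu _ (Or.inr (Or.inl rfl)), mu _ (Or.inl rfl),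
        mw _ (Or.inl rfl), mw _ (Or.inr (Or.inr (by simp)))⟩
  have h2 : Mp2 π b \ Mp2 π q ⊆ ((Mp2 π b).erase z1).erase z2 := by
    intro z hz
    rw [mem_sdiff] at hz
    rw [mem_erase, mem_erase]
    refine ⟨?_, ?_, hz.1⟩
    · rintro rfl; exact hz.2 n2
    · rintro rfl; exact hz.2 n1
  have h3 := card_le_card h2
  rw [card_erase_of_mem (mem_erase.2 ⟨hne.symm, m2⟩), card_erase_of_mem m1] at h3
  have h4 := card_Mp2 π b
  omega

theorem card_blocked (π : Equiv.Perm G) (hπ : ∀ x, π x ≠ x) {C : Finset G} (z0 : G × C)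
    (B : Finset (G × C)) (hB : B.Nonempty) (h : ∀ b ∈ B, ¬ Disjoint (Sp2 π z0) (Sp2 π b)) :
    Set.ncard {a : G × C | ¬ Disjoint (Sp2 π a) (Sp2 π z0 ∪ B.biUnion (Sp2 π))} ≤
      20 * C.card * B.card := by
  classical
  set U := Mp2 π z0 ∪ B.biUnion (Mp2 π) with hU
  have h1 : {a : G × C | ¬ Disjoint (Sp2 π a) (Sp2 π z0 ∪ B.biUnion (Sp2 π))} ⊆
      {a : G × C | ¬ Disjoint ({a.1, a.1 * a.2} : Finset G) U} := by
    intro a ha
    simp only [Set.mem_ofPred_eq] at ha ⊢
    rw [not_disjoint_iff] at ha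
    obtain ⟨z, hz1, hz2⟩ := ha
    have e0 : ∀ q : G × C, z ∈ Sp2 π q → z ∈ Mp2 π q ∧ π.symm z ∈ Mp2 π q := by
      intro q hq
      simp only [Sp2, mem_insert, mem_singleton] at hq
      simp only [Mp2, mem_insert, mem_singleton]
      rcases hq with h | h | h | h
      · subst h; simp
      · subst h; simp
      · subst h; simp
      · subst h; simp
    have e1 : z ∈ U ∧ π.symm z ∈ U := by
      rw [mem_union] at hz2
      rw [hU, mem_union, mem_union]
      rcases hz2 with hz2 | hz2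
      · exact ⟨Or.inl (e0 z0 hz2).1, Or.inl (e0 z0 hz2).2⟩
      · rw [mem_biUnion] at hz2
        obtain ⟨b, hb, hz⟩ := hz2
        exact ⟨Or.inr (mem_biUnion.2 ⟨b, hb, (e0 b hz).1⟩),
          Or.inr (mem_biUnion.2 ⟨b, hb, (e0 b hz).2⟩)⟩
    rw [not_disjoint_iff]
    simp only [Sp2, mem_insert, mem_singleton] at hz1
    rcases hz1 with h | h | h | h
    · exact ⟨z, by simp [h], e1.1⟩
    · refine ⟨a.1, by simp, ?_⟩
      have : π.symm z = a.1 := by rw [h]; simp
      rw [← this]; exact e1.2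
    · exact ⟨z, by simp [h], e1.1⟩
    · refine ⟨a.1 * a.2, by simp, ?_⟩
      have : π.symm z = a.1 * a.2 := by rw [h]; simp
      rw [← this]; exact e1.2
  have h2 : U.card ≤ 10 * B.card := by
    have e1 : U = Mp2 π z0 ∪ B.biUnion (fun b => Mp2 π b \ Mp2 π z0) := by
      ext x
      rw [hU]
      simp only [mem_union, mem_biUnion, mem_sdiff]
      constructor
      · rintro (h | ⟨b, hb, hx⟩)
        · exact Or.inl h
        · by_cases h0 : x ∈ Mp2 π z0
          · exact Or.inl h0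
          · exact Or.inr ⟨b, hb, hx, h0⟩
      · rintro (h | ⟨b, hb, hx, -⟩)
        · exact Or.inl h
        · exact Or.inr ⟨b, hb, hx⟩
    have e2 : (B.biUnion (fun b => Mp2 π b \ Mp2 π z0)).card ≤ B.card * 4 := by
      apply card_biUnion_le_card_mul
      intro b hb
      exact card_Mp2_sdiff π hπ z0 b (h b hb)
    have e3 := card_Mp2 π z0
    have e4 := card_pos.2 hB
    rw [e1]
    refine (card_union_le _ _).trans ?_
    omega
  refine (Set.ncard_le_ncard h1 (Set.toFinite _)).trans ((ncard_meet C U).trans ?_)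
  calc 2 * C.card * U.card ≤ 2 * C.card * (10 * B.card) := Nat.mul_le_mul_left _ h2
    _ = 20 * C.card * B.card := by ring

/-- the set of links with separated ends: subgroups of order at least forty -/
theorem exists_links2 (A : Set G) (hgen : Subgroup.closure A = ⊤) (H : Subgroup G)
    [Fintype (G ⧸ H)] [DecidableEq (G ⧸ H)] (h40 : 40 ≤ Nat.card H) (π : Equiv.Perm G)
    (hπ : ∀ x, π x ≠ x) :
    ∃ (C : Finset G), (C : Set G) ⊆ A ∧ (∀ c ∈ C, c ∉ H) ∧ ∃ (F : Finset (G × C)),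
      (∀ q ∈ F, ∀ q' ∈ F, q ≠ q' → Disjoint (Sp2 π q) (Sp2 π q')) ∧
      ∑ q ∈ F, vec (sv H C) (tv H C) q = 0 ∧
      ∀ P : Set (G ⧸ H), (∀ q ∈ F, sv H C q ∈ P ↔ tv H C q ∈ P) → P.Nonempty → P = Set.univ := by
  classical
  obtain ⟨C, hCA, hCgen, hCH, hC⟩ := exists_irred H A hgen
  refine ⟨C, hCA, hCH, ?_⟩
  rcases Nat.eq_zero_or_pos C.card with h0 | h0
  · refine ⟨∅, by simp, by simp, fun P _ hne => conn_of_gen H C hCgen P ?_ hne⟩
    rintro ⟨x, c, hc⟩
    rw [card_eq_zero] at h0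
    rw [h0] at hc
    simp at hc
  · obtain ⟨F, hF1, hF2, hF3, -⟩ := two_trees (sv H C) (tv H C) (fun q : G × C => q)
      (Sp2 π) (20 * C.card) (by omega)
      (fun a => ⟨a.1, by simp [Sp2]⟩) (by
        intro U hU
        have h1 := cut_ineq H C (40 * C.card) (by
          intro S hHS hS
          refine le_trans ?_ (hC S hHS hS)
          rw [mul_comm]
          exact Nat.mul_le_mul_left _ h40) U hU
        have h2 : {a : G × C | ∃ q, q = a ∧ vec (sv H C) (tv H C) q ∉ U} =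
            {q : G × C | vec (sv H C) (tv H C) q ∉ U} := by
          ext a
          simp
        rw [h2, show 2 * (20 * C.card) = 40 * C.card by ring]
        exact h1) (by
        intro z0 B hB hmeet _
        exact card_blocked π hπ z0 B hB hmeet)
    refine ⟨F, hF1, hF2, fun P hP hne => conn_of_gen H C hCgen P ?_ hne⟩
    exact cut_of_span _ _ F hF3 P hP

end Pool.Agent.H718C
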