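import Pool.Agent.Helper718_cayley.G

/-!
Assembly: links with separated ends, cycles `π` with squares, and the switching argument.
-/

namespace Pool.Agent.H718C

open Finset

/-- an abstract 2-factor with terminals: `T` the ends of the links, `L` the partner map, `D` the
phases; `E` the adjacency relation. -/
theorem square_assembly {X : Type*} [Fintype X] [DecidableEq X] (E : X → X → Prop)
    (hE : ∀ x y, E x y → E y x) (π : Equiv.Perm X) (h1 : ∀ x, E x (π x)) (h2 : ∀ x, E x (π (π x)))
    (hπ1 : ∀ x, π x ≠ x) (hπ2 : ∀ x, π (π x) ≠ x) (hπ4 : ∀ x, π (π (π (π x))) ≠ x)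
    (T : Finset X) (hTsep : ∀ x ∈ T, π x ∉ T)
    (hTeven : ∀ x, Even (Set.ncard {t | t ∈ T ∧ π.SameCycle x t}))
    (L : X → X) (hL1 : ∀ x ∈ T, L x ∈ T) (hL2 : ∀ x ∈ T, L (L x) = x) (hL3 : ∀ x ∈ T, L x ≠ x)
    (hL4 : ∀ x ∈ T, E x (L x))
    (hcon : ∀ P : Set X, (∀ x ∈ P, π x ∈ P) → (∀ x ∈ T, x ∈ P → L x ∈ P) → P.Nonempty →
      P = Set.univ) :
    ∃ σ : Equiv.Perm X, (∀ x, E x (σ x)) ∧ ∀ x y, σ.SameCycle x y := by
  classical
  obtain ⟨D, hD, hD0⟩ := exists_phase π T hTeven
  have ππ : ∀ x, π (π.symm x) = x := fun x => π.apply_symm_apply x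
  have ππ' : ∀ x, π.symm (π x) = x := fun x => π.symm_apply_apply x
  have hD' : ∀ x, D x ≠ D (π.symm x) ↔ x ∈ T := by
    intro x
    have := hD (π.symm x)
    rwa [ππ] at this
  have hTsep' : ∀ x ∈ T, π.symm x ∉ T := by
    intro x hx h
    have := hTsep _ h
    rw [ππ] at this
    exact this hx
  -- right and left neighbours
  let ρ : X → X := fun x => if D x = true ∨ D (π x) = true then π (π x) else π x
  let lam : X → X := fun x => if D (π.symm x) = true ∨ D (π.symm (π.symm x)) = true then
    π.symm (π.symm x) else π.symm x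
  -- phases around terminals
  have hRt : ∀ x, ¬ (x ∈ T ∧ D x = false) → ¬ (ρ x ∈ T ∧ D (ρ x) = true) ∧ lam (ρ x) = x := by
    intro x hx
    have e0 := hD' x
    have e1 := hD x
    have e2 := hD (π x)
    have s1 : π x ∈ T → π (π x) ∉ T := hTsep (π x)
    have s0 : x ∈ T → π x ∉ T := hTsep x
    by_cases hc : D x = true ∨ D (π x) = true
    · have hρ : ρ x = π (π x) := if_pos hc
      rw [hρ]
      constructor
      · rintro ⟨a, b⟩
        -- then `π x ∉ T` and `D (π x) = D x`
        have c1 : π x ∉ T := fun h => s1 h a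
        have c2 : D (π x) = D x := by
          by_contra hne
          exact c1 (e1.1 hne)
        have c3 := e2.2 a
        rcases hc with hc | hc
        · rw [c2, hc, b] at c3
          exact c3 rfl
        · rw [hc, b] at c3
          exact c3 rfl
      · have hl : lam (π (π x)) = π.symm (π.symm (π (π x))) := by
          apply if_pos
          rw [ππ', ππ']
          exact hc.symm
        rw [hl, ππ', ππ']
    · have hρ : ρ x = π x := if_neg hc
      push Not at hc
      obtain ⟨c1, c2⟩ := hc
      rw [← Bool.eq_false_iff] at c1 c2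
      have c3 : x ∉ T := fun h => hx ⟨h, c1⟩
      have c4 : D (π.symm x) = false := by
        by_contra hne
        rw [Bool.not_eq_false] at hne
        exact c3 (e0.1 (by rw [c1, hne]; simp))
      rw [hρ]
      constructor
      · rintro ⟨a, b⟩
        rw [c2] at b
        exact absurd b (by simp)
      · have hl : lam (π x) = π.symm (π x) := by
          apply if_neg
          rw [ππ', c1, c4]
          simp
        rw [hl, ππ']
  have hLt : ∀ x, ¬ (x ∈ T ∧ D x = true) → ¬ (lam x ∈ T ∧ D (lam x) = false) ∧ ρ (lam x) = x := by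
    intro x hx
    set y := π.symm x with hy
    set w := π.symm y with hw
    have hyx : π y = x := by rw [hy, ππ]
    have hwy : π w = y := by rw [hw, ππ]
    have e0 := hD' x
    have e1 := hD' y
    have e2 := hD' w
    rw [← hy] at e0
    rw [← hw] at e1
    have s1 : w ∈ T → y ∉ T := fun h => by rw [← hwy]; exact hTsep w h
    have s0 : y ∈ T → x ∉ T := fun h => by rw [← hyx]; exact hTsep y h
    by_cases hc : D y = true ∨ D w = true
    · have hρ : lam x = w := if_pos hc
      rw [hρ]
      constructor
      · rintro ⟨a, b⟩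
        have c1 : y ∉ T := s1 a
        have c2 : D y = D w := by
          by_contra hne
          exact c1 (e1.1 hne)
        rcases hc with hc | hc
        · rw [c2, b] at hc
          exact absurd hc (by simp)
        · rw [b] at hc
          exact absurd hc (by simp)
      · have hl : ρ w = π (π w) := by
          apply if_pos
          rw [hwy]
          exact hc.symm
        rw [hl, hwy, hyx]
    · have hρ : lam x = y := if_neg hc
      push Not at hc
      obtain ⟨c1, c2⟩ := hc
      rw [← Bool.eq_false_iff] at c1 c2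
      rw [hρ]
      have c3 : D x = false := by
        by_contra hne
        rw [Bool.not_eq_false] at hne
        have : x ∈ T := e0.1 (by rw [c1, hne]; simp)
        exact hx ⟨this, hne⟩
      constructor
      · rintro ⟨a, b⟩
        have := e1.2 a
        rw [c1, c2] at this
        exact this rfl
      · have hl : ρ y = π y := by
          apply if_neg
          rw [hyx, c1, c3]
          simp
        rw [hl, hyx]
  -- the pairing of half-edges
  let f : X × Bool → X × Bool := fun y =>
    if y.1 ∈ T ∧ y.2 = !D y.1 then (L y.1, !D (L y.1)) else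
      if y.2 = true then (ρ y.1, false) else (lam y.1, true)
  have f1 : ∀ x β, x ∈ T → β = !D x → f (x, β) = (L x, !D (L x)) := by
    intro x β a b
    exact if_pos ⟨a, b⟩
  have f2 : ∀ x, ¬ (x ∈ T ∧ D x = false) → f (x, true) = (ρ x, false) := by
    intro x a
    change (if x ∈ T ∧ true = !D x then _ else _) = _
    rw [if_neg (by
      rintro ⟨b, c⟩
      exact a ⟨b, by simpa using c.symm⟩)]
    rfl
  have f3 : ∀ x, ¬ (x ∈ T ∧ D x = true) → f (x, false) = (lam x, true) := by
    intro x a
    change (if x ∈ T ∧ false = !D x then _ else _) = _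
    rw [if_neg (by
      rintro ⟨b, c⟩
      exact a ⟨b, by simpa using c.symm⟩)]
    rfl
  have hcase : ∀ x β, (x ∈ T ∧ β = !D x) ∨ (β = true ∧ ¬ (x ∈ T ∧ D x = false)) ∨
      (β = false ∧ ¬ (x ∈ T ∧ D x = true)) := by
    intro x β
    by_cases h : x ∈ T ∧ β = !D x
    · exact Or.inl h
    · cases β
      · refine Or.inr (Or.inr ⟨rfl, ?_⟩)
        rintro ⟨a, b⟩
        exact h ⟨a, by rw [b]; rfl⟩
      · refine Or.inr (Or.inl ⟨rfl, ?_⟩)
        rintro ⟨a, b⟩
        exact h ⟨a, by rw [b]; rfl⟩
  have hff : Function.Involutive f := by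
    rintro ⟨x, β⟩
    rcases hcase x β with ⟨a, b⟩ | ⟨rfl, a⟩ | ⟨rfl, a⟩
    · rw [f1 x β a b, f1 _ _ (hL1 x a) rfl, hL2 x a, b]
    · rw [f2 x a, f3 _ (hRt x a).1, (hRt x a).2]
    · rw [f3 x a, f2 _ (hLt x a).1, (hLt x a).2]
  have hfne : ∀ y, f y ≠ y := by
    rintro ⟨x, β⟩
    rcases hcase x β with ⟨a, b⟩ | ⟨rfl, a⟩ | ⟨rfl, a⟩
    · rw [f1 x β a b]
      intro h
      exact hL3 x a (Prod.ext_iff.1 h).1
    · rw [f2 x a]
      intro h
      exact absurd (Prod.ext_iff.1 h).2 (by simp)
    · rw [f3 x a]
      intro h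
      exact absurd (Prod.ext_iff.1 h).2 (by simp)
  obtain ⟨σ0, hσ1, hσ2⟩ := perm_of_invol (hff.toPerm f) (by ext y <;> simp [hff y]) hfne
  have hσ1' : ∀ x β, Und σ0 x (f (x, β)).1 := hσ1
  have hσ2' : ∀ x, ∃ β, σ0 x = (f (x, β)).1 := hσ2
  -- edges of the initial 2-factor
  have hρe : ∀ x, ¬ (x ∈ T ∧ D x = false) → Und σ0 x (ρ x) := by
    intro x a
    have := hσ1' x true
    rwa [f2 x a] at this
  have hLe : ∀ x ∈ T, Und σ0 x (L x) := by
    intro x a
    have := hσ1' x (!D x)
    rwa [f1 x _ a rfl] at this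
  have hρE : ∀ x, E x (ρ x) := by
    intro x
    by_cases hc : D x = true ∨ D (π x) = true
    · have hρ : ρ x = π (π x) := if_pos hc
      rw [hρ]; exact h2 x
    · have hρ : ρ x = π x := if_neg hc
      rw [hρ]; exact h1 x
  have hσ0E : ∀ x, E x (σ0 x) := by
    intro x
    obtain ⟨β, hβ⟩ := hσ2' x
    rw [hβ]
    rcases hcase x β with ⟨a, b⟩ | ⟨rfl, a⟩ | ⟨rfl, a⟩
    · rw [f1 x β a b]; exact hL4 x a
    · rw [f2 x a]; exact hρE x
    · rw [f3 x a]
      have := hρE (lam x)
      rw [(hLt x a).2] at this
      exact hE _ _ this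
  -- the left terminals
  let TL : Finset X := T.filter (fun t => D t = true)
  have hTL : ∀ t, t ∈ TL ↔ t ∈ T ∧ D t = true := fun t => by simp [TL]
  have hedge1 : ∀ t ∈ TL, Und σ0 (π.symm t) (π t) := by
    intro t ht
    obtain ⟨a, b⟩ := (hTL t).1 ht
    have c1 : ¬ (π.symm t ∈ T ∧ D (π.symm t) = false) := fun h => hTsep' t a h.1
    have c2 := hρe _ c1
    have c3 : ρ (π.symm t) = π (π (π.symm t)) := by
      apply if_pos
      right
      rw [ππ]; exact b
    rw [c3, ππ] at c2
    exact c2
  have hedge2 : ∀ t ∈ TL, Und σ0 t (π (π t)) := by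
    intro t ht
    obtain ⟨a, b⟩ := (hTL t).1 ht
    have c1 : ¬ (t ∈ T ∧ D t = false) := fun h => by rw [b] at h; exact absurd h.2 (by simp)
    have c2 := hρe _ c1
    have c3 : ρ t = π (π t) := if_pos (Or.inl b)
    rw [c3] at c2
    exact c2
  -- processing the left terminals
  have proc : ∀ Θ : Finset X, Θ ⊆ TL → ∃ σ : Equiv.Perm X, (∀ x, E x (σ x)) ∧
      (∀ t ∈ TL, t ∉ Θ → Und σ (π.symm t) (π t) ∧ Und σ t (π (π t))) ∧
      (∀ t ∈ Θ, σ.SameCycle (π.symm t) t ∧ σ.SameCycle t (π t) ∧ σ.SameCycle t (π (π t))) ∧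
      ∀ x y, σ0.SameCycle x y → σ.SameCycle x y := by
    intro Θ
    induction Θ using Finset.induction with
    | empty =>
      intro _
      exact ⟨σ0, hσ0E, fun t ht _ => ⟨hedge1 t ht, hedge2 t ht⟩, by simp, fun x y h => h⟩
    | insert t Θ htΘ ih =>
      intro hsub
      obtain ⟨σ, i1, i2, i3, i4⟩ := ih ((subset_insert _ _).trans hsub)
      have ht : t ∈ TL := hsub (mem_insert_self _ _)
      have htT := ((hTL t).1 ht).1
      obtain ⟨u1, u2⟩ := i2 t ht htΘ
      by_cases hs : σ.SameCycle (π.symm t) t
      · refine ⟨σ, i1, fun t' h' hn => i2 t' h' (fun h => hn (mem_insert_of_mem h)), ?_, i4⟩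
        intro t' h'
        rcases mem_insert.1 h' with rfl | h'
        · exact ⟨hs, hs.symm.trans u1.sameCycle, u2.sameCycle⟩
        · exact i3 t' h'
      · obtain ⟨σ', j1, j2, j3, j4⟩ := exists_switch σ u1 u2 hs
        refine ⟨σ', ?_, ?_, ?_, fun x y h => j3 x y (i4 x y h)⟩
        · intro x
          have key : ∀ x y, Und σ x y → E x y := by
            rintro x y (h | h)
            · rw [← h]; exact i1 x
            · rw [← h]; exact hE _ _ (i1 y)
          have e1 : E (π.symm t) t := by
            have := h1 (π.symm t)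
            rwa [ππ] at this
          have e2 : E (π t) (π (π t)) := h1 (π t)
          rcases j1 x (σ' x) (Or.inl rfl) with h | ⟨a, b⟩ | ⟨a, b⟩ | ⟨a, b⟩ | ⟨a, b⟩
          · exact key _ _ h
          · rw [b, a]; exact e1
          · rw [b, a]; exact hE _ _ e1
          · rw [b, a]; exact e2
          · rw [b, a]; exact hE _ _ e2
        · intro t' h' hn
          have hn1 : t' ≠ t := fun h => hn (by rw [h]; exact mem_insert_self _ _)
          have hn2 : t' ∉ Θ := fun h => hn (mem_insert_of_mem h)
          have ht'T := ((hTL t').1 h').1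
          obtain ⟨v1, v2⟩ := i2 t' h' hn2
          -- coincidences
          have w1 : π t' ≠ t := fun h => hTsep t' ht'T (by rw [h]; exact htT)
          have w2 : π t ≠ t' := fun h => hTsep t htT (by rw [h]; exact ht'T)
          have w3 : π.symm t' ≠ t := fun h => w2 (by rw [← h, ππ])
          have w4 : π.symm t ≠ t' := fun h => w1 (by rw [← h, ππ])
          have inj1 : π.symm t' ≠ π.symm t := fun h => hn1 (π.symm.injective h)
          have inj2 : π t' ≠ π t := fun h => hn1 (π.injective h)
          have inj3 : π (π t') ≠ π (π t) := fun h => hn1 (π.injective (π.injective h))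
          have q1 : ¬ (π.symm t' = π t ∧ π t' = π.symm t) := by
            rintro ⟨a, b⟩
            -- `π t = π.symm t'`, so `t' = π (π t)`, and `π t' = π (π (π t)) = π.symm t`
            have a' : t' = π (π t) := by rw [← a, ππ]
            have b' : π (π t') = t := by rw [b, ππ]
            rw [a'] at b'
            exact hπ4 t b'
          have q2 : ¬ (π.symm t' = π (π t) ∧ π t' = t) := fun h => w1 h.2
          have q3 : ¬ (t' = π (π t) ∧ π (π t') = t) := by
            rintro ⟨a, b⟩
            rw [a] at b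
            exact hπ4 t b
          refine ⟨j2 _ _ v1 ?_ ?_ ?_ ?_, j2 _ _ v2 ?_ ?_ ?_ ?_⟩
          · exact fun h => inj1 h.1
          · exact fun h => q1 ⟨h.1, h.2⟩
          · exact fun h => w3 h.1
          · exact fun h => q2 ⟨h.1, h.2⟩
          · exact fun h => w4 h.1.symm
          · exact fun h => w2 h.1.symm
          · exact fun h => hn1 h.1
          · exact fun h => q3 ⟨h.1, h.2⟩
        · intro t' h'
          rcases mem_insert.1 h' with rfl | h'
          · have k1 := j3 _ _ u1.sameCycle
            have k2 := j3 _ _ u2.sameCycle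
            exact ⟨j4, j4.symm.trans k1, k2⟩
          · obtain ⟨k1, k2, k3⟩ := i3 t' h'
            exact ⟨j3 _ _ k1, j3 _ _ k2, j3 _ _ k3⟩
  obtain ⟨σ, i1, -, i3, i4⟩ := proc TL (Subset.refl _)
  -- all steps of `π` stay in a cycle
  have hfalse : ∀ x, ∃ j : ℕ, D ((π.symm ^ j) x) = false := by
    intro x
    by_cases h : ∀ t ∈ T, ¬ π.SameCycle x t
    · exact ⟨0, hD0 x h⟩
    · push Not at h
      obtain ⟨t, ht, hcyc⟩ := h
      have h3 : ∀ y, π.SameCycle x y → ∃ j : ℕ, (π.symm ^ j) x = y := by
        intro y hy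
        have : (π⁻¹).SameCycle x y := Equiv.Perm.sameCycle_inv.2 hy
        obtain ⟨j, -, hj⟩ := this.exists_pow_eq'
        exact ⟨j, hj⟩
      have h4 := (hD' t).2 ht
      by_cases h5 : D t = false
      · obtain ⟨j, hj⟩ := h3 t hcyc
        exact ⟨j, by rw [hj]; exact h5⟩
      · obtain ⟨j, hj⟩ := h3 (π.symm t) (hcyc.trans (Equiv.Perm.SameCycle.symm ⟨1, by simp⟩))
        refine ⟨j, ?_⟩
        rw [hj]
        rw [Bool.not_eq_false] at h5
        rw [h5] at h4
        cases h6 : D (π.symm t)
        · rfl
        · rw [h6] at h4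
          exact absurd rfl h4
  have claim1 : ∀ j : ℕ, ∀ x, D x = true → D ((π.symm ^ j) x) = false → σ.SameCycle x (π x) := by
    intro j
    induction j with
    | zero =>
      intro x a b
      rw [pow_zero, Equiv.Perm.one_apply, a] at b
      exact absurd b (by simp)
    | succ j ih =>
      intro x a b
      cases hp : D (π.symm x)
      · have hxT : x ∈ T := (hD' x).1 (by rw [a, hp]; simp)
        exact (i3 x ((hTL x).2 ⟨hxT, a⟩)).2.1
      · have b' : D ((π.symm ^ j) (π.symm x)) = false := by
          rw [← Equiv.Perm.mul_apply, ← pow_succ]; exact b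
        have k1 := ih (π.symm x) hp b'
        rw [ππ] at k1
        have k2 : ¬ (π.symm x ∈ T ∧ D (π.symm x) = false) := by
          rw [hp]; simp
        have k3 := hρe _ k2
        have k4 : ρ (π.symm x) = π (π (π.symm x)) := if_pos (Or.inl hp)
        rw [k4, ππ] at k3
        exact k1.symm.trans (i4 _ _ k3.sameCycle)
  have claim1' : ∀ x, D x = true → σ.SameCycle x (π x) := by
    intro x a
    obtain ⟨j, hj⟩ := hfalse x
    exact claim1 j x a hj
  have claim2 : ∀ x, σ.SameCycle x (π x) := by
    intro x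
    cases hx : D x
    · cases hx' : D (π x)
      · by_cases hxT : x ∈ T
        · -- right terminal
          have hp : D (π.symm x) = true := by
            by_contra hne
            rw [Bool.not_eq_true] at hne
            have := (hD' x).2 hxT
            rw [hx, hne] at this
            exact this rfl
          have k1 := claim1' _ hp
          rw [ππ] at k1
          have k2 : ¬ (π.symm x ∈ T ∧ D (π.symm x) = false) := by
            rw [hp]; simp
          have k3 := hρe _ k2
          have k4 : ρ (π.symm x) = π (π (π.symm x)) := if_pos (Or.inl hp)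
          rw [k4, ππ] at k3
          exact k1.symm.trans (i4 _ _ k3.sameCycle)
        · have k3 := hρe x (fun h => hxT h.1)
          have k4 : ρ x = π x := by
            apply if_neg
            rw [hx, hx']; simp
          rw [k4] at k3
          exact i4 _ _ k3.sameCycle
      · have hT' : π x ∈ T := (hD x).1 (by rw [hx, hx']; simp)
        have k1 := (i3 (π x) ((hTL _).2 ⟨hT', hx'⟩)).1
        rwa [ππ'] at k1
    · exact claim1' x hx
  refine ⟨σ, i1, ?_⟩
  intro x y
  have hP := hcon {z | σ.SameCycle x z} (fun z hz => Equiv.Perm.SameCycle.trans hz (claim2 z))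
    (fun z hz hz' => Equiv.Perm.SameCycle.trans hz' (i4 _ _ (hLe z hz).sameCycle))
    ⟨x, Equiv.Perm.SameCycle.refl _ _⟩
  have : y ∈ {z | σ.SameCycle x z} := by rw [hP]; trivial
  exact this

end Pool.Agent.H718C
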