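import Pool.Agent.Helper718_cayley.I
import Pool.Agent.Helper718_cayley.J
import Pool.Agent.Helper718_cayley.D

/-!
Cayley graphs with a subgroup of order at least forty whose own Cayley graph contains the square of
a Hamiltonian cycle.
-/

namespace Pool.Agent.H718C

open Finset Module

variable {G : Type*} [Group G]

/-- the chosen representative of the coset of `x` -/
noncomputable def rep (H : Subgroup G) (x : G) : G := (x : G ⧸ H).out

theorem rep_mem (H : Subgroup G) (x : G) : (rep H x)⁻¹ * x ∈ H := by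
  rw [← QuotientGroup.eq]
  exact QuotientGroup.out_eq' _

/-- a permutation of `H` acting on every left coset -/
noncomputable def liftP (H : Subgroup G) (ρ : Equiv.Perm H) (x : G) : G :=
  rep H x * (ρ ⟨(rep H x)⁻¹ * x, rep_mem H x⟩ : H)

theorem liftP_coset (H : Subgroup G) (ρ : Equiv.Perm H) (x : G) :
    ((liftP H ρ x : G) : G ⧸ H) = (x : G ⧸ H) := by
  rw [QuotientGroup.eq]
  have h1 : (liftP H ρ x)⁻¹ * x = (ρ ⟨(rep H x)⁻¹ * x, rep_mem H x⟩ : G)⁻¹ * ((rep H x)⁻¹ * x) := by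
    unfold liftP
    group
  rw [h1]
  exact H.mul_mem (H.inv_mem (SetLike.coe_mem _)) (rep_mem H x)

theorem rep_liftP (H : Subgroup G) (ρ : Equiv.Perm H) (x : G) :
    rep H (liftP H ρ x) = rep H x := by
  unfold rep
  rw [liftP_coset]

theorem liftP_mul (H : Subgroup G) (ρ ρ' : Equiv.Perm H) (x : G) :
    liftP H ρ (liftP H ρ' x) = liftP H (ρ * ρ') x := by
  have h1 : (⟨(rep H (liftP H ρ' x))⁻¹ * liftP H ρ' x, rep_mem H _⟩ : H) =
      ρ' ⟨(rep H x)⁻¹ * x, rep_mem H x⟩ := by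
    apply Subtype.ext
    simp only [rep_liftP]
    unfold liftP
    group
  have h2 : liftP H ρ (liftP H ρ' x) = rep H (liftP H ρ' x) *
      (ρ ⟨(rep H (liftP H ρ' x))⁻¹ * liftP H ρ' x, rep_mem H _⟩ : G) := rfl
  rw [h2, h1, rep_liftP]
  rfl

theorem liftP_one (H : Subgroup G) (x : G) : liftP H 1 x = x := by
  unfold liftP
  simp

/-- the same as a permutation of `G` -/
noncomputable def liftE (H : Subgroup G) (ρ : Equiv.Perm H) : Equiv.Perm G where
  toFun := liftP H ρ
  invFun := liftP H ρ⁻¹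
  left_inv := fun x => by rw [liftP_mul, inv_mul_cancel, liftP_one]
  right_inv := fun x => by rw [liftP_mul, mul_inv_cancel, liftP_one]

theorem liftE_apply (H : Subgroup G) (ρ : Equiv.Perm H) (x : G) : liftE H ρ x = liftP H ρ x := rfl

theorem liftE_pow (H : Subgroup G) (ρ : Equiv.Perm H) (k : ℕ) (x : G) :
    ((liftE H ρ) ^ k) x = liftP H (ρ ^ k) x := by
  induction k with
  | zero => rw [pow_zero, pow_zero, liftP_one, Equiv.Perm.one_apply]
  | succ k ih => rw [pow_succ', Equiv.Perm.mul_apply, ih, liftE_apply, liftP_mul, pow_succ']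

theorem liftP_fix (H : Subgroup G) (ρ : Equiv.Perm H) (x : G) (h : liftP H ρ x = x) :
    ∃ y, ρ y = y := by
  refine ⟨⟨(rep H x)⁻¹ * x, rep_mem H x⟩, ?_⟩
  apply Subtype.ext
  have : liftP H ρ x = rep H x * (ρ ⟨(rep H x)⁻¹ * x, rep_mem H x⟩ : G) := rfl
  rw [this] at h
  simp only
  rw [eq_inv_mul_iff_mul_eq]
  exact h

theorem liftP_step (H : Subgroup G) (ρ : Equiv.Perm H) (x : G) :
    ∃ y : H, x⁻¹ * liftP H ρ x = ((y⁻¹ * ρ y : H) : G) := by
  refine ⟨⟨(rep H x)⁻¹ * x, rep_mem H x⟩, ?_⟩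
  unfold liftP
  simp only [Subgroup.coe_mul, Subgroup.coe_inv]
  group

theorem liftE_sameCycle [Finite G] (H : Subgroup G) (ρ : Equiv.Perm H)
    (hcyc : ∀ x y, ρ.SameCycle x y) (x y : G) :
    (liftE H ρ).SameCycle x y ↔ (x : G ⧸ H) = (y : G ⧸ H) := by
  constructor
  · intro h
    have := perm_closed (liftE H ρ) {z | ((x : G) : G ⧸ H) = (z : G ⧸ H)} (by
      intro z hz
      have h1 : ((liftE H ρ z : G) : G ⧸ H) = (z : G ⧸ H) := liftP_coset H ρ z
      change ((x : G) : G ⧸ H) = ((liftE H ρ z : G) : G ⧸ H)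
      rw [h1]; exact hz) h rfl
    exact this
  · intro h
    have hr : rep H x = rep H y := by unfold rep; rw [h]
    obtain ⟨k, -, hk⟩ := (hcyc ⟨(rep H x)⁻¹ * x, rep_mem H x⟩
      ⟨(rep H y)⁻¹ * y, rep_mem H y⟩).exists_pow_eq'
    refine ⟨k, ?_⟩
    rw [zpow_natCast, liftE_pow]
    unfold liftP
    rw [hk, hr]
    simp

theorem square_main [Finite G] (A : Set G) (hA : ∀ x ∈ A, x⁻¹ ∈ A)
    (hgen : Subgroup.closure A = ⊤) (H : Subgroup G) (h40 : 40 ≤ Nat.card H) (ρ : Equiv.Perm H)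
    (hcyc : ∀ x y, ρ.SameCycle x y) (h1 : ∀ x : H, ((x⁻¹ * ρ x : H) : G) ∈ A)
    (h2 : ∀ x : H, ((x⁻¹ * ρ (ρ x) : H) : G) ∈ A) :
    ∃ σ : Equiv.Perm G, (∀ x, x⁻¹ * σ x ∈ A) ∧ ∀ x y, σ.SameCycle x y := by
  classical
  have : Fintype G := Fintype.ofFinite G
  have : Fintype (G ⧸ H) := Fintype.ofFinite _
  have : Fintype H := Fintype.ofFinite _
  -- powers of `ρ` have no fixed points
  have hfix : ∀ k : ℕ, 0 < k → k < 40 → ∀ x, (ρ ^ k) x ≠ x := by
    intro k hk0 hk x hx
    have hc : ρ.IsCycleOn ((univ : Finset H) : Set H) := by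
      rw [Finset.coe_univ]
      exact ⟨Set.bijOn_univ.2 ρ.bijective, fun x _ y _ => hcyc x y⟩
    rw [hc.pow_apply_eq (Finset.mem_univ _)] at hx
    have h3 := Nat.le_of_dvd hk0 hx
    rw [card_univ, ← Nat.card_eq_fintype_card] at h3
    omega
  set π := liftE H ρ with hπ
  have hpow : ∀ k : ℕ, 0 < k → k < 40 → ∀ x, (π ^ k) x ≠ x := by
    intro k hk0 hk x hx
    rw [hπ, liftE_pow] at hx
    obtain ⟨y, hy⟩ := liftP_fix H _ x hx
    exact hfix k hk0 hk y hy
  have hπ1 : ∀ x, π x ≠ x := fun x => by simpa using hpow 1 (by norm_num) (by norm_num) x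
  have hπ2 : ∀ x, π (π x) ≠ x := fun x => by
    have := hpow 2 (by norm_num) (by norm_num) x
    rwa [pow_two, Equiv.Perm.mul_apply] at this
  have hπ4 : ∀ x, π (π (π (π x))) ≠ x := fun x => by
    have := hpow 4 (by norm_num) (by norm_num) x
    simpa [pow_succ, Equiv.Perm.mul_apply] using this
  obtain ⟨C, hCA, hCH, F, hF1, hF2, hF3⟩ := exists_links2 A hgen H h40 π hπ1
  let el : F × Bool → G := fun y => if y.2 then (y.1 : G × C).1 * (y.1 : G × C).2 else
    (y.1 : G × C).1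
  have elf : ∀ q : F, el (q, false) = (q : G × C).1 := fun q => rfl
  have elt : ∀ q : F, el (q, true) = (q : G × C).1 * (q : G × C).2 := fun q => rfl
  have hat : ∀ y : F × Bool, ((el y : G) : G ⧸ H) =
      (if y.2 then tv H C y.1 else sv H C y.1) := by
    rintro ⟨q, β⟩
    cases β <;> rfl
  have hends : ∀ q : F, ((el (q, false) : G) : G ⧸ H) ≠ ((el (q, true) : G) : G ⧸ H) := by
    rintro ⟨⟨x, c, hc⟩, hq⟩ h
    rw [elf, elt, QuotientGroup.eq] at h
    simp only [inv_mul_cancel_left] at h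
    exact hCH c hc h
  have hmem : ∀ y : F × Bool, el y ∈ Sp2 π (y.1 : G × C) ∧ π (el y) ∈ Sp2 π (y.1 : G × C) := by
    rintro ⟨q, β⟩
    cases β
    · rw [elf]; simp [Sp2]
    · rw [elt]; simp [Sp2]
  have hdisj : ∀ y y' : F × Bool, y.1 ≠ y'.1 → ∀ z, z ∈ Sp2 π (y.1 : G × C) →
      z ∉ Sp2 π (y'.1 : G × C) := by
    intro y y' hne z hz
    exact disjoint_left.1 (hF1 y.1 y.1.2 y'.1 y'.1.2 (fun h => hne (Subtype.ext h))) hz
  have hinj : Function.Injective el := by
    intro y y' h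
    by_cases hne : y.1 = y'.1
    · by_cases hb : y.2 = y'.2
      · exact Prod.ext hne hb
      · exfalso
        obtain ⟨q, β⟩ := y
        obtain ⟨q', β'⟩ := y'
        have hne2 : q = q' := hne
        subst hne2
        have h' : ((el (q, β) : G) : G ⧸ H) = ((el (q, β') : G) : G ⧸ H) := by rw [h]
        cases β <;> cases β'
        · exact hb rfl
        · exact hends q h'
        · exact hends q h'.symm
        · exact hb rfl
    · exfalso
      have h3 := hdisj y y' hne (el y) (hmem y).1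
      rw [h] at h3
      exact h3 (hmem y').1
  let T : Finset G := univ.image el
  have hT : ∀ x, x ∈ T ↔ ∃ y, el y = x := fun x => by simp [T]
  let fl : F × Bool → F × Bool := fun y => (y.1, !y.2)
  let L : G → G := fun x => if h : ∃ y, el y = x then el (fl h.choose) else x
  have hL : ∀ y, L (el y) = el (fl y) := by
    intro y
    have h : ∃ y', el y' = el y := ⟨y, rfl⟩
    have h3 : L (el y) = el (fl h.choose) := dif_pos h
    rw [h3, hinj h.choose_spec]
  have hflfl : ∀ y, fl (fl y) = y := by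
    rintro ⟨q, β⟩
    simp [fl]
  have hcosetπ : ∀ x, ((π x : G) : G ⧸ H) = (x : G ⧸ H) := fun x => liftP_coset H ρ x
  refine square_assembly (fun x y => x⁻¹ * y ∈ A) ?_ π ?_ ?_ hπ1 hπ2 hπ4 T ?_ ?_ L ?_ ?_ ?_ ?_ ?_
  · intro x y h
    have := hA _ h
    rwa [mul_inv_rev, inv_inv] at this
  · intro x
    obtain ⟨y, hy⟩ := liftP_step H ρ x
    change x⁻¹ * liftP H ρ x ∈ A
    rw [hy]; exact h1 y
  · intro x
    obtain ⟨y, hy⟩ := liftP_step H (ρ * ρ) x
    change x⁻¹ * liftP H ρ (liftP H ρ x) ∈ A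
    rw [liftP_mul, hy]
    exact h2 y
  · -- separation
    intro x hx hx'
    obtain ⟨y, rfl⟩ := (hT x).1 hx
    obtain ⟨y', hy'⟩ := (hT _).1 hx'
    by_cases hne : y.1 = y'.1
    · obtain ⟨q, β⟩ := y
      obtain ⟨q', β'⟩ := y'
      have hne2 : q = q' := hne
      subst hne2
      have h3 : ((el (q, β') : G) : G ⧸ H) = ((π (el (q, β)) : G) : G ⧸ H) := by rw [hy']
      rw [hcosetπ] at h3
      cases β <;> cases β'
      · exact hπ1 _ hy'.symm
      · exact hends q h3.symm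
      · exact hends q h3
      · exact hπ1 _ hy'.symm
    · have h3 := hdisj y y' hne (π (el y)) (hmem y).2
      rw [← hy'] at h3
      exact h3 (hmem y').1
  · -- parity
    intro x
    have h3 := even_half (sv H C) (tv H C) F hF2 (x : G ⧸ H)
    have h4 : {t | t ∈ T ∧ π.SameCycle x t} =
        el '' {y | (if y.2 then tv H C y.1 else sv H C y.1) = (x : G ⧸ H)} := by
      ext t
      simp only [Set.mem_ofPred_eq, Set.mem_image]
      constructor
      · rintro ⟨a, b⟩
        obtain ⟨y, rfl⟩ := (hT t).1 a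
        refine ⟨y, ?_, rfl⟩
        rw [hπ, liftE_sameCycle H ρ hcyc] at b
        rw [b, hat]
      · rintro ⟨y, a, rfl⟩
        refine ⟨(hT _).2 ⟨y, rfl⟩, ?_⟩
        rw [hπ, liftE_sameCycle H ρ hcyc, hat, a]
    rw [h4, Set.ncard_image_of_injective _ hinj]
    have h5 : {y : F × Bool | (if y.2 then tv H C y.1 else sv H C y.1) = (x : G ⧸ H)} =
        ((univ.filter (fun y : F × Bool => (if y.2 then tv H C y.1 else sv H C y.1) =
          (x : G ⧸ H)) : Finset (F × Bool)) : Set (F × Bool)) := by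
      ext y; simp
    rw [h5, Set.ncard_coe_finset]
    exact h3
  · intro x hx
    obtain ⟨y, rfl⟩ := (hT x).1 hx
    rw [hL]
    exact (hT _).2 ⟨_, rfl⟩
  · intro x hx
    obtain ⟨y, rfl⟩ := (hT x).1 hx
    rw [hL, hL, hflfl]
  · intro x hx h
    obtain ⟨y, rfl⟩ := (hT x).1 hx
    rw [hL] at h
    have := hinj h
    obtain ⟨q, β⟩ := y
    simp [fl] at this
  · intro x hx
    obtain ⟨⟨q, β⟩, rfl⟩ := (hT x).1 hx
    rw [hL]
    have hcA : ((q : G × C).2 : G) ∈ A := hCA (by exact_mod_cast (q : G × C).2.2)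
    cases β
    · change (el (q, false))⁻¹ * el (q, true) ∈ A
      rw [elf, elt, inv_mul_cancel_left]
      exact hcA
    · change (el (q, true))⁻¹ * el (q, false) ∈ A
      rw [elf, elt, mul_inv_rev, inv_mul_cancel_right]
      exact hA _ hcA
  · intro P hPπ hPL hne
    have c0 : ∀ x y : G, (x : G ⧸ H) = (y : G ⧸ H) → x ∈ P → y ∈ P := by
      intro x y hxy hx
      exact perm_closed π P hPπ ((liftE_sameCycle H ρ hcyc x y).2 hxy) hx
    let PV : Set (G ⧸ H) := {v | ∃ x ∈ P, (x : G ⧸ H) = v}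
    have c1 : ∀ x : G, (x : G ⧸ H) ∈ PV ↔ x ∈ P := by
      intro x
      constructor
      · rintro ⟨y, hy, hyx⟩
        exact c0 y x hyx hy
      · intro h
        exact ⟨x, h, rfl⟩
    have c2 : ∀ q ∈ F, sv H C q ∈ PV ↔ tv H C q ∈ PV := by
      intro q hq
      have e1 : sv H C q = ((el (⟨q, hq⟩, false) : G) : G ⧸ H) := rfl
      have e2 : tv H C q = ((el (⟨q, hq⟩, true) : G) : G ⧸ H) := rfl
      rw [e1, e2, c1, c1]
      constructor
      · intro h
        have := hPL _ ((hT _).2 ⟨_, rfl⟩) h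
        rwa [hL] at this
      · intro h
        have := hPL _ ((hT _).2 ⟨_, rfl⟩) h
        rwa [hL] at this
    obtain ⟨x, hx⟩ := hne
    have c3 := hF3 PV c2 ⟨_, x, hx, rfl⟩
    ext y
    simp only [Set.mem_univ, iff_true]
    rw [← c1, c3]
    trivial

end Pool.Agent.H718C
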