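import Pool.Agent.Helper718_cayley.I

/-!
The cut inequality passes to contractions; links between the cycles of a permutation whose cycles
are unions of left cosets of a subgroup.
-/

namespace Pool.Agent.H718C

open Finset Module

/-- push-forward of vectors along a map of vertices -/
noncomputable def push {V V' : Type*} [Fintype V] [DecidableEq V'] (m : V → V') :
    (V → ZMod 2) →ₗ[ZMod 2] (V' → ZMod 2) :=
  Fintype.linearCombination (ZMod 2) (fun v => (Pi.single (m v) 1 : V' → ZMod 2))

theorem push_single {V V' : Type*} [Fintype V] [DecidableEq V] [DecidableEq V'] (m : V → V')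
    (v : V) : push m (Pi.single v 1) = Pi.single (m v) 1 := by
  unfold push
  rw [Fintype.linearCombination_apply_single, one_smul]

theorem push_vec {V V' Q : Type*} [Fintype V] [DecidableEq V] [DecidableEq V'] (m : V → V')
    (s t : Q → V) (q : Q) : push m (vec s t q) = vec (m ∘ s) (m ∘ t) q := by
  unfold vec
  rw [map_add, push_single, push_single]
  rfl

theorem contract_cut {V V' Q : Type*} [Fintype V] [DecidableEq V] [Fintype V'] [DecidableEq V']
    [Fintype Q] [DecidableEq Q] (m : V → V') (s t : Q → V) (N : ℕ)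
    (h : ∀ U : Submodule (ZMod 2) (V → ZMod 2), U ≤ Sp (ZMod 2) (vec s t) univ →
      N * finrank (ZMod 2) (Sp (ZMod 2) (vec s t) univ) ≤
        Set.ncard {q | vec s t q ∉ U} + N * finrank (ZMod 2) U)
    (U' : Submodule (ZMod 2) (V' → ZMod 2)) (hU' : U' ≤ Sp (ZMod 2) (vec (m ∘ s) (m ∘ t)) univ) :
    N * finrank (ZMod 2) (Sp (ZMod 2) (vec (m ∘ s) (m ∘ t)) univ) ≤
      Set.ncard {q | vec (m ∘ s) (m ∘ t) q ∉ U'} + N * finrank (ZMod 2) U' := by
  set W := Sp (ZMod 2) (vec s t) univ with hW
  set W' := Sp (ZMod 2) (vec (m ∘ s) (m ∘ t)) univ with hW'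
  set p := push (V := V) m with hp
  have hmap : W.map p = W' := by
    rw [hW, hW', Sp, Sp, Submodule.map_span, ← Set.image_comp]
    congr 1
    apply Set.image_congr
    intro q _
    exact push_vec m s t q
  set U := W ⊓ U'.comap p with hU
  have h1 := h U inf_le_left
  have h2 : {q | vec s t q ∉ U} = {q | vec (m ∘ s) (m ∘ t) q ∉ U'} := by
    ext q
    simp only [Set.mem_ofPred_eq, hU, Submodule.mem_inf, Submodule.mem_comap, not_and]
    rw [hp, push_vec]
    constructor
    · intro h3
      exact h3 (mem_Sp (mem_univ _))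
    · intro h3 _
      exact h3
  rw [h2] at h1
  have hUmap : U.map p = U' := by
    apply le_antisymm
    · rintro _ ⟨x, hx, rfl⟩
      exact hx.2
    · intro y hy
      have : y ∈ W.map p := by rw [hmap]; exact hU' hy
      obtain ⟨x, hx, rfl⟩ := this
      exact ⟨x, ⟨hx, hy⟩, rfl⟩
  -- ranks
  have r1 := LinearMap.finrank_range_add_finrank_ker (p.domRestrict W)
  have r2 := LinearMap.finrank_range_add_finrank_ker (p.domRestrict U)
  rw [LinearMap.range_domRestrict, hmap] at r1
  rw [LinearMap.range_domRestrict, hUmap] at r2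
  have r3 : finrank (ZMod 2) (LinearMap.ker (p.domRestrict W)) =
      finrank (ZMod 2) (LinearMap.ker (p.domRestrict U)) := by
    have k1 : ∀ W1 : Submodule (ZMod 2) (V → ZMod 2),
        finrank (ZMod 2) (LinearMap.ker (p.domRestrict W1)) =
        finrank (ZMod 2) ↥(W1 ⊓ LinearMap.ker p) := by
      intro W1
      rw [← Submodule.map_comap_subtype]
      exact (LinearEquiv.finrank_eq
        (Submodule.equivMapOfInjective W1.subtype (Submodule.subtype_injective W1)
          (LinearMap.ker (p.domRestrict W1))))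
    rw [k1, k1]
    have k2 : W ⊓ LinearMap.ker p = U ⊓ LinearMap.ker p := by
      apply le_antisymm
      · rintro x ⟨a, b⟩
        refine ⟨⟨a, ?_⟩, b⟩
        have hb : p x = 0 := LinearMap.mem_ker.1 b
        change p x ∈ U'
        rw [hb]
        exact U'.zero_mem
      · rintro x ⟨a, b⟩
        exact ⟨a.1, b⟩
    rw [k2]
  have r4 : finrank (ZMod 2) W' + finrank (ZMod 2) U = finrank (ZMod 2) W + finrank (ZMod 2) U' := by
    omega
  have r5 : N * finrank (ZMod 2) W' + N * finrank (ZMod 2) U =
      N * finrank (ZMod 2) W + N * finrank (ZMod 2) U' := by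
    rw [← mul_add, r4, mul_add]
  omega

variable {G : Type*} [Group G] [Fintype G] [DecidableEq G]

/-- links between the cycles of `π` -/
theorem exists_links3 (A : Set G) (hgen : Subgroup.closure A = ⊤) (K : Subgroup G)
    (h40 : 40 ≤ Nat.card K) (π : Equiv.Perm G) (hπ : ∀ x, π x ≠ x) {V' : Type*} [Fintype V']
    [DecidableEq V'] (m : G → V') (hm : ∀ x y, x⁻¹ * y ∈ K → m x = m y)
    (hsurj : Function.Surjective m) :
    ∃ (C : Finset G), (C : Set G) ⊆ A ∧ ∃ (F : Finset (G × C)),
      (∀ q ∈ F, ∀ q' ∈ F, q ≠ q' → Disjoint (Sp2 π q) (Sp2 π q')) ∧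
      ∑ q ∈ F, vec (fun q : G × C => m q.1) (fun q : G × C => m (q.1 * q.2)) q = 0 ∧
      (∀ P : Set V', (∀ q ∈ F, m q.1 ∈ P ↔ m (q.1 * q.2) ∈ P) → P.Nonempty → P = Set.univ) ∧
      ∀ q ∈ F, m q.1 ≠ m (q.1 * q.2) := by
  classical
  have : Fintype (G ⧸ K) := Fintype.ofFinite _
  obtain ⟨C, hCA, hCgen, -, hC⟩ := exists_irred K A hgen
  refine ⟨C, hCA, ?_⟩
  let m' : G ⧸ K → V' := fun v => Quotient.liftOn' v m (fun x y h => hm x y (by
    rwa [QuotientGroup.leftRel_apply] at h))
  have hm' : ∀ x : G, m' (x : G ⧸ K) = m x := fun x => rfl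
  have hs' : (m' ∘ sv K C) = fun q : G × C => m q.1 := rfl
  have ht' : (m' ∘ tv K C) = fun q : G × C => m (q.1 * q.2) := rfl
  -- connectivity from a spanning set of links
  have hconn : ∀ P : Set V', (∀ q : G × C, m q.1 ∈ P ↔ m (q.1 * q.2) ∈ P) → P.Nonempty →
      P = Set.univ := by
    intro P hP hne
    have h1 : (m' ⁻¹' P).Nonempty := by
      obtain ⟨v, hv⟩ := hne
      obtain ⟨x, rfl⟩ := hsurj v
      exact ⟨(x : G ⧸ K), hv⟩
    have h2 := conn_of_gen K C hCgen (m' ⁻¹' P) hP h1
    ext v
    simp only [Set.mem_univ, iff_true]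
    obtain ⟨x, rfl⟩ := hsurj v
    have h3 : (x : G ⧸ K) ∈ m' ⁻¹' P := by rw [h2]; trivial
    exact h3
  rcases Nat.eq_zero_or_pos C.card with h0 | h0
  · refine ⟨∅, by simp, by simp, fun P _ hne => hconn P ?_ hne, by simp⟩
    rintro ⟨x, c, hc⟩
    rw [card_eq_zero] at h0
    rw [h0] at hc
    simp at hc
  · obtain ⟨F, hF1, hF2, hF3, hF4⟩ := two_trees (fun q : G × C => m q.1)
      (fun q : G × C => m (q.1 * q.2)) (fun q : G × C => q)
      (Sp2 π) (20 * C.card) (by omega)
      (fun a => ⟨a.1, by simp [Sp2]⟩) (by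
        intro U hU
        have h1 := contract_cut m' (sv K C) (tv K C) (40 * C.card) (by
          intro U hU
          exact cut_ineq K C (40 * C.card) (by
            intro S hHS hS
            refine le_trans ?_ (hC S hHS hS)
            rw [mul_comm]
            exact Nat.mul_le_mul_left _ h40) U hU) U hU
        have h2 : {a : G × C | ∃ q, q = a ∧ vec (fun q : G × C => m q.1)
            (fun q : G × C => m (q.1 * q.2)) q ∉ U} =
            {q : G × C | vec (m' ∘ sv K C) (m' ∘ tv K C) q ∉ U} := by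
          ext a
          simp only [Set.mem_ofPred_eq, exists_eq_left]
          rfl
        rw [h2, show 2 * (20 * C.card) = 40 * C.card by ring]
        exact h1) (by
        intro z0 B hB hmeet _
        exact card_blocked π hπ z0 B hB hmeet)
    refine ⟨F, hF1, hF2, fun P hP hne => hconn P ?_ hne, ?_⟩
    · exact cut_of_span _ _ F hF3 P hP
    · intro q hq h
      apply hF4 q hq
      unfold vec
      show Pi.single (m q.1) 1 + Pi.single (m (q.1 * q.2)) 1 = 0
      rw [h]
      ext v
      have h2 : ∀ a : ZMod 2, a + a = 0 := by decide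
      exact h2 _

end Pool.Agent.H718C
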