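import Pool.Agent.Helper718_cayley.L
import Pool.Agent.Helper718_cayley.J
import Pool.Agent.Helper718_cayley.D

/-!
Cayley graphs with a spanning permutation whose square stays in the graph and whose cycles are
unions of left cosets of a subgroup of order at least forty.
-/

namespace Pool.Agent.H718C

open Finset Module

variable {G : Type*} [Group G]

/-- iterates of a permutation with cycles of length at least forty have no fixed points -/
theorem pow_fix_of_coset [Finite G] (K : Subgroup G) (h40 : 40 ≤ Nat.card K) (π : Equiv.Perm G)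
    (hK : ∀ x y, x⁻¹ * y ∈ K → π.SameCycle x y) (k : ℕ) (hk0 : 0 < k) (hk : k < 40) (x : G) :
    (π ^ k) x ≠ x := by
  classical
  have : Fintype G := Fintype.ofFinite G
  intro hx
  -- the orbit of `x` has at most `k` elements
  have h1 : ((fun h : K => x * (h : G)) '' Set.univ) ⊆
      (((range k).image (fun i => (π ^ i) x) : Finset G) : Set G) := by
    rintro _ ⟨h, -, rfl⟩
    have h2 : π.SameCycle x (x * h) := hK _ _ (by simp)
    obtain ⟨n, -, hn⟩ := h2.exists_pow_eq'
    have h3 : (π ^ (n % k)) x = x * h := by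
      rw [← hn]
      have h4 : ∀ j : ℕ, (π ^ (k * j)) x = x := by
        intro j
        rw [pow_mul]
        have h5 : ∀ j : ℕ, ((π ^ k) ^ j) x = x := by
          intro j
          induction j with
          | zero => simp
          | succ j ih => rw [pow_succ', Equiv.Perm.mul_apply, ih, hx]
        exact h5 j
      conv_rhs => rw [← Nat.mod_add_div n k, pow_add, Equiv.Perm.mul_apply, h4]
    rw [coe_image]
    exact ⟨n % k, by rw [Finset.mem_coe, Finset.mem_range]; exact Nat.mod_lt _ hk0, h3⟩
  have h2 := Set.ncard_le_ncard h1 (Set.toFinite _)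
  rw [Set.ncard_coe_finset, Set.ncard_image_of_injective _ (by
    intro a b hab
    exact Subtype.ext (mul_left_cancel hab)), Set.ncard_univ] at h2
  have h3 : ((range k).image (fun i => (π ^ i) x)).card ≤ k := by
    simpa using card_image_le (s := range k) (f := fun i => (π ^ i) x)
  omega

theorem square_cluster [Finite G] (A : Set G) (hA : ∀ x ∈ A, x⁻¹ ∈ A)
    (hgen : Subgroup.closure A = ⊤) (K : Subgroup G) (h40 : 40 ≤ Nat.card K) (π : Equiv.Perm G)
    (hK : ∀ x y, x⁻¹ * y ∈ K → π.SameCycle x y) (h1 : ∀ x, x⁻¹ * π x ∈ A)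
    (h2 : ∀ x, x⁻¹ * π (π x) ∈ A) :
    ∃ σ : Equiv.Perm G, (∀ x, x⁻¹ * σ x ∈ A) ∧ ∀ x y, σ.SameCycle x y := by
  classical
  have : Fintype G := Fintype.ofFinite G
  have hpow : ∀ k : ℕ, 0 < k → k < 40 → ∀ x, (π ^ k) x ≠ x :=
    fun k a b x => pow_fix_of_coset K h40 π hK k a b x
  have hπ1 : ∀ x, π x ≠ x := fun x => by simpa using hpow 1 (by norm_num) (by norm_num) x
  have hπ2 : ∀ x, π (π x) ≠ x := fun x => by
    have := hpow 2 (by norm_num) (by norm_num) x
    rwa [pow_two, Equiv.Perm.mul_apply] at this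
  have hπ4 : ∀ x, π (π (π (π x))) ≠ x := fun x => by
    have := hpow 4 (by norm_num) (by norm_num) x
    simpa [pow_succ, Equiv.Perm.mul_apply] using this
  let V' := Quotient (Equiv.Perm.SameCycle.setoid π)
  let m : G → V' := fun x => Quotient.mk _ x
  have hmm : ∀ x y, m x = m y ↔ π.SameCycle x y := by
    intro x y
    exact Quotient.eq (r := Equiv.Perm.SameCycle.setoid π)
  have : Finite V' := Quotient.finite _
  have : Fintype V' := Fintype.ofFinite _
  obtain ⟨C, hCA, F, hF1, hF2, hF3, hF4⟩ := exists_links3 A hgen K h40 π hπ1 m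
    (fun x y h => (hmm x y).2 (hK x y h)) (Quotient.mk_surjective)
  let s : G × C → V' := fun q => m q.1
  let t : G × C → V' := fun q => m (q.1 * q.2)
  let el : F × Bool → G := fun y => if y.2 then (y.1 : G × C).1 * (y.1 : G × C).2 else
    (y.1 : G × C).1
  have elf : ∀ q : F, el (q, false) = (q : G × C).1 := fun q => rfl
  have elt : ∀ q : F, el (q, true) = (q : G × C).1 * (q : G × C).2 := fun q => rfl
  have hat : ∀ y : F × Bool, m (el y) = (if y.2 then t y.1 else s y.1) := by
    rintro ⟨q, β⟩
    cases β <;> rfl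
  have hends : ∀ q : F, m (el (q, false)) ≠ m (el (q, true)) := by
    rintro ⟨q, hq⟩ h
    exact hF4 q hq h
  have hmem : ∀ y : F × Bool, el y ∈ Sp2 π (y.1 : G × C) ∧ π (el y) ∈ Sp2 π (y.1 : G × C) := by
    rintro ⟨q, β⟩
    cases β
    · rw [elf]; simp [Sp2]
    · rw [elt]; simp [Sp2]
  have hdisj : ∀ y y' : F × Bool, y.1 ≠ y'.1 → ∀ z, z ∈ Sp2 π (y.1 : G × C) →
      z ∉ Sp2 π (y'.1 : G × C) := by
    intro y y' hne z hz
    exact disjoint_left.1 (hF1 y.1 y.1.2 y'.1 y'.1.2 (fun h => hne (Subtype.ext h))) hz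
  have hinj : Function.Injective el := by
    intro y y' h
    by_cases hne : y.1 = y'.1
    · by_cases hb : y.2 = y'.2
      · exact Prod.ext hne hb
      · exfalso
        obtain ⟨q, β⟩ := y
        obtain ⟨q', β'⟩ := y'
        have hne2 : q = q' := hne
        subst hne2
        have h' : m (el (q, β)) = m (el (q, β')) := by rw [h]
        cases β <;> cases β'
        · exact hb rfl
        · exact hends q h'
        · exact hends q h'.symm
        · exact hb rfl
    · exfalso
      have h3 := hdisj y y' hne (el y) (hmem y).1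
      rw [h] at h3
      exact h3 (hmem y').1
  let T : Finset G := univ.image el
  have hT : ∀ x, x ∈ T ↔ ∃ y, el y = x := fun x => by simp [T]
  let fl : F × Bool → F × Bool := fun y => (y.1, !y.2)
  let L : G → G := fun x => if h : ∃ y, el y = x then el (fl h.choose) else x
  have hL : ∀ y, L (el y) = el (fl y) := by
    intro y
    have h : ∃ y', el y' = el y := ⟨y, rfl⟩
    have h3 : L (el y) = el (fl h.choose) := dif_pos h
    rw [h3, hinj h.choose_spec]
  have hflfl : ∀ y, fl (fl y) = y := by
    rintro ⟨q, β⟩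
    simp [fl]
  have hcosetπ : ∀ x, m (π x) = m x := fun x => by
    rw [hmm]
    exact Equiv.Perm.sameCycle_apply_left.2 (Equiv.Perm.SameCycle.refl π x)
  refine square_assembly (fun x y => x⁻¹ * y ∈ A) ?_ π h1 h2 hπ1 hπ2 hπ4 T ?_ ?_ L ?_ ?_ ?_ ?_ ?_
  · intro x y h
    have := hA _ h
    rwa [mul_inv_rev, inv_inv] at this
  · -- separation
    intro x hx hx'
    obtain ⟨y, rfl⟩ := (hT x).1 hx
    obtain ⟨y', hy'⟩ := (hT _).1 hx'
    by_cases hne : y.1 = y'.1
    · obtain ⟨q, β⟩ := y
      obtain ⟨q', β'⟩ := y'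
      have hne2 : q = q' := hne
      subst hne2
      have h3 : m (el (q, β')) = m (π (el (q, β))) := by rw [hy']
      rw [hcosetπ] at h3
      cases β <;> cases β'
      · exact hπ1 _ hy'.symm
      · exact hends q h3.symm
      · exact hends q h3
      · exact hπ1 _ hy'.symm
    · have h3 := hdisj y y' hne (π (el y)) (hmem y).2
      rw [← hy'] at h3
      exact h3 (hmem y').1
  · -- parity
    intro x
    have h3 := even_half s t F hF2 (m x)
    have h4 : {z | z ∈ T ∧ π.SameCycle x z} =
        el '' {y | (if y.2 then t y.1 else s y.1) = m x} := by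
      ext z
      simp only [Set.mem_ofPred_eq, Set.mem_image]
      constructor
      · rintro ⟨a, b⟩
        obtain ⟨y, rfl⟩ := (hT z).1 a
        refine ⟨y, ?_, rfl⟩
        rw [← hat, hmm]
        exact b.symm
      · rintro ⟨y, a, rfl⟩
        refine ⟨(hT _).2 ⟨y, rfl⟩, ?_⟩
        rw [← hmm, hat, a]
    rw [h4, Set.ncard_image_of_injective _ hinj]
    have h5 : {y : F × Bool | (if y.2 then t y.1 else s y.1) = m x} =
        ((univ.filter (fun y : F × Bool => (if y.2 then t y.1 else s y.1) =
          m x) : Finset (F × Bool)) : Set (F × Bool)) := by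
      ext y; simp
    rw [h5, Set.ncard_coe_finset]
    exact h3
  · intro x hx
    obtain ⟨y, rfl⟩ := (hT x).1 hx
    rw [hL]
    exact (hT _).2 ⟨_, rfl⟩
  · intro x hx
    obtain ⟨y, rfl⟩ := (hT x).1 hx
    rw [hL, hL, hflfl]
  · intro x hx h
    obtain ⟨y, rfl⟩ := (hT x).1 hx
    rw [hL] at h
    have := hinj h
    obtain ⟨q, β⟩ := y
    simp [fl] at this
  · intro x hx
    obtain ⟨⟨q, β⟩, rfl⟩ := (hT x).1 hx
    rw [hL]
    have hcA : ((q : G × C).2 : G) ∈ A := hCA (by exact_mod_cast (q : G × C).2.2)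
    cases β
    · change (el (q, false))⁻¹ * el (q, true) ∈ A
      rw [elf, elt, inv_mul_cancel_left]
      exact hcA
    · change (el (q, true))⁻¹ * el (q, false) ∈ A
      rw [elf, elt, mul_inv_rev, inv_mul_cancel_right]
      exact hA _ hcA
  · intro P hPπ hPL hne
    have c0 : ∀ x y : G, m x = m y → x ∈ P → y ∈ P := by
      intro x y hxy hx
      exact perm_closed π P hPπ ((hmm x y).1 hxy) hx
    let PV : Set V' := {v | ∃ x ∈ P, m x = v}
    have c1 : ∀ x : G, m x ∈ PV ↔ x ∈ P := by
      intro x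
      constructor
      · rintro ⟨y, hy, hyx⟩
        exact c0 y x hyx hy
      · intro h
        exact ⟨x, h, rfl⟩
    have c2 : ∀ q ∈ F, m q.1 ∈ PV ↔ m (q.1 * q.2) ∈ PV := by
      intro q hq
      have e1 : m q.1 = m (el (⟨q, hq⟩, false)) := rfl
      have e2 : m (q.1 * q.2) = m (el (⟨q, hq⟩, true)) := rfl
      rw [e1, e2, c1, c1]
      constructor
      · intro h
        have := hPL _ ((hT _).2 ⟨_, rfl⟩) h
        rwa [hL] at this
      · intro h
        have := hPL _ ((hT _).2 ⟨_, rfl⟩) h
        rwa [hL] at this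
    obtain ⟨x, hx⟩ := hne
    have c3 := hF3 PV c2 ⟨_, x, hx, rfl⟩
    ext y
    simp only [Set.mem_univ, iff_true]
    rw [← c1, c3]
    trivial

end Pool.Agent.H718C
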