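import Pool.Agent.Helper718_cayley.G

/-!
Exchange of two steps of a cyclic permutation (2-opt move), and the repair of the steps inside the
parts of a partition when the graph inside each part has large degree.
-/

namespace Pool.Agent.H718C

open Finset

/-- splitting a cycle of a permutation -/
theorem split_two {X : Type*} [Finite X] [DecidableEq X] (σ : Equiv.Perm X) (x z : X)
    (hne : x ≠ z) (h : σ.SameCycle x z) : ¬ (σ * Equiv.swap x z).SameCycle z x := by
  classical
  have : Fintype X := Fintype.ofFinite X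
  set σ1 := σ * Equiv.swap x z with hσ1
  have s1 : σ1 z = σ x := by simp [σ1]
  have s2 : ∀ w, w ≠ x → w ≠ z → σ1 w = σ w := by
    intro w hw hw'
    simp [σ1, Equiv.swap_apply_of_ne_of_ne hw hw']
  have h1 : σ.SameCycle (σ x) z := Equiv.Perm.sameCycle_apply_left.2 h
  have hex : ∃ i : ℕ, (σ ^ i) (σ x) = z := by
    obtain ⟨n, -, hn⟩ := h1.exists_pow_eq'
    exact ⟨n, hn⟩
  set k := Nat.find hex with hk
  have hk1 : (σ ^ k) (σ x) = z := Nat.find_spec hex
  have hk2 : ∀ i < k, (σ ^ i) (σ x) ≠ z := fun i hi => Nat.find_min hex hi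
  have hx : ∀ i ≤ k, (σ ^ i) (σ x) ≠ x := by
    intro i hi hix
    rcases Nat.lt_or_ge i k with hlt | hge
    · have e1 : (σ ^ (i + 1)) (σ x) = σ x := by
        rw [pow_succ', Equiv.Perm.mul_apply, hix]
      have e2 : (σ ^ k) (σ x) = (σ ^ (k - (i + 1))) ((σ ^ (i + 1)) (σ x)) := by
        have e3 : σ ^ k = σ ^ (k - (i + 1)) * σ ^ (i + 1) := by
          rw [← pow_add]
          congr 1
          omega
        conv_lhs => rw [e3, Equiv.Perm.mul_apply]
      rw [e1, hk1] at e2
      exact hk2 (k - (i + 1)) (by omega) e2.symm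
    · have : i = k := le_antisymm hi hge
      rw [this, hk1] at hix
      exact hne hix.symm
  intro hs
  have h2 := perm_closed σ1 {w | ∃ i ≤ k, (σ ^ i) (σ x) = w} (by
    rintro w ⟨i, hi, rfl⟩
    rcases Nat.lt_or_ge i k with hlt | hge
    · refine ⟨i + 1, hlt, ?_⟩
      rw [s2 _ (hx i hi) (hk2 i hlt), pow_succ', Equiv.Perm.mul_apply]
    · have : i = k := le_antisymm hi hge
      rw [this, hk1, s1]
      exact ⟨0, Nat.zero_le _, rfl⟩) hs ⟨k, le_refl _, hk1⟩
  obtain ⟨i, hi, hix⟩ := h2
  exact hx i hi hix

/-- **2-opt move**: the steps `x → σ x` and `z → σ z` of a cyclic permutation are replaced by steps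
between `x`, `z` and between `σ x`, `σ z`. -/
theorem two_opt {X : Type*} [Finite X] [DecidableEq X] (σ : Equiv.Perm X)
    (hc : ∀ a b, σ.SameCycle a b) (x z : X) (hne : x ≠ z) :
    ∃ σ' : Equiv.Perm X, (∀ a b, σ'.SameCycle a b) ∧ σ' x = z ∧ σ' (σ x) = σ z ∧
      ∀ w, w ≠ x → w ≠ σ x → Und σ w (σ' w) := by
  classical
  set σ1 := σ * Equiv.swap x z with hσ1
  have s0 : σ1 x = σ z := by simp [σ1]
  have s1 : σ1 z = σ x := by simp [σ1]
  have s2 : ∀ w, w ≠ x → w ≠ z → σ1 w = σ w := by
    intro w hw hw'
    simp [σ1, Equiv.swap_apply_of_ne_of_ne hw hw']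
  have hsplit : ¬ σ1.SameCycle z x := split_two σ x z hne (hc x z)
  have hall1 : ∀ w, σ1.SameCycle x w ∨ σ1.SameCycle z w := by
    intro w
    refine perm_closed σ {w | σ1.SameCycle x w ∨ σ1.SameCycle z w} ?_ (hc x w)
      (Or.inl (Equiv.Perm.SameCycle.refl _ _))
    intro w hw
    by_cases hwx : w = x
    · right
      rw [hwx, ← s1]
      exact ⟨1, by simp⟩
    · by_cases hwz : w = z
      · left
        rw [hwz, ← s0]
        exact ⟨1, by simp⟩
      · rcases hw with hw | hw
        · left
          rw [← s2 w hwx hwz]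
          exact Equiv.Perm.sameCycle_apply_right.2 hw
        · right
          rw [← s2 w hwx hwz]
          exact Equiv.Perm.sameCycle_apply_right.2 hw
  obtain ⟨σ2, b1, b2, b3, b4⟩ := exists_reverse σ1 z
  have hzσx : σ1.SameCycle z (σ x) := ⟨1, by simpa using s1⟩
  have e1 : σ2 (σ x) = z := by
    rw [b3 _ hzσx, Equiv.Perm.inv_eq_iff_eq]
    exact s1.symm
  have e2 : σ2 x = σ z := by
    rw [b4 x hsplit]
    exact s0
  have hn2 : ¬ σ2.SameCycle x (σ x) := by
    rw [b2]
    intro h
    exact hsplit (hzσx.trans h.symm)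
  obtain ⟨m1, m2⟩ := merge_two σ2 x (σ x) hn2
  have hxσx : x ≠ σ x := by
    intro h
    apply hn2
    rw [← h]
  refine ⟨σ2 * Equiv.swap x (σ x), ?_, ?_, ?_, ?_⟩
  · have hx : ∀ w, (σ2 * Equiv.swap x (σ x)).SameCycle x w := by
      intro w
      rcases hall1 w with hw | hw
      · exact m2 _ _ ((b2 _ _).2 hw)
      · exact m1.trans (m2 _ _ ((b2 _ _).2 (hzσx.symm.trans hw)))
    intro a b
    exact (hx a).symm.trans (hx b)
  · simp [e1]
  · simp [e2]
  · intro w hwx hwσ
    have e3 : (σ2 * Equiv.swap x (σ x)) w = σ2 w := by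
      simp [Equiv.swap_apply_of_ne_of_ne hwx hwσ]
    rw [e3]
    by_cases hw : σ1.SameCycle z w
    · right
      rw [b3 w hw]
      -- the predecessor of `w` in `σ1` is neither `x` nor `z`
      have hx' : σ1⁻¹ w ≠ x := by
        intro h
        apply hsplit
        rw [← h]
        exact hw.trans (Equiv.Perm.SameCycle.symm ⟨1, by simp⟩)
      have hz' : σ1⁻¹ w ≠ z := by
        intro h
        rw [Equiv.Perm.inv_eq_iff_eq] at h
        exact hwσ (h.trans s1)
      have := s2 _ hx' hz'
      rw [← this]
      simp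
    · left
      rw [b4 w hw]
      exact (s2 w hwx (by
        rintro rfl
        exact hw (Equiv.Perm.SameCycle.refl _ _))).symm

/-- **Repair of the steps inside the parts.** -/
theorem dense_fix {X V : Type*} [Fintype X] (m : X → V) (L : X → X)
    (hL : ∀ x, L (L x) = x) (Gd : X → X → Prop) (hGs : ∀ x y, Gd x y → Gd y x)
    (hGi : ∀ x, ¬ Gd x x)
    (hdeg : ∀ x, Set.ncard {z | m z = m x} + Set.ncard {z | m z = m x ∧ m (L z) ≠ m z} / 2 ≤
      2 * Set.ncard {z | m z = m x ∧ Gd x z}) (h3 : 3 ≤ Fintype.card X)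
    (σ0 : Equiv.Perm X) (hc0 : ∀ a b, σ0.SameCycle a b)
    (hs0 : ∀ x, m (σ0 x) = m x ∨ σ0 x = L x) :
    ∃ σ : Equiv.Perm X, (∀ a b, σ.SameCycle a b) ∧
      ∀ x, (m (σ x) = m x ∧ Gd x (σ x)) ∨ (m (σ x) ≠ m x ∧ σ x = L x) := by
  classical
  induction hn : Set.ncard {p : X × X | Und σ0 p.1 p.2 ∧ m p.1 = m p.2 ∧ ¬ Gd p.1 p.2} using
    Nat.strong_induction_on generalizing σ0 with
  | _ n ih =>
    by_cases hbad : ∃ x, m (σ0 x) = m x ∧ ¬ Gd x (σ0 x)
    · obtain ⟨x, hx1, hx2⟩ := hbad
      -- undirected form of the hypothesis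
      have hU : ∀ a b, Und σ0 a b → m a ≠ m b → b = L a := by
        rintro a b (h | h) hm
        · rcases hs0 a with h' | h'
          · exact absurd (by rw [← h, h']) hm
          · rw [← h, h']
        · rcases hs0 b with h' | h'
          · exact absurd (by rw [← h, h']) hm
          · rw [← h, h', hL]
      -- the sets of entries and exits
      set v := m x with hv
      set Pv : Finset X := univ.filter (fun z => m z = v) with hPv
      set Ein : Finset X := univ.filter (fun z => m z = v ∧ m (σ0⁻¹ z) ≠ v) with hEin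
      set Eout : Finset X := univ.filter (fun z => m z = v ∧ m (σ0 z) ≠ v) with hEout
      set Tv : Finset X := univ.filter (fun z => m z = v ∧ m (L z) ≠ m z) with hTv
      have hPvmem : ∀ z, z ∈ Pv ↔ m z = v := by intro z; simp [Pv]
      have hEinmem : ∀ z, z ∈ Ein ↔ m z = v ∧ m (σ0⁻¹ z) ≠ v := by intro z; simp [Ein]
      have hEoutmem : ∀ z, z ∈ Eout ↔ m z = v ∧ m (σ0 z) ≠ v := by intro z; simp [Eout]
      have hTvmem : ∀ z, z ∈ Tv ↔ m z = v ∧ m (L z) ≠ m z := by intro z; simp [Tv]
      have c1 : Ein.card = Eout.card := by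
        have i1 : (Pv \ Eout).card = (Pv \ Ein).card := by
          apply card_bij (fun z _ => σ0 z)
          · intro z hz
            rw [mem_sdiff, hPvmem, hEoutmem] at hz
            rw [mem_sdiff, hPvmem, hEinmem]
            obtain ⟨z1, z2⟩ := hz
            have z3 : m (σ0 z) = v := by
              by_contra h
              exact z2 ⟨z1, h⟩
            refine ⟨z3, ?_⟩
            rintro ⟨-, h⟩
            apply h
            simpa using z1
          · intro a _ b _ h
            exact σ0.injective h
          · intro z hz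
            rw [mem_sdiff, hPvmem, hEinmem] at hz
            obtain ⟨z1, z2⟩ := hz
            have z3 : m (σ0⁻¹ z) = v := by
              by_contra h
              exact z2 ⟨z1, h⟩
            refine ⟨σ0⁻¹ z, ?_, by simp⟩
            rw [mem_sdiff, hPvmem, hEoutmem]
            refine ⟨z3, ?_⟩
            rintro ⟨-, h⟩
            apply h
            simpa using z1
        have i2 : Eout ⊆ Pv := fun z hz => (hPvmem z).2 ((hEoutmem z).1 hz).1
        have i3 : Ein ⊆ Pv := fun z hz => (hPvmem z).2 ((hEinmem z).1 hz).1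
        rw [card_sdiff_of_subset i2, card_sdiff_of_subset i3] at i1
        have i4 := card_le_card i2
        have i5 := card_le_card i3
        omega
      have c2 : Disjoint Ein Eout := by
        rw [disjoint_left]
        intro z hz hz'
        rw [hEinmem] at hz
        rw [hEoutmem] at hz'
        have u1 : σ0 z = L z := hU z (σ0 z) (Or.inl rfl) (by
          rw [hz.1]; exact Ne.symm hz'.2)
        have u2 : σ0⁻¹ z = L z := hU z (σ0⁻¹ z) (Or.inr (by simp)) (by
          rw [hz.1]; exact Ne.symm hz.2)
        have u3 : σ0 (σ0 z) = z := by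
          rw [u1, ← u2]; simp
        -- then the cycle has at most two elements
        have u4 : ∀ w, w = z ∨ w = σ0 z := by
          intro w
          refine perm_closed σ0 {w | w = z ∨ w = σ0 z} ?_ (hc0 z w) (Or.inl rfl)
          rintro w (rfl | rfl)
          · exact Or.inr rfl
          · left; exact u3
        have u5 : (univ : Finset X) ⊆ {z, σ0 z} := by
          intro w _
          rw [mem_insert, mem_singleton]
          exact u4 w
        have u6 := card_le_card u5
        rw [card_univ] at u6
        have u7 : ({z, σ0 z} : Finset X).card ≤ 2 := card_le_two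
        omega
      have c3 : Ein ∪ Eout ⊆ Tv := by
        intro z hz
        rw [mem_union, hEinmem, hEoutmem] at hz
        rw [hTvmem]
        rcases hz with ⟨z1, z2⟩ | ⟨z1, z2⟩
        · have u2 : σ0⁻¹ z = L z := hU z (σ0⁻¹ z) (Or.inr (by simp)) (by
            rw [z1]; exact Ne.symm z2)
          rw [← u2, z1]
          exact ⟨rfl, z2⟩
        · have u2 : σ0 z = L z := hU z (σ0 z) (Or.inl rfl) (by
            rw [z1]; exact Ne.symm z2)
          rw [← u2, z1]
          exact ⟨rfl, z2⟩
      have c4 : 2 * Ein.card ≤ Tv.card := by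
        have := card_le_card c3
        rw [card_union_of_disjoint c2] at this
        omega
      -- the two sets of candidates
      set N1 : Finset X := univ.filter (fun z => m z = v ∧ Gd x z) with hN1
      set N2 : Finset X := univ.filter (fun z => m z = v ∧ Gd (σ0 x) z) with hN2
      have hN1mem : ∀ z, z ∈ N1 ↔ m z = v ∧ Gd x z := by intro z; simp [N1]
      have hN2mem : ∀ z, z ∈ N2 ↔ m z = v ∧ Gd (σ0 x) z := by intro z; simp [N2]
      have d1 := hdeg x
      have d2 := hdeg (σ0 x)
      rw [hx1] at d2
      have t1 : Set.ncard {z | m z = v} = Pv.card := by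
        rw [← Set.ncard_coe_finset]; congr 1; ext z; simp [Pv]
      have t2 : Set.ncard {z | m z = v ∧ m (L z) ≠ m z} = Tv.card := by
        rw [← Set.ncard_coe_finset]; congr 1; ext z; simp [Tv]
      have t3 : Set.ncard {z | m z = v ∧ Gd x z} = N1.card := by
        rw [← Set.ncard_coe_finset]; congr 1; ext z; simp [N1]
      have t4 : Set.ncard {z | m z = v ∧ Gd (σ0 x) z} = N2.card := by
        rw [← Set.ncard_coe_finset]; congr 1; ext z; simp [N2]
      rw [t1, t2, t3] at d1
      rw [t1, t2, t4] at d2
      have N2' : ((N2 \ Ein).image (fun z => σ0⁻¹ z)).card + Ein.card ≥ N2.card := by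
        rw [card_image_of_injective _ (σ0⁻¹).injective]
        have := le_card_sdiff Ein N2
        omega
      have hsub : N1 ∪ (N2 \ Ein).image (fun z => σ0⁻¹ z) ⊆ Pv.erase x := by
        intro z hz
        rw [mem_union, mem_image] at hz
        rw [mem_erase, hPvmem]
        rcases hz with hz | ⟨y, hy, rfl⟩
        · rw [hN1mem] at hz
          exact ⟨fun h => hGi x (by rw [h] at hz; exact hz.2), hz.1⟩
        · rw [mem_sdiff, hN2mem, hEinmem] at hy
          obtain ⟨⟨y1, y2⟩, y3⟩ := hy
          refine ⟨fun h => ?_, ?_⟩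
          · rw [Equiv.Perm.inv_eq_iff_eq] at h
            rw [h] at y2
            exact hGi _ y2
          · by_contra h
            exact y3 ⟨y1, h⟩
      have hxP : x ∈ Pv := (hPvmem x).2 rfl
      obtain ⟨z, hz⟩ : (N1 ∩ (N2 \ Ein).image (fun z => σ0⁻¹ z)).Nonempty := by
        rw [← card_pos]
        have e1 := card_union_add_card_inter N1 ((N2 \ Ein).image (fun z => σ0⁻¹ z))
        have e2 := card_le_card hsub
        rw [card_erase_of_mem hxP] at e2
        have e3 := card_pos.2 ⟨x, hxP⟩
        omega
      rw [mem_inter, hN1mem, mem_image] at hz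
      obtain ⟨⟨z1, z2⟩, y, hy, hyz⟩ := hz
      rw [mem_sdiff, hN2mem] at hy
      have hyz' : σ0 z = y := by rw [← hyz]; simp
      have hxz : x ≠ z := fun h => hGi x (by rw [← h] at z2; exact z2)
      obtain ⟨σ', k1, k2, k3, k4⟩ := two_opt σ0 hc0 x z hxz
      have g1 : m y = v := hy.1.1
      have g2 : Gd (σ0 x) y := hy.1.2
      refine ih _ ?_ σ' k1 ?_ rfl
      · -- fewer bad pairs
        rw [← hn]
        apply Set.ncard_lt_ncard _ (Set.toFinite _)
        have key : ∀ a, m a = m (σ' a) → ¬ Gd a (σ' a) → Und σ0 a (σ' a) ∧ a ≠ x ∧ a ≠ σ0 x := by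
          intro a ha1 ha2
          have n1 : a ≠ x := by
            rintro rfl
            rw [k2] at ha2
            exact ha2 z2
          have n2 : a ≠ σ0 x := by
            rintro rfl
            rw [k3, hyz'] at ha2
            exact ha2 g2
          exact ⟨k4 a n1 n2, n1, n2⟩
        rw [Set.ssubset_iff_of_subset]
        · refine ⟨(x, σ0 x), ⟨Or.inl rfl, hx1.symm, hx2⟩, ?_⟩
          rintro ⟨h | h, h', h''⟩
          · simp only at h h' h''
            exact (key x (by rw [h]; exact h') (by rw [h]; exact h'')).2.1 rfl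
          · simp only at h h' h''
            exact (key (σ0 x) (by rw [h]; exact h'.symm) (by
              rw [h]; exact fun h3 => h'' (hGs _ _ h3))).2.2 rfl
        · rintro ⟨a, b⟩ ⟨h | h, h', h''⟩
          · simp only at h h' h''
            subst h
            exact ⟨(key a h' h'').1, h', h''⟩
          · simp only at h h' h''
            subst h
            exact ⟨(key b h'.symm (fun h3 => h'' (hGs _ _ h3))).1.symm, h', h''⟩
      · intro a
        by_cases n1 : a = x
        · left
          rw [n1, k2, z1]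
        · by_cases n2 : a = σ0 x
          · left
            rw [n2, k3, hyz', g1, hx1]
          · by_cases hm : m (σ' a) = m a
            · exact Or.inl hm
            · right
              exact hU a _ (k4 a n1 n2) (fun h => hm h.symm)
    · push Not at hbad
      refine ⟨σ0, hc0, fun x => ?_⟩
      by_cases hm : m (σ0 x) = m x
      · exact Or.inl ⟨hm, hbad x hm⟩
      · exact Or.inr ⟨hm, (hs0 x).resolve_left hm⟩

end Pool.Agent.H718C
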