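import Pool.Agent.Helper718_cayley.F

/-!
Links with slots: at most `K` ends of links in every coset.
-/

namespace Pool.Agent.H718C

open Finset Module

variable {G : Type*} [Group G] [Fintype G] [DecidableEq G]

/-- the elements and the slots used by a link -/
def Ssl (H : Subgroup G) [DecidableEq (G ⧸ H)] (C : Finset G) (K : ℕ)
    (q : (G × C) × Fin K × Fin K) : Finset (G ⊕ (G ⧸ H) × Fin K) :=
  Finset.disjSum {q.1.1, q.1.1 * q.1.2} {(sv H C q.1, q.2.1), (tv H C q.1, q.2.2)}

/-- the number of links using an element or a slot -/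
noncomputable def wsl (H : Subgroup G) (C : Finset G) (K : ℕ) : G ⊕ (G ⧸ H) × Fin K → ℕ :=
  Sum.elim (fun _ => 2 * C.card * K * K) (fun _ => 2 * C.card * Nat.card H * K)

theorem card_use (H : Subgroup G) [Fintype (G ⧸ H)] [DecidableEq (G ⧸ H)] (C : Finset G) (K : ℕ)
    (u : G ⊕ (G ⧸ H) × Fin K) :
    (univ.filter (fun q => u ∈ Ssl H C K q)).card ≤ wsl H C K u := by
  classical
  rcases u with x | ⟨v, i⟩
  · have h1 : (univ.filter (fun q => (Sum.inl x : G ⊕ (G ⧸ H) × Fin K) ∈ Ssl H C K q)) ⊆
        (univ.filter (fun q : (G × C) × Fin K × Fin K => q.1.1 = x)) ∪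
        (univ.filter (fun q : (G × C) × Fin K × Fin K => q.1.1 * q.1.2 = x)) := by
      intro q hq
      simp only [mem_filter, mem_univ, true_and, Ssl, inl_mem_disjSum, mem_insert,
        mem_singleton] at hq
      rw [mem_union, mem_filter, mem_filter]
      rcases hq with h | h
      · exact Or.inl ⟨mem_univ _, h.symm⟩
      · exact Or.inr ⟨mem_univ _, h.symm⟩
    have h2 : (univ.filter (fun q : (G × C) × Fin K × Fin K => q.1.1 = x)).card ≤
        C.card * K * K := by
      have := card_le_card_of_injOn (s := univ.filter (fun q : (G × C) × Fin K × Fin K =>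
        q.1.1 = x)) (t := (univ : Finset (C × Fin K × Fin K))) (fun q => (q.1.2, q.2))
        (fun _ _ => by simp) (by
          intro a ha b hb hab
          simp only [coe_filter, mem_univ, true_and, Set.mem_ofPred_eq] at ha hb
          simp only [Prod.mk.injEq] at hab
          exact Prod.ext (Prod.ext (ha.trans hb.symm) hab.1) hab.2)
      refine this.trans (le_of_eq ?_)
      simp [card_univ, Fintype.card_prod, mul_assoc]
    have h3 : (univ.filter (fun q : (G × C) × Fin K × Fin K => q.1.1 * q.1.2 = x)).card ≤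
        C.card * K * K := by
      have := card_le_card_of_injOn (s := univ.filter (fun q : (G × C) × Fin K × Fin K =>
        q.1.1 * q.1.2 = x)) (t := (univ : Finset (C × Fin K × Fin K))) (fun q => (q.1.2, q.2))
        (fun _ _ => by simp) (by
          intro a ha b hb hab
          simp only [coe_filter, mem_univ, true_and, Set.mem_ofPred_eq] at ha hb
          simp only [Prod.mk.injEq] at hab
          have e1 : a.1.1 = b.1.1 := by
            have e2 := ha.trans hb.symm
            rw [hab.1] at e2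
            exact mul_right_cancel e2
          exact Prod.ext (Prod.ext e1 hab.1) hab.2)
      refine this.trans (le_of_eq ?_)
      simp [card_univ, Fintype.card_prod, mul_assoc]
    refine (card_le_card h1).trans ((card_union_le _ _).trans ?_)
    change _ ≤ 2 * C.card * K * K
    calc _ ≤ C.card * K * K + C.card * K * K := Nat.add_le_add h2 h3
      _ = 2 * C.card * K * K := by ring
  · obtain ⟨y, rfl⟩ := QuotientGroup.mk_surjective v
    have h1 : (univ.filter (fun q => (Sum.inr ((y : G ⧸ H), i) : G ⊕ (G ⧸ H) × Fin K) ∈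
        Ssl H C K q)) ⊆
        (univ.filter (fun q : (G × C) × Fin K × Fin K => y⁻¹ * q.1.1 ∈ H ∧ q.2.1 = i)) ∪
        (univ.filter (fun q : (G × C) × Fin K × Fin K => y⁻¹ * (q.1.1 * q.1.2) ∈ H ∧
          q.2.2 = i)) := by
      intro q hq
      simp only [mem_filter, mem_univ, true_and, Ssl, inr_mem_disjSum, mem_insert,
        mem_singleton, Prod.mk.injEq] at hq
      rw [mem_union, mem_filter, mem_filter]
      rcases hq with h | h
      · exact Or.inl ⟨mem_univ _, QuotientGroup.eq.1 h.1, h.2.symm⟩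
      · exact Or.inr ⟨mem_univ _, QuotientGroup.eq.1 h.1, h.2.symm⟩
    have hH : (univ.filter (fun x : G => x ∈ H)).card = Nat.card H := by
      rw [Nat.card_eq_fintype_card, Fintype.card_subtype]
    have hcard : ((univ.filter (fun x : G => x ∈ H)) ×ˢ (univ : Finset (C × Fin K))).card =
        C.card * Nat.card H * K := by
      rw [card_product, hH, card_univ, Fintype.card_prod, Fintype.card_coe, Fintype.card_fin]
      ring
    have h2 : (univ.filter (fun q : (G × C) × Fin K × Fin K => y⁻¹ * q.1.1 ∈ H ∧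
        q.2.1 = i)).card ≤ C.card * Nat.card H * K := by
      rw [← hcard]
      apply card_le_card_of_injOn (fun q : (G × C) × Fin K × Fin K =>
        (y⁻¹ * q.1.1, (q.1.2, q.2.2)))
      · intro q hq
        simp only [coe_filter, mem_univ, true_and, Set.mem_ofPred_eq] at hq
        simp [hq.1]
      · intro a ha b hb hab
        simp only [coe_filter, mem_univ, true_and, Set.mem_ofPred_eq] at ha hb
        simp only [Prod.mk.injEq] at hab
        exact Prod.ext (Prod.ext (mul_left_cancel hab.1) hab.2.1)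
          (Prod.ext (ha.2.trans hb.2.symm) hab.2.2)
    have h3 : (univ.filter (fun q : (G × C) × Fin K × Fin K => y⁻¹ * (q.1.1 * q.1.2) ∈ H ∧
        q.2.2 = i)).card ≤ C.card * Nat.card H * K := by
      rw [← hcard]
      apply card_le_card_of_injOn (fun q : (G × C) × Fin K × Fin K =>
        (y⁻¹ * (q.1.1 * q.1.2), (q.1.2, q.2.1)))
      · intro q hq
        simp only [coe_filter, mem_univ, true_and, Set.mem_ofPred_eq] at hq
        simp [hq.1]
      · intro a ha b hb hab
        simp only [coe_filter, mem_univ, true_and, Set.mem_ofPred_eq] at ha hb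
        simp only [Prod.mk.injEq] at hab
        have e1 : a.1.1 = b.1.1 := by
          have e2 := mul_left_cancel hab.1
          rw [hab.2.1] at e2
          exact mul_right_cancel e2
        exact Prod.ext (Prod.ext e1 hab.2.1)
          (Prod.ext hab.2.2 (ha.2.trans hb.2.symm))
    refine (card_le_card h1).trans ((card_union_le _ _).trans ?_)
    change _ ≤ 2 * C.card * Nat.card H * K
    calc _ ≤ C.card * Nat.card H * K + C.card * Nat.card H * K := Nat.add_le_add h2 h3
      _ = 2 * C.card * Nat.card H * K := by ring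

theorem ncard_meet_slots (H : Subgroup G) [Fintype (G ⧸ H)] [DecidableEq (G ⧸ H)] (C : Finset G)
    (K : ℕ) (U : Finset (G ⊕ (G ⧸ H) × Fin K)) :
    Set.ncard {q | ¬ Disjoint (Ssl H C K q) U} ≤ ∑ u ∈ U, wsl H C K u := by
  classical
  have h1 : {q | ¬ Disjoint (Ssl H C K q) U} ⊆
      ((U.biUnion (fun u => univ.filter (fun q => u ∈ Ssl H C K q)) :
        Finset ((G × C) × Fin K × Fin K)) : Set ((G × C) × Fin K × Fin K)) := by
    intro q hq
    simp only [Set.mem_ofPred_eq] at hq
    rw [not_disjoint_iff] at hq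
    obtain ⟨u, h1, h2⟩ := hq
    rw [mem_coe, mem_biUnion]
    exact ⟨u, h2, by simpa using h1⟩
  refine (Set.ncard_le_ncard h1 (Set.toFinite _)).trans ?_
  rw [Set.ncard_coe_finset]
  exact card_biUnion_le.trans (sum_le_sum fun u _ => card_use H C K u)

theorem sum_Ssl (H : Subgroup G) [DecidableEq (G ⧸ H)] (C : Finset G) (K : ℕ)
    (q : (G × C) × Fin K × Fin K) :
    ∑ u ∈ Ssl H C K q, wsl H C K u ≤
      2 * (2 * C.card * K * K) + 2 * (2 * C.card * Nat.card H * K) := by
  unfold Ssl
  rw [sum_disjSum]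
  simp only [wsl, Sum.elim_inl, Sum.elim_inr, sum_const, smul_eq_mul]
  exact Nat.add_le_add (Nat.mul_le_mul_right _ card_le_two) (Nat.mul_le_mul_right _ card_le_two)

theorem sum_biUnion_card {ι α : Type*} [DecidableEq ι] [DecidableEq α] (w : α → ℕ)
    (f : ι → Finset α) (M : ℕ) (B : Finset ι) (h : ∀ b ∈ B, ∑ u ∈ f b, w u ≤ M) :
    ∑ u ∈ B.biUnion f, w u ≤ B.card * M := by
  induction B using Finset.induction_on with
  | empty => simp
  | insert a B ha ih =>
    rw [biUnion_insert, card_insert_of_notMem ha]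
    have e1 : ∑ u ∈ f a ∪ B.biUnion f, w u ≤ ∑ u ∈ f a, w u + ∑ u ∈ B.biUnion f, w u := by
      rw [← sum_union_inter]
      exact Nat.le_add_right _ _
    have e2 := h a (mem_insert_self _ _)
    have e3 := ih (fun b hb => h b (mem_insert_of_mem hb))
    rw [add_mul, one_mul]
    omega

theorem card_blocked_slots (H : Subgroup G) [Fintype (G ⧸ H)] [DecidableEq (G ⧸ H)]
    (C : Finset G) (K : ℕ) (hK : K ≤ Nat.card H) (z0 : (G × C) × Fin K × Fin K)
    (B : Finset ((G × C) × Fin K × Fin K)) (hB : B.Nonempty)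
    (h : ∀ b ∈ B, ¬ Disjoint (Ssl H C K z0) (Ssl H C K b)) :
    Set.ncard {a | ¬ Disjoint (Ssl H C K a) (Ssl H C K z0 ∪ B.biUnion (Ssl H C K))} ≤
      (C.card * K * (6 * K + 8 * Nat.card H)) * B.card := by
  classical
  refine (ncard_meet_slots H C K _).trans ?_
  set w1 := 2 * C.card * K * K with hw1
  set w2 := 2 * C.card * Nat.card H * K with hw2
  have hw : w1 ≤ w2 := by
    rw [hw1, hw2]
    apply Nat.mul_le_mul_right
    exact Nat.mul_le_mul_left _ hK
  have h1 : Ssl H C K z0 ∪ B.biUnion (Ssl H C K) =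
      Ssl H C K z0 ∪ B.biUnion (fun b => Ssl H C K b \ Ssl H C K z0) := by
    ext x
    simp only [mem_union, mem_biUnion, mem_sdiff]
    constructor
    · rintro (h | ⟨b, hb, hx⟩)
      · exact Or.inl h
      · by_cases h0 : x ∈ Ssl H C K z0
        · exact Or.inl h0
        · exact Or.inr ⟨b, hb, hx, h0⟩
    · rintro (h | ⟨b, hb, hx, -⟩)
      · exact Or.inl h
      · exact Or.inr ⟨b, hb, hx⟩
  have h2 : ∀ b ∈ B, ∑ u ∈ Ssl H C K b \ Ssl H C K z0, wsl H C K u ≤ w1 + 2 * w2 := by
    intro b hb
    have h3 := h b hb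
    rw [not_disjoint_iff] at h3
    obtain ⟨u, hu0, hub⟩ := h3
    have h4 : ∑ u ∈ Ssl H C K b \ Ssl H C K z0, wsl H C K u ≤
        ∑ u ∈ (Ssl H C K b).erase u, wsl H C K u := by
      apply sum_le_sum_of_subset
      intro x hx
      rw [mem_sdiff] at hx
      rw [mem_erase]
      refine ⟨?_, hx.1⟩
      rintro rfl
      exact hx.2 hu0
    have h5 := add_sum_erase (Ssl H C K b) (wsl H C K) hub
    have h6 := sum_Ssl H C K b
    have h7 : w1 ≤ wsl H C K u := by
      rcases u with x | ⟨v, i⟩
      · exact le_refl _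
      · exact hw
    rw [← hw1, ← hw2] at h6
    omega
  have h8 : ∑ u ∈ Ssl H C K z0 ∪ B.biUnion (fun b => Ssl H C K b \ Ssl H C K z0),
      wsl H C K u ≤ (2 * w1 + 2 * w2) + B.card * (w1 + 2 * w2) := by
    have e1 : ∑ u ∈ Ssl H C K z0 ∪ B.biUnion (fun b => Ssl H C K b \ Ssl H C K z0),
        wsl H C K u ≤ ∑ u ∈ Ssl H C K z0, wsl H C K u +
        ∑ u ∈ B.biUnion (fun b => Ssl H C K b \ Ssl H C K z0), wsl H C K u := by
      rw [← sum_union_inter]
      exact Nat.le_add_right _ _
    have e3 : ∑ u ∈ B.biUnion (fun b => Ssl H C K b \ Ssl H C K z0), wsl H C K u ≤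
        B.card * (w1 + 2 * w2) := sum_biUnion_card _ _ _ B h2
    have e4 := sum_Ssl H C K z0
    rw [← hw1, ← hw2] at e4
    omega
  have h9 := card_pos.2 hB
  rw [h1]
  refine h8.trans ?_
  have h10 : C.card * K * (6 * K + 8 * Nat.card H) = 3 * w1 + 4 * w2 := by
    rw [hw1, hw2]; ring
  rw [h10]
  nlinarith

/-- the set of links with at most `K` ends in every coset -/
theorem exists_links_slots (A : Set G) (hgen : Subgroup.closure A = ⊤) (H : Subgroup G)
    [Fintype (G ⧸ H)] [DecidableEq (G ⧸ H)] (K : ℕ) (hK0 : 0 < K) (hK : K ≤ Nat.card H)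
    (hKH : 12 * K + 16 * Nat.card H ≤ K * Nat.card H) :
    ∃ (C : Finset G), (C : Set G) ⊆ A ∧ (∀ c ∈ C, c ∉ H) ∧
      ∃ (F : Finset ((G × C) × Fin K × Fin K)),
      (∀ q ∈ F, ∀ q' ∈ F, q ≠ q' → Disjoint (Ssl H C K q) (Ssl H C K q')) ∧
      ∑ q ∈ F, vec (fun q : (G × C) × Fin K × Fin K => sv H C q.1)
        (fun q : (G × C) × Fin K × Fin K => tv H C q.1) q = 0 ∧
      ∀ P : Set (G ⧸ H), (∀ q ∈ F, sv H C q.1 ∈ P ↔ tv H C q.1 ∈ P) → P.Nonempty →
        P = Set.univ := by
  classical
  obtain ⟨C, hCA, hCgen, hCH, hC⟩ := exists_irred H A hgen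
  refine ⟨C, hCA, hCH, ?_⟩
  rcases Nat.eq_zero_or_pos C.card with h0 | h0
  · refine ⟨∅, by simp, by simp, fun P _ hne => conn_of_gen H C hCgen P ?_ hne⟩
    rintro ⟨x, c, hc⟩
    rw [card_eq_zero] at h0
    rw [h0] at hc
    simp at hc
  · have hHpos : 0 < Nat.card H := Nat.card_pos
    set s' := fun q : (G × C) × Fin K × Fin K => sv H C q.1 with hs'
    set t' := fun q : (G × C) × Fin K × Fin K => tv H C q.1 with ht'
    have hvec : ∀ q : (G × C) × Fin K × Fin K, vec s' t' q = vec (sv H C) (tv H C) q.1 :=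
      fun q => rfl
    have hSp : Sp (ZMod 2) (vec s' t') univ = Sp (ZMod 2) (vec (sv H C) (tv H C)) univ := by
      apply le_antisymm
      · apply Sp_le
        intro q _
        rw [hvec]
        exact mem_Sp (mem_univ _)
      · apply Sp_le
        intro q _
        have : vec (sv H C) (tv H C) q = vec s' t' (q, (⟨0, hK0⟩, ⟨0, hK0⟩)) := rfl
        rw [this]
        exact mem_Sp (mem_univ _)
    obtain ⟨F, hF1, hF2, hF3, -⟩ := two_trees s' t' (fun q => q)
      (Ssl H C K) (C.card * K * (6 * K + 8 * Nat.card H)) (by positivity)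
      (fun a => ⟨Sum.inl a.1.1, by simp [Ssl]⟩) (by
        intro U hU
        rw [hSp] at hU ⊢
        have h1 : C.card * Nat.card H *
            finrank (ZMod 2) (Sp (ZMod 2) (vec (sv H C) (tv H C)) univ) ≤
            Set.ncard {q : G × C | vec (sv H C) (tv H C) q ∉ U} +
              C.card * Nat.card H * finrank (ZMod 2) U :=
          cut_ineq H C (C.card * Nat.card H) (by
            intro S hHS hS
            exact hC S hHS hS) U hU
        have h2 : {a : (G × C) × Fin K × Fin K | ∃ q, q = a ∧ vec s' t' q ∉ U} =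
            {q : G × C | vec (sv H C) (tv H C) q ∉ U} ×ˢ (Set.univ : Set (Fin K × Fin K)) := by
          ext a
          simp only [Set.mem_ofPred_eq, exists_eq_left, Set.mem_prod, Set.mem_univ, and_true]
          rw [hvec]
        rw [h2, Set.ncard_prod, Set.ncard_univ, Nat.card_prod, Nat.card_fin]
        have h3 := Submodule.finrank_mono hU
        set w := finrank (ZMod 2) (Sp (ZMod 2) (vec (sv H C) (tv H C)) univ)
        set u := finrank (ZMod 2) U
        set n := Set.ncard {q : G × C | vec (sv H C) (tv H C) q ∉ U}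
        obtain ⟨d, hd⟩ := Nat.exists_eq_add_of_le h3
        have h4 : C.card * Nat.card H * d ≤ n := by
          have e1 : C.card * Nat.card H * w = C.card * Nat.card H * u +
            C.card * Nat.card H * d := by rw [hd]; ring
          omega
        have h5 : 2 * (C.card * K * (6 * K + 8 * Nat.card H)) * d ≤ n * (K * K) := by
          calc 2 * (C.card * K * (6 * K + 8 * Nat.card H)) * d
              = C.card * K * d * (12 * K + 16 * Nat.card H) := by ring
            _ ≤ C.card * K * d * (K * Nat.card H) := Nat.mul_le_mul_left _ hKH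
            _ = (C.card * Nat.card H * d) * (K * K) := by ring
            _ ≤ n * (K * K) := Nat.mul_le_mul_right _ h4
        calc 2 * (C.card * K * (6 * K + 8 * Nat.card H)) * w
            = 2 * (C.card * K * (6 * K + 8 * Nat.card H)) * d +
              2 * (C.card * K * (6 * K + 8 * Nat.card H)) * u := by rw [hd]; ring
          _ ≤ n * (K * K) + 2 * (C.card * K * (6 * K + 8 * Nat.card H)) * u :=
            Nat.add_le_add_right h5 _) (by
        intro z0 B hB hmeet _
        exact card_blocked_slots H C K hK z0 B hB hmeet)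
    refine ⟨F, hF1, hF2, fun P hP hne => conn_of_gen H C hCgen P ?_ hne⟩
    have h6 := cut_of_span s' t' F hF3 P hP
    intro q
    exact h6 (q, (⟨0, hK0⟩, ⟨0, hK0⟩))

end Pool.Agent.H718C
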