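import Pool.Agent.Helper718_cayley.N
import Pool.Agent.Helper718_cayley.O
import Pool.Agent.Helper718_cayley.D

/-!
Cayley graphs whose connection set contains many elements of a subgroup.
-/

namespace Pool.Agent.H718C

open Finset Module

variable {G : Type*} [Group G]

theorem dense_assembly [Fintype G] (A : Set G) (hA : ∀ x ∈ A, x⁻¹ ∈ A) (H : Subgroup G)
    [DecidableEq (G ⧸ H)] (C : Finset G) (hCA : (C : Set G) ⊆ A) (hCH : ∀ c ∈ C, c ∉ H)
    {Q : Type*} (pr : Q → G × C) (F : Finset Q)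
    (hdisj : ∀ q ∈ F, ∀ q' ∈ F, q ≠ q' → (pr q).1 ≠ (pr q').1 ∧
      (pr q).1 ≠ (pr q').1 * (pr q').2 ∧ (pr q).1 * (pr q).2 ≠ (pr q').1 ∧
      (pr q).1 * (pr q).2 ≠ (pr q').1 * (pr q').2)
    (heven : ∑ q ∈ F, vec (fun q => sv H C (pr q)) (fun q => tv H C (pr q)) q = 0)
    (hconn : ∀ P : Set (G ⧸ H), (∀ q ∈ F, sv H C (pr q) ∈ P ↔ tv H C (pr q) ∈ P) → P.Nonempty →
      P = Set.univ) (T : ℕ)
    (hT : ∀ v : G ⧸ H, Set.ncard {z : G | (z : G ⧸ H) = v ∧
      ∃ q ∈ F, z = (pr q).1 ∨ z = (pr q).1 * (pr q).2} ≤ T)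
    (hd : Nat.card H + T / 2 ≤ 2 * Set.ncard {x | x ∈ A ∧ x ∈ H ∧ x ≠ 1})
    (h3 : 3 ≤ Fintype.card G) :
    ∃ σ : Equiv.Perm G, (∀ x, x⁻¹ * σ x ∈ A) ∧ ∀ x y, σ.SameCycle x y := by
  classical
  let el : F × Bool → G := fun y => if y.2 then (pr y.1).1 * (pr y.1).2 else (pr y.1).1
  have elf : ∀ q : F, el (q, false) = (pr q).1 := fun q => rfl
  have elt : ∀ q : F, el (q, true) = (pr q).1 * (pr q).2 := fun q => rfl
  have hends : ∀ q : F, ((el (q, false) : G) : G ⧸ H) ≠ ((el (q, true) : G) : G ⧸ H) := by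
    rintro ⟨q, hq⟩ h
    rw [elf, elt, QuotientGroup.eq] at h
    simp only [inv_mul_cancel_left] at h
    exact hCH _ (pr q).2.2 h
  have hinj : Function.Injective el := by
    rintro ⟨q, β⟩ ⟨q', β'⟩ h
    by_cases hne : q = q'
    · subst hne
      have h' : ((el (q, β) : G) : G ⧸ H) = ((el (q, β') : G) : G ⧸ H) := by rw [h]
      cases β <;> cases β'
      · rfl
      · exact absurd h' (hends q)
      · exact absurd h'.symm (hends q)
      · rfl
    · exfalso
      have h4 := hdisj q q.2 q' q'.2 (fun h => hne (Subtype.ext h))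
      cases β <;> cases β'
      · exact h4.1 h
      · exact h4.2.1 h
      · exact h4.2.2.1 h
      · exact h4.2.2.2 h
  let fl : F × Bool → F × Bool := fun y => (y.1, !y.2)
  have hflfl : ∀ y, fl (fl y) = y := by
    rintro ⟨q, β⟩
    simp [fl]
  let L : G → G := fun x => if h : ∃ y, el y = x then el (fl h.choose) else x
  have hL : ∀ y, L (el y) = el (fl y) := by
    intro y
    have h : ∃ y', el y' = el y := ⟨y, rfl⟩
    have h3 : L (el y) = el (fl h.choose) := dif_pos h
    rw [h3, hinj h.choose_spec]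
  have hL0 : ∀ x, (¬ ∃ y, el y = x) → L x = x := fun x h => dif_neg h
  have hLL : ∀ x, L (L x) = x := by
    intro x
    by_cases h : ∃ y, el y = x
    · obtain ⟨y, rfl⟩ := h
      rw [hL, hL, hflfl]
    · rw [hL0 x h, hL0 x h]
  -- the first permutation
  obtain ⟨σ0, a1, a2⟩ := cyclic_perm (X := G) (V := G ⧸ H) (Q := F)
    (fun x y => (x ≠ y ∧ (x : G ⧸ H) = (y : G ⧸ H)) ∨ y = L x)
    (by
      rintro x y (⟨h1, h2⟩ | h)
      · exact Or.inl ⟨h1.symm, h2.symm⟩
      · right
        rw [h, hLL]) (fun x v => (x : G ⧸ H) = v)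
    (by
      rintro v x y h1 h2 hne
      exact Or.inl ⟨hne, h1.trans h2.symm⟩) (fun x => (x : G ⧸ H)) (fun x => rfl)
    (fun q => sv H C (pr q)) (fun q => tv H C (pr q))
    (fun q => (pr q).1) (fun q => (pr q).1 * (pr q).2) (fun q => rfl) (fun q => rfl)
    (by
      intro q
      right; right
      have := hL (q, false)
      rw [elf] at this
      rw [this]
      rfl) univ
    (by
      intro q _ q' _ hne
      exact hdisj q q.2 q' q'.2 (fun h => hne (Subtype.ext h)))
    (by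
      rw [← heven]
      exact Finset.sum_coe_sort F (fun q => vec (fun q => sv H C (pr q))
        (fun q => tv H C (pr q)) q))
    (by
      intro P hP hne
      exact hconn P (fun q hq => hP ⟨q, hq⟩ (mem_univ _)) hne)
    (by omega)
  have hcard : ∀ x : G, Set.ncard {z : G | (z : G ⧸ H) = (x : G ⧸ H)} = Nat.card H := by
    intro x
    have : {z : G | (z : G ⧸ H) = (x : G ⧸ H)} = (fun z => x * z) '' (H : Set G) := by
      ext z
      simp only [Set.mem_ofPred_eq, Set.mem_image, SetLike.mem_coe]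
      constructor
      · intro h
        exact ⟨x⁻¹ * z, QuotientGroup.eq.1 h.symm, by simp⟩
      · rintro ⟨h, hh, rfl⟩
        rw [eq_comm, QuotientGroup.eq]
        simpa using hh
    rw [this, Set.ncard_image_of_injective _ (mul_right_injective x)]
    rfl
  obtain ⟨σ, b1, b2⟩ := dense_fix (fun x : G => (x : G ⧸ H)) L hLL
    (fun x y => x⁻¹ * y ∈ A ∧ x ≠ y) (by
      rintro x y ⟨h1, h2⟩
      refine ⟨?_, h2.symm⟩
      have := hA _ h1
      rwa [mul_inv_rev, inv_inv] at this) (fun x h => h.2 rfl) (by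
      intro x
      rw [hcard]
      have c1 : Set.ncard {z : G | (z : G ⧸ H) = (x : G ⧸ H) ∧
          ((L z : G) : G ⧸ H) ≠ (z : G ⧸ H)} ≤ T := by
        refine (Set.ncard_le_ncard ?_ (Set.toFinite _)).trans (hT (x : G ⧸ H))
        rintro z ⟨h1, h2⟩
        refine ⟨h1, ?_⟩
        by_cases h : ∃ y, el y = z
        · obtain ⟨⟨q, β⟩, rfl⟩ := h
          refine ⟨q, q.2, ?_⟩
          cases β
          · exact Or.inl rfl
          · exact Or.inr rfl
        · rw [hL0 z h] at h2
          exact absurd rfl h2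
      have c2 : Set.ncard {x | x ∈ A ∧ x ∈ H ∧ x ≠ 1} ≤
          Set.ncard {z : G | (z : G ⧸ H) = (x : G ⧸ H) ∧ (x⁻¹ * z ∈ A ∧ x ≠ z)} := by
        rw [← Set.ncard_image_of_injective {x | x ∈ A ∧ x ∈ H ∧ x ≠ 1}
          (mul_right_injective x)]
        apply Set.ncard_le_ncard _ (Set.toFinite _)
        rintro _ ⟨h, ⟨h1, h2, h3⟩, rfl⟩
        refine ⟨?_, ?_, ?_⟩
        · change ((x * h : G) : G ⧸ H) = (x : G ⧸ H)
          rw [eq_comm, QuotientGroup.eq]
          simpa using h2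
        · simpa using h1
        · intro h4
          exact h3 (by simpa using h4.symm)
      have c3 := Nat.div_le_div_right (c := 2) c1
      omega) h3 σ0 a2 (by
      intro x
      rcases a1 x with ⟨h1, h2⟩ | h
      · exact Or.inl h2.symm
      · exact Or.inr h)
  refine ⟨σ, ?_, b1⟩
  intro x
  rcases b2 x with ⟨-, h, -⟩ | ⟨h1, h2⟩
  · exact h
  · by_cases h : ∃ y, el y = x
    · obtain ⟨⟨q, β⟩, rfl⟩ := h
      rw [h2, hL]
      have hcA : ((pr q).2 : G) ∈ A := hCA (by exact_mod_cast (pr q).2.2)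
      cases β
      · change (el (q, false))⁻¹ * el (q, true) ∈ A
        rw [elf, elt, inv_mul_cancel_left]
        exact hcA
      · change (el (q, true))⁻¹ * el (q, false) ∈ A
        rw [elf, elt, mul_inv_rev, inv_mul_cancel_right]
        exact hA _ hcA
    · exfalso
      apply h1
      change ((σ x : G) : G ⧸ H) = (x : G ⧸ H)
      rw [h2, hL0 x h]

/-- `exists_links` with the additional information that the new generators are not in `H` -/
theorem exists_links_out [Fintype G] [DecidableEq G] (A : Set G)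
    (hgen : Subgroup.closure A = ⊤) (H : Subgroup G)
    [Fintype (G ⧸ H)] [DecidableEq (G ⧸ H)] (h12 : 12 ≤ Nat.card H) :
    ∃ (C : Finset G), (C : Set G) ⊆ A ∧ (∀ c ∈ C, c ∉ H) ∧ ∃ (F : Finset (G × C)),
      (∀ q ∈ F, ∀ q' ∈ F, q ≠ q' →
        Disjoint ({q.1, q.1 * q.2} : Finset G) {q'.1, q'.1 * q'.2}) ∧
      ∑ q ∈ F, vec (sv H C) (tv H C) q = 0 ∧
      ∀ P : Set (G ⧸ H), (∀ q ∈ F, sv H C q ∈ P ↔ tv H C q ∈ P) → P.Nonempty → P = Set.univ := by
  classical
  obtain ⟨C, hCA, hCgen, hCH, hC⟩ := exists_irred H A hgen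
  refine ⟨C, hCA, hCH, ?_⟩
  rcases Nat.eq_zero_or_pos C.card with h0 | h0
  · refine ⟨∅, by simp, by simp, fun P _ hne => conn_of_gen H C hCgen P ?_ hne⟩
    rintro ⟨x, c, hc⟩
    rw [card_eq_zero] at h0
    rw [h0] at hc
    simp at hc
  · obtain ⟨F, hF1, hF2, hF3, -⟩ := two_trees (sv H C) (tv H C) (fun q : G × C => q)
      (fun q => ({q.1, q.1 * q.2} : Finset G)) (6 * C.card) (by omega)
      (fun a => ⟨a.1, by simp⟩) (by
        intro U hU
        have h1 := cut_ineq H C (12 * C.card) (by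
          intro S hHS hS
          refine le_trans ?_ (hC S hHS hS)
          rw [mul_comm]
          exact Nat.mul_le_mul_left _ h12) U hU
        have h2 : {a : G × C | ∃ q, q = a ∧ vec (sv H C) (tv H C) q ∉ U} =
            {q : G × C | vec (sv H C) (tv H C) q ∉ U} := by
          ext a
          simp
        rw [h2, show 2 * (6 * C.card) = 12 * C.card by ring]
        exact h1) (by
        intro z0 B hB hmeet _
        have h1 := card_union3 (fun q : G × C => ({q.1, q.1 * q.2} : Finset G))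
          (fun z => card_le_two) z0 B hB hmeet
        refine (ncard_meet C _).trans ?_
        calc 2 * C.card * _ ≤ 2 * C.card * (3 * B.card) := Nat.mul_le_mul_left _ h1
          _ = 6 * C.card * B.card := by ring)
    refine ⟨F, hF1, hF2, fun P hP hne => conn_of_gen H C hCgen P ?_ hne⟩
    exact cut_of_span _ _ F hF3 P hP

/-- **At least three quarters of a subgroup of order at least twelve.** -/
theorem dense_three [Finite G] (A : Set G) (hA : ∀ x ∈ A, x⁻¹ ∈ A)
    (hgen : Subgroup.closure A = ⊤) (H : Subgroup G) (h12 : 12 ≤ Nat.card H)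
    (hd : Nat.card H + Nat.card H / 2 ≤ 2 * Set.ncard {x | x ∈ A ∧ x ∈ H ∧ x ≠ 1}) :
    ∃ σ : Equiv.Perm G, (∀ x, x⁻¹ * σ x ∈ A) ∧ ∀ x y, σ.SameCycle x y := by
  classical
  have : Fintype G := Fintype.ofFinite G
  have : Fintype (G ⧸ H) := Fintype.ofFinite _
  obtain ⟨C, hCA, hCH, F, hF1, hF2, hF3⟩ := exists_links_out A hgen H h12
  refine dense_assembly A hA H C hCA hCH (fun q => q) F ?_ hF2 hF3 (Nat.card H) ?_ hd ?_
  · intro q hq q' hq' hne
    have := hF1 q hq q' hq' hne
    simp only [Finset.disjoint_insert_left, Finset.disjoint_singleton_left, Finset.mem_insert,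
      Finset.mem_singleton, not_or] at this
    tauto
  · intro v
    obtain ⟨x, rfl⟩ := QuotientGroup.mk_surjective v
    have : {z : G | (z : G ⧸ H) = (x : G ⧸ H)} = (fun z => x * z) '' (H : Set G) := by
      ext z
      simp only [Set.mem_ofPred_eq, Set.mem_image, SetLike.mem_coe]
      constructor
      · intro h
        exact ⟨x⁻¹ * z, QuotientGroup.eq.1 h.symm, by simp⟩
      · rintro ⟨h, hh, rfl⟩
        rw [eq_comm, QuotientGroup.eq]
        simpa using hh
    have h1 : Set.ncard {z : G | (z : G ⧸ H) = (x : G ⧸ H)} = Nat.card H := by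
      rw [this, Set.ncard_image_of_injective _ (mul_right_injective x)]
      rfl
    rw [← h1]
    exact Set.ncard_le_ncard (fun z hz => hz.1) (Set.toFinite _)
  · rw [← Nat.card_eq_fintype_card]
    have := Subgroup.card_le_card_group H
    omega

/-- **More than half of a large subgroup.** -/
theorem dense_half [Finite G] (A : Set G) (hA : ∀ x ∈ A, x⁻¹ ∈ A)
    (hgen : Subgroup.closure A = ⊤) (H : Subgroup G) (K : ℕ) (hK0 : 0 < K)
    (hK : K ≤ Nat.card H) (hKH : 12 * K + 16 * Nat.card H ≤ K * Nat.card H)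
    (hd : Nat.card H + K / 2 ≤ 2 * Set.ncard {x | x ∈ A ∧ x ∈ H ∧ x ≠ 1}) :
    ∃ σ : Equiv.Perm G, (∀ x, x⁻¹ * σ x ∈ A) ∧ ∀ x y, σ.SameCycle x y := by
  classical
  have : Fintype G := Fintype.ofFinite G
  have : Fintype (G ⧸ H) := Fintype.ofFinite _
  obtain ⟨C, hCA, hCH, F, hF1, hF2, hF3⟩ := exists_links_slots A hgen H K hK0 hK hKH
  have hd1 : ∀ q ∈ F, ∀ q' ∈ F, ∀ u, u ∈ Ssl H C K q → u ∈ Ssl H C K q' → q = q' := by
    intro q hq q' hq' u hu hu'
    by_contra hne
    exact disjoint_left.1 (hF1 q hq q' hq' hne) hu hu'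
  have hH17 : 17 ≤ K := by
    by_contra hcon
    push Not at hcon
    have : K * Nat.card H ≤ 16 * Nat.card H := Nat.mul_le_mul_right _ (by omega)
    omega
  refine dense_assembly A hA H C hCA hCH (fun q => q.1) F ?_ hF2 hF3 K ?_ hd ?_
  · intro q hq q' hq' hne
    refine ⟨fun h => ?_, fun h => ?_, fun h => ?_, fun h => ?_⟩
    · exact hne (hd1 q hq q' hq' (Sum.inl q.1.1) (by simp [Ssl]) (by simp [Ssl, h]))
    · exact hne (hd1 q hq q' hq' (Sum.inl q.1.1) (by simp [Ssl]) (by simp [Ssl, h]))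
    · exact hne (hd1 q hq q' hq' (Sum.inl (q.1.1 * q.1.2)) (by simp [Ssl]) (by simp [Ssl, h]))
    · exact hne (hd1 q hq q' hq' (Sum.inl (q.1.1 * q.1.2)) (by simp [Ssl]) (by simp [Ssl, h]))
  · intro v
    -- the slot of an end
    have hslot : ∀ z : G, (z : G ⧸ H) = v → (∃ q ∈ F, z = q.1.1 ∨ z = q.1.1 * q.1.2) →
        ∃ i : Fin K, ∃ q ∈ F, Sum.inr (v, i) ∈ Ssl H C K q ∧ Sum.inl z ∈ Ssl H C K q := by
      rintro z hz ⟨q, hq, h | h⟩
      · refine ⟨q.2.1, q, hq, ?_, by simp [Ssl, h]⟩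
        have : sv H C q.1 = v := by rw [← hz, h]; rfl
        simp [Ssl, this]
      · refine ⟨q.2.2, q, hq, ?_, by simp [Ssl, h]⟩
        have : tv H C q.1 = v := by rw [← hz, h]; rfl
        simp [Ssl, this]
    let f : G → Fin K := fun z => if h : (z : G ⧸ H) = v ∧
        (∃ q ∈ F, z = q.1.1 ∨ z = q.1.1 * q.1.2) then (hslot z h.1 h.2).choose
      else ⟨0, hK0⟩
    have hinj : Set.InjOn f {z : G | (z : G ⧸ H) = v ∧
        ∃ q ∈ F, z = q.1.1 ∨ z = q.1.1 * q.1.2} := by
      intro z hz z' hz' hzz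
      have e1 : f z = (hslot z hz.1 hz.2).choose := dif_pos hz
      have e2 : f z' = (hslot z' hz'.1 hz'.2).choose := dif_pos hz'
      obtain ⟨q, hq, h1, h2⟩ := (hslot z hz.1 hz.2).choose_spec
      obtain ⟨q', hq', h1', h2'⟩ := (hslot z' hz'.1 hz'.2).choose_spec
      rw [← e1] at h1
      rw [← e2, ← hzz] at h1'
      have h3 := hd1 q hq q' hq' _ h1 h1'
      subst h3
      -- both are ends of `q` in the same coset
      simp only [Ssl, inl_mem_disjSum, mem_insert, mem_singleton] at h2 h2'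
      have hout : (q.1.1 : G ⧸ H) ≠ ((q.1.1 * q.1.2 : G) : G ⧸ H) := by
        intro h
        rw [QuotientGroup.eq, inv_mul_cancel_left] at h
        exact hCH _ q.1.2.2 h
      rcases h2 with h2 | h2 <;> rcases h2' with h2' | h2'
      · rw [h2, h2']
      · exfalso
        have a1 : (q.1.1 : G ⧸ H) = v := by rw [← h2]; exact hz.1
        have a2 : ((q.1.1 * q.1.2 : G) : G ⧸ H) = v := by rw [← h2']; exact hz'.1
        exact hout (a1.trans a2.symm)
      · exfalso
        have a1 : (q.1.1 : G ⧸ H) = v := by rw [← h2']; exact hz'.1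
        have a2 : ((q.1.1 * q.1.2 : G) : G ⧸ H) = v := by rw [← h2]; exact hz.1
        exact hout (a1.trans a2.symm)
      · rw [h2, h2']
    have h1 := Set.InjOn.ncard_image hinj
    rw [← h1]
    have h2 := Set.ncard_le_ncard (Set.subset_univ (f '' {z : G | (z : G ⧸ H) = v ∧
        ∃ q ∈ F, z = q.1.1 ∨ z = q.1.1 * q.1.2})) (Set.toFinite _)
    rwa [Set.ncard_univ, Nat.card_fin] at h2
  · rw [← Nat.card_eq_fintype_card]
    have := Subgroup.card_le_card_group H
    omega

end Pool.Agent.H718C
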